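import Mathlib

set_option autoImplicit false

/-!
Elementary asymptotic facts in terms of `x = log₂ n`.
-/

open Filter

namespace Pool.Agent.CliqueSharp

/-- `log₂ x ≤ s x ^ η` for large `x`. -/
theorem ev_logb_le {η s : ℝ} (hη : 0 < η) (hs : 0 < s) :
    ∀ᶠ x : ℝ in atTop, Real.logb 2 x ≤ s * x ^ η := by
  have hl2 : 0 < Real.log 2 := Real.log_pos (by norm_num)
  have h := (isLittleO_log_rpow_atTop hη).bound (mul_pos hs hl2)
  filter_upwards [h, eventually_ge_atTop (1 : ℝ)] with x hx h1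
  have h0 : 0 ≤ x ^ η := Real.rpow_nonneg (by linarith) _
  rw [Real.norm_of_nonneg (Real.log_nonneg h1), Real.norm_of_nonneg h0] at hx
  unfold Real.logb
  rw [div_le_iff₀ hl2]
  linarith

/-- powers are smaller than exponentials -/
theorem ev_pow_le {a s : ℝ} (k : ℕ) (ha : 0 < a) (hs : 0 < s) :
    ∀ᶠ x : ℝ in atTop, x ^ k ≤ s * (2 : ℝ) ^ (a * x) := by
  have hl2 : 0 < Real.log 2 := Real.log_pos (by norm_num)
  have h := (isLittleO_pow_exp_pos_mul_atTop (k := k) (mul_pos ha hl2)).bound hs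
  filter_upwards [h, eventually_ge_atTop (1 : ℝ)] with x hx h1
  rw [Real.norm_of_nonneg (by positivity), Real.norm_of_nonneg (Real.exp_nonneg _)] at hx
  refine hx.trans (le_of_eq ?_)
  rw [Real.rpow_def_of_pos (by norm_num)]
  congr 2
  ring

/-- `x ^ η` tends to infinity -/
theorem ev_rpow_ge {η : ℝ} (hη : 0 < η) (M : ℝ) : ∀ᶠ x : ℝ in atTop, M ≤ x ^ η :=
  (tendsto_rpow_atTop hη).eventually_ge_atTop M

theorem tendsto_logb2 : Tendsto (fun x : ℝ => Real.logb 2 x) atTop atTop :=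
  Real.tendsto_logb_atTop (by norm_num)

theorem ev_logb_ge (M : ℝ) : ∀ᶠ x : ℝ in atTop, M ≤ Real.logb 2 x :=
  tendsto_logb2.eventually_ge_atTop M

/-- transfer of an eventual statement about `log₂ n` -/
theorem ev_nat {P : ℝ → Prop} (h : ∀ᶠ x : ℝ in atTop, P x) :
    ∀ᶠ n : ℕ in atTop, P (Real.logb 2 n) :=
  (tendsto_logb2.comp tendsto_natCast_atTop_atTop).eventually h

/-- linear terms are smaller than `x ^ 2 / log₂ x`. -/
theorem ev_linear {s : ℝ} (M : ℝ) (hs : 0 < s) :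
    ∀ᶠ x : ℝ in atTop, M * x + M ≤ s * (x ^ 2 / Real.logb 2 x) := by
  have hM : 0 < |M| + 1 := by positivity
  have h := ev_logb_le (η := 1) (s := s / (2 * (|M| + 1))) one_pos (by positivity)
  filter_upwards [h, eventually_ge_atTop (1 : ℝ), ev_logb_ge 1] with x hx h1 h2
  have hl : 0 < Real.logb 2 x := by linarith
  rw [Real.rpow_one] at hx
  rw [← mul_div_assoc, le_div_iff₀ hl]
  have h3 : M ≤ |M| := le_abs_self M
  have h4 : M * x + M ≤ 2 * (|M| + 1) * x := by nlinarith [abs_nonneg M]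
  calc (M * x + M) * Real.logb 2 x ≤ 2 * (|M| + 1) * x * Real.logb 2 x :=
        mul_le_mul_of_nonneg_right h4 hl.le
    _ ≤ 2 * (|M| + 1) * x * (s / (2 * (|M| + 1)) * x) :=
        mul_le_mul_of_nonneg_left hx (by positivity)
    _ = s * x ^ 2 := by
      field_simp

end Pool.Agent.CliqueSharp
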