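import Pool.Agent.CliqueSharp.Enc

/-! Module CODE: central binomial codes. -/

set_option autoImplicit false

open Finset Filter

namespace Pool.Agent.CliqueSharp

/-- the code of all `h`-subsets of a block of `2h` selectors -/
noncomputable def centralCode (h : ℕ) : Code (2 * h) (Nat.centralBinom h) h := by
  classical
  let e : {s : Finset (Fin (2 * h)) // s.card = h} ≃ Fin (Nat.centralBinom h) :=
    Fintype.equivFinOfCardEq (by
      rw [Fintype.card_finset_len, Fintype.card_fin, Nat.centralBinom])
  exact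
    { dg := fun k => (e.symm k).1
      inj := fun k k' hk => e.symm.injective (Subtype.ext hk)
      card_dg := fun k => (e.symm k).2
      surj := fun E hE => ⟨e ⟨E, hE⟩, by simp⟩ }

theorem exists_code (η : ℝ) (hη : 0 < η) : ∃ (b c h : ℕ) (_ : Code b c h), 1 ≤ h ∧ h < b ∧
    2 ≤ c ∧ (b : ℝ) ≤ (1 + η) * Real.logb 2 c := by
  have hl2 : 0 < Real.log 2 := Real.log_pos (by norm_num)
  have hδ : 0 < 2 * η * Real.log 2 / (1 + η) := by positivity
  have h1 := Real.isLittleO_log_id_atTop.bound hδ
  have h2 : ∀ᶠ h : ℕ in atTop,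
      ‖Real.log (h : ℝ)‖ ≤ 2 * η * Real.log 2 / (1 + η) * ‖(id (h : ℝ) : ℝ)‖ :=
    tendsto_natCast_atTop_atTop.eventually h1
  obtain ⟨h, h3, h4⟩ := (h2.and (eventually_ge_atTop 4)).exists
  have hh : (0 : ℝ) < h := by
    have : (4 : ℝ) ≤ h := by exact_mod_cast h4
    linarith
  refine ⟨2 * h, Nat.centralBinom h, h, centralCode h, by omega, by omega,
    Nat.two_le_centralBinom h (by omega), ?_⟩
  have hc : (0 : ℝ) < Nat.centralBinom h := by exact_mod_cast Nat.centralBinom_pos h
  have h5 : (4 : ℝ) ^ h < h * Nat.centralBinom h := by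
    exact_mod_cast Nat.four_pow_lt_mul_centralBinom h h4
  have h6 : (2 * h : ℝ) * Real.log 2 ≤ Real.log h + Real.log (Nat.centralBinom h) := by
    rw [← Real.log_mul hh.ne' hc.ne']
    have := Real.log_le_log (by positivity) h5.le
    rw [Real.log_pow] at this
    have h7 : Real.log 4 = 2 * Real.log 2 := by
      rw [show (4 : ℝ) = 2 ^ 2 by norm_num, Real.log_pow]; norm_num
    rw [h7] at this
    linarith
  have h8 : Real.log h ≤ 2 * η * Real.log 2 / (1 + η) * h := by
    have := (le_abs_self (Real.log h)).trans h3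
    simpa [abs_of_pos hh] using this
  rw [Real.logb, mul_div_assoc', le_div_iff₀ hl2]
  push_cast
  have h9 : (1 + η) * Real.log h ≤ 2 * η * Real.log 2 * h := by
    have := mul_le_mul_of_nonneg_left h8 (by positivity : (0 : ℝ) ≤ 1 + η)
    refine this.trans (le_of_eq ?_)
    field_simp
  nlinarith

end Pool.Agent.CliqueSharp
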