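import Pool.Agent.CliqueSharp.LLDef

set_option autoImplicit false

namespace Pool.Agent.CliqueSharp

/-- the number of possible leading parts at scale `j` -/
def bnd (n ν ρ m y2 s₀ κ j : ℕ) : ℕ :=
  2 ^ ((2 * ν + y2 + κ) ^ 2) * ((2 ^ (2 * ν + y2 + κ) + 1) ^ (2 * ν * 2 ^ (ρ * (j - m))) *
      ((2 ^ (y2 + κ) + 1) ^ (y2 * 2 ^ (ρ * (j - 1)) / (s₀ + 1)) *
        (n + 1) ^ ((y2 + 1) ^ s₀ * 2 ^ κ)))

end Pool.Agent.CliqueSharp
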