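import Pool.Agent.CliqueCount.Upper2

set_option autoImplicit false

open Finset Filter
open Pool.Agent.CliqueCount (clq mem_clq cmn mem_cmn)

namespace Pool.Agent.CliqueSharp

/-! ### module LEAD (upper bound, the possible leading parts) -/

/-- a family indexed by a small set, as a partial function on `Fin W` -/
lemma opt_fun {V α : Type*} (U : Finset V) (N : V → α) {W : ℕ} (hW : U.card ≤ W) :
    ∃ g : Fin W → Option α, ∀ (P : α → Prop) [DecidablePred P]
      [DecidablePred fun i : Fin W => ∃ T, g i = some T ∧ P T],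
      (U.filter (fun x => P (N x))).card =
        (univ.filter fun i => ∃ T, g i = some T ∧ P T).card := by
  classical
  obtain ⟨φ⟩ := Function.Embedding.nonempty_of_card_le (α := {x // x ∈ U}) (β := Fin W)
    (by simpa using hW)
  let g : Fin W → Option α := fun i => if h : ∃ x, φ x = i then some (N h.choose) else none
  have hg : ∀ x : {x // x ∈ U}, g (φ x) = some (N x) := by
    intro x
    have hex : ∃ x', φ x' = φ x := ⟨x, rfl⟩
    have h1 : hex.choose = x := φ.injective hex.choose_spec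
    simp only [g, dif_pos hex, h1]
  refine ⟨g, ?_⟩
  intro P _ _
  apply Finset.card_bij (fun x hx => φ ⟨x, (mem_filter.1 hx).1⟩)
  · intro x hx
    rw [mem_filter] at hx ⊢
    exact ⟨mem_univ _, N x, hg ⟨x, hx.1⟩, hx.2⟩
  · intro x _ x' _ h
    have := φ.injective h
    simpa using this
  · intro i hi
    rw [mem_filter] at hi
    obtain ⟨_, T, hT, hP⟩ := hi
    by_cases hex : ∃ x, φ x = i
    · obtain ⟨x, rfl⟩ := hex
      rw [hg x, Option.some.injEq] at hT
      subst hT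
      exact ⟨x, mem_filter.2 ⟨x.2, hP⟩, rfl⟩
    · simp only [g, dif_neg hex] at hT
      cases hT

/-- a family as a multiplicity function -/
lemma mult_fun {V K : Type*} [Fintype K] (U : Finset V) (key : V → K) {n : ℕ}
    (hn : U.card ≤ n) : ∃ m : K → Fin (n + 1), ∀ (P : K → Prop) [DecidablePred P],
      (U.filter (fun x => P (key x))).card = ∑ k ∈ univ.filter P, (m k : ℕ) := by
  classical
  have hm : ∀ k, (U.filter (fun x => key x = k)).card < n + 1 := fun k =>
    Nat.lt_succ_of_le ((card_filter_le _ _).trans hn)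
  refine ⟨fun k => ⟨_, hm k⟩, ?_⟩
  intro P _
  rw [card_eq_sum_card_fiberwise (f := key) (t := univ.filter P) (by
    intro x hx
    have := (mem_filter.1 (mem_coe.1 hx)).2
    exact mem_coe.2 (mem_filter.2 ⟨mem_univ _, this⟩))]
  apply sum_congr rfl
  intro k hk
  show _ = (U.filter (fun x => key x = k)).card
  congr 1
  ext x
  simp only [mem_filter]
  constructor
  · rintro ⟨⟨h1, _⟩, h2⟩; exact ⟨h1, h2⟩
  · rintro ⟨h1, h2⟩; exact ⟨⟨h1, by rw [h2]; exact (mem_filter.1 hk).2⟩, h2⟩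

/-- injective labels -/
lemma exists_lab {V : Type*} (U : Finset V) {y : ℕ} (h : U.card ≤ y) :
    ∃ f : V → Option (Fin y), (∀ v ∈ U, ∃ i, f v = some i) ∧
      ∀ u ∈ U, ∀ v ∈ U, f u = f v → u = v := by
  classical
  obtain ⟨g⟩ := Function.Embedding.nonempty_of_card_le (α := {x // x ∈ U}) (β := Fin y)
    (by simpa using h)
  refine ⟨fun v => if hv : v ∈ U then some (g ⟨v, hv⟩) else none, ?_, ?_⟩
  · intro v hv
    exact ⟨_, dif_pos hv⟩
  · intro a ha b hb hab
    simp only [ha, hb, dif_pos, Option.some.injEq] at hab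
    have := g.injective hab
    simpa using this

/-- the index type -/
abbrev Ix3 (y1 y2 κ : ℕ) : Type := Fin y1 ⊕ (Fin y2 ⊕ Fin κ)

/-- the data which determines the leading part -/
abbrev Dat3 (n y1 y2 κ s₀ W1 W2 : ℕ) : Type :=
  Finset (Ix3 y1 y2 κ × Ix3 y1 y2 κ) × ((Fin W1 → Option (Finset (Ix3 y1 y2 κ))) ×
    ((Fin W2 → Option (Finset (Fin y2 ⊕ Fin κ))) ×
      ((Fin s₀ → Option (Fin y2)) × Finset (Fin κ) → Fin (n + 1))))

lemma card_Dat3 (n y1 y2 κ s₀ W1 W2 : ℕ) : Fintype.card (Dat3 n y1 y2 κ s₀ W1 W2) =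
    2 ^ ((y1 + (y2 + κ)) * (y1 + (y2 + κ))) * ((2 ^ (y1 + (y2 + κ)) + 1) ^ W1 *
      ((2 ^ (y2 + κ) + 1) ^ W2 * (n + 1) ^ ((y2 + 1) ^ s₀ * 2 ^ κ))) := by
  simp [Fintype.card_prod, Fintype.card_finset, Fintype.card_option]

open scoped Classical in
/-- the finite set encoded by a partial function -/
noncomputable def setOf' {s y : ℕ} (g : Fin s → Option (Fin y)) : Finset (Fin y) :=
  univ.filter fun a => ∃ i, g i = some a

lemma exists_setOf' {s y : ℕ} (A : Finset (Fin y)) (h : A.card ≤ s) :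
    ∃ g : Fin s → Option (Fin y), setOf' g = A := by
  classical
  obtain ⟨g, hg⟩ := opt_fun A id h
  refine ⟨g, ?_⟩
  ext a
  simp only [setOf', mem_filter, mem_univ, true_and]
  have h1 := hg (fun x => x = a)
  constructor
  · rintro ⟨i, hi⟩
    have h2 : 0 < (univ.filter fun i => ∃ T, g i = some T ∧ T = a).card :=
      card_pos.2 ⟨i, mem_filter.2 ⟨mem_univ _, a, hi, rfl⟩⟩
    rw [← h1, card_pos] at h2
    obtain ⟨x, hx⟩ := h2
    rw [mem_filter] at hx
    have : x = a := hx.2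
    exact this ▸ hx.1
  · intro ha
    have h2 : 0 < (A.filter fun x => id x = a).card :=
      card_pos.2 ⟨a, mem_filter.2 ⟨ha, rfl⟩⟩
    rw [h1, card_pos] at h2
    obtain ⟨i, hi⟩ := h2
    rw [mem_filter] at hi
    obtain ⟨_, T, hT, rfl⟩ := hi
    exact ⟨i, hT⟩

open scoped Classical in
/-- the leading part -/
noncomputable def Phi3 {n y1 y2 κ s₀ W1 W2 : ℕ} (d : Dat3 n y1 y2 κ s₀ W1 W2) : ℕ :=
  ∑ S ∈ univ.filter (fun S : Finset (Ix3 y1 y2 κ) => ∀ u ∈ S, ∀ v ∈ S, (u, v) ∈ d.1),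
    2 ^ ((univ.filter fun i : Fin W1 => ∃ T, d.2.1 i = some T ∧ Disjoint T S).card +
      ((univ.filter fun i : Fin W2 => ∃ T, d.2.2.1 i = some T ∧ Disjoint T S.toRight).card +
        ∑ k ∈ univ.filter (fun k : (Fin s₀ → Option (Fin y2)) × Finset (Fin κ) =>
          Disjoint (setOf' k.1) S.toRight.toLeft ∧ Disjoint k.2 S.toRight.toRight),
          (d.2.2.2 k : ℕ)))

lemma disjoint_sum_iff {α β : Type*} (A B : Finset (α ⊕ β)) :
    Disjoint A B ↔ Disjoint A.toLeft B.toLeft ∧ Disjoint A.toRight B.toRight := by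
  classical
  simp only [Finset.disjoint_left, mem_toLeft, mem_toRight]
  constructor
  · intro h
    exact ⟨fun a ha => h ha, fun b hb => h hb⟩
  · rintro ⟨h1, h2⟩ (a | b) h3
    · exact h1 h3
    · exact h2 h3

lemma exists_lab3 {V : Type*} (C1 C2 C3 : Finset V) {y1 y2 κ : ℕ} (h1 : C1.card ≤ y1)
    (h2 : C2.card ≤ y2) (h3 : C3.card ≤ κ) (h12 : Disjoint C1 C2) (h13 : Disjoint C1 C3)
    (h23 : Disjoint C2 C3) : ∃ ε : {x // x ∈ C1 ∨ x ∈ C2 ∨ x ∈ C3} → Ix3 y1 y2 κ,
      Function.Injective ε ∧ (∀ v, v.1 ∈ C1 → ∃ i, ε v = .inl i) ∧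
      (∀ v, v.1 ∈ C2 → ∃ i, ε v = .inr (.inl i)) ∧
      (∀ v, v.1 ∈ C3 → ∃ i, ε v = .inr (.inr i)) := by
  classical
  obtain ⟨f1⟩ := Function.Embedding.nonempty_of_card_le (α := {x // x ∈ C1}) (β := Fin y1)
    (by simpa using h1)
  obtain ⟨f2⟩ := Function.Embedding.nonempty_of_card_le (α := {x // x ∈ C2}) (β := Fin y2)
    (by simpa using h2)
  obtain ⟨f3⟩ := Function.Embedding.nonempty_of_card_le (α := {x // x ∈ C3}) (β := Fin κ)
    (by simpa using h3)
  let ε : {x // x ∈ C1 ∨ x ∈ C2 ∨ x ∈ C3} → Ix3 y1 y2 κ := fun v =>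
    if g1 : v.1 ∈ C1 then .inl (f1 ⟨v.1, g1⟩)
    else if g2 : v.1 ∈ C2 then .inr (.inl (f2 ⟨v.1, g2⟩))
    else .inr (.inr (f3 ⟨v.1, (v.2.resolve_left g1).resolve_left g2⟩))
  have e1 : ∀ v (g1 : v.1 ∈ C1), ε v = .inl (f1 ⟨v.1, g1⟩) := fun v g1 => by
    simp only [ε, dif_pos g1]
  have e2 : ∀ v (g2 : v.1 ∈ C2), ε v = .inr (.inl (f2 ⟨v.1, g2⟩)) := fun v g2 => by
    have g1 : v.1 ∉ C1 := fun h => Finset.disjoint_left.1 h12 h g2
    simp only [ε, dif_neg g1, dif_pos g2]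
  have e3 : ∀ v (g3 : v.1 ∈ C3), ε v = .inr (.inr (f3 ⟨v.1, g3⟩)) := fun v g3 => by
    have g1 : v.1 ∉ C1 := fun h => Finset.disjoint_left.1 h13 h g3
    have g2 : v.1 ∉ C2 := fun h => Finset.disjoint_left.1 h23 h g3
    simp only [ε, dif_neg g1, dif_neg g2]
  refine ⟨ε, ?_, fun v hv => ⟨_, e1 v hv⟩, fun v hv => ⟨_, e2 v hv⟩, fun v hv => ⟨_, e3 v hv⟩⟩
  intro u v huv
  rcases u.2 with hu | hu | hu <;> rcases v.2 with hv | hv | hv
  · rw [e1 u hu, e1 v hv] at huv
    have := f1.injective (Sum.inl.inj huv)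
    exact Subtype.ext (by simpa using this)
  · rw [e1 u hu, e2 v hv] at huv; cases huv
  · rw [e1 u hu, e3 v hv] at huv; cases huv
  · rw [e2 u hu, e1 v hv] at huv; cases huv
  · rw [e2 u hu, e2 v hv] at huv
    have := f2.injective (Sum.inl.inj (Sum.inr.inj huv))
    exact Subtype.ext (by simpa using this)
  · rw [e2 u hu, e3 v hv] at huv
    have := Sum.inr.inj huv
    cases this
  · rw [e3 u hu, e1 v hv] at huv; cases huv
  · rw [e3 u hu, e2 v hv] at huv
    have := Sum.inr.inj huv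
    cases this
  · rw [e3 u hu, e3 v hv] at huv
    have := f3.injective (Sum.inr.inj (Sum.inr.inj huv))
    exact Subtype.ext (by simpa using this)

open scoped Classical in
theorem lead_mem_range3 {V : Type*} [Fintype V] (G : SimpleGraph V) (C C1 C2 C3 : Finset V)
    {n y1 y2 κ s₀ W1 W2 : ℕ} (hn : Fintype.card V ≤ n) (h1 : C1.card ≤ y1) (h2 : C2.card ≤ y2)
    (h3 : C3.card ≤ κ) (h12 : Disjoint C1 C2) (h13 : Disjoint C1 C3) (h23 : Disjoint C2 C3)
    (hW1 : (univ.filter fun x => x ∉ C ∧ ∃ v ∈ C1, ¬ G.Adj v x).card ≤ W1)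
    (hW2 : (univ.filter fun x => x ∉ C ∧ s₀ < (C2.filter fun v => ¬ G.Adj v x).card).card ≤ W2) :
    ∃ d : Dat3 n y1 y2 κ s₀ W1 W2,
      ∑ S ∈ (clq G).filter (fun s => s ⊆ C1 ∪ C2 ∪ C3), 2 ^ (cmn G C S).card = Phi3 d := by
  obtain ⟨ε, hinj, hε1, hε2, hε3⟩ := exists_lab3 C1 C2 C3 h1 h2 h3 h12 h13 h23
  -- the labels of the nonneighbours
  let NN : V → Finset (Ix3 y1 y2 κ) := fun x =>
    (univ.filter fun v : {x // x ∈ C1 ∨ x ∈ C2 ∨ x ∈ C3} => ¬ G.Adj v.1 x).image ε
  set U1 : Finset V := univ.filter fun x => x ∉ C ∧ ∃ v ∈ C1, ¬ G.Adj v x with hU1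
  set U2 : Finset V := (univ.filter fun x => x ∉ C ∧
    s₀ < (C2.filter fun v => ¬ G.Adj v x).card) \ U1 with hU2
  set U3 : Finset V := (univ.filter fun x => x ∉ C) \ (U1 ∪ U2) with hU3
  have hW2' : U2.card ≤ W2 := (card_le_card sdiff_subset).trans hW2
  have hU3n : U3.card ≤ n := (card_le_univ _).trans hn
  -- keys
  have hleft : ∀ x, x ∉ C → x ∉ U1 → (NN x).toLeft = ∅ := by
    intro x hxC hx
    rw [Finset.eq_empty_iff_forall_notMem]
    intro i hi
    simp only [NN, mem_toLeft, mem_image, mem_filter, mem_univ, true_and] at hi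
    obtain ⟨v, hv, hvi⟩ := hi
    rcases v.2 with h | h | h
    · apply hx
      rw [hU1, mem_filter]
      exact ⟨mem_univ _, hxC, v.1, h, hv⟩
    · obtain ⟨j, hj⟩ := hε2 v h
      rw [hj] at hvi
      cases hvi
    · obtain ⟨j, hj⟩ := hε3 v h
      rw [hj] at hvi
      cases hvi
  have hcard : ∀ x, x ∉ C → x ∉ U1 → x ∉ U2 → (NN x).toRight.toLeft.card ≤ s₀ := by
    intro x hxC hx hx2
    have h4 : (C2.filter fun v => ¬ G.Adj v x).card ≤ s₀ := by
      by_contra hcon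
      push Not at hcon
      apply hx2
      rw [hU2, Finset.mem_sdiff, mem_filter]
      exact ⟨⟨mem_univ _, hxC, hcon⟩, hx⟩
    refine le_trans ?_ h4
    have h5 : ∀ i ∈ (NN x).toRight.toLeft, ∃ v : V,
        v ∈ (C2.filter fun v => ¬ G.Adj v x) ∧ ∃ h, ε ⟨v, h⟩ = .inr (.inl i) := by
      intro i hi
      simp only [NN, mem_toLeft, mem_toRight, mem_image, mem_filter, mem_univ, true_and] at hi
      obtain ⟨v, hv, hvi⟩ := hi
      rcases v.2 with h | h | h
      · obtain ⟨j, hj⟩ := hε1 v h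
        rw [hj] at hvi
        cases hvi
      · exact ⟨v.1, mem_filter.2 ⟨h, hv⟩, v.2, hvi⟩
      · obtain ⟨j, hj⟩ := hε3 v h
        rw [hj] at hvi
        have := Sum.inr.inj hvi
        cases this
    have : Nonempty V := ⟨x⟩
    choose! f hf using h5
    apply card_le_card_of_injOn f
    · intro i hi
      exact mem_coe.2 (hf i (mem_coe.1 hi)).1
    · intro i hi j hj hij
      obtain ⟨g1, e1⟩ := (hf i (mem_coe.1 hi)).2
      obtain ⟨g2, e2⟩ := (hf j (mem_coe.1 hj)).2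
      have e3 : (⟨f i, g1⟩ : {x // x ∈ C1 ∨ x ∈ C2 ∨ x ∈ C3}) = ⟨f j, g2⟩ := Subtype.ext hij
      rw [e3, e2] at e1
      exact (Sum.inl.inj (Sum.inr.inj e1)).symm
  have hkey : ∀ x, ∃ g : Fin s₀ → Option (Fin y2), (x ∉ C → x ∉ U1 → x ∉ U2 →
      setOf' g = (NN x).toRight.toLeft) := by
    intro x
    by_cases h : (NN x).toRight.toLeft.card ≤ s₀
    · obtain ⟨g, hg⟩ := exists_setOf' _ h
      exact ⟨g, fun _ _ _ => hg⟩
    · exact ⟨fun _ => none, fun a b c => absurd (hcard x a b c) h⟩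
  choose key hkey using hkey
  obtain ⟨g1, hg1⟩ := opt_fun U1 NN hW1
  obtain ⟨g2, hg2⟩ := opt_fun U2 (fun x => (NN x).toRight) hW2'
  obtain ⟨m, hm⟩ := mult_fun U3 (fun x => (key x, (NN x).toRight.toRight)) hU3n
  let E : Finset (Ix3 y1 y2 κ × Ix3 y1 y2 κ) := univ.filter fun p =>
    ∃ u v : {x // x ∈ C1 ∨ x ∈ C2 ∨ x ∈ C3}, ε u = p.1 ∧ ε v = p.2 ∧ (u.1 = v.1 ∨ G.Adj u.1 v.1)
  refine ⟨⟨E, g1, g2, m⟩, ?_⟩
  unfold Phi3
  have hmem : ∀ S : Finset V, S ⊆ C1 ∪ C2 ∪ C3 → ∀ v ∈ S, v ∈ C1 ∨ v ∈ C2 ∨ v ∈ C3 := by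
    intro S hS v hv
    have := hS hv
    rw [mem_union, mem_union, or_assoc] at this
    exact this
  let lab : Finset V → Finset (Ix3 y1 y2 κ) := fun S =>
    (univ.filter fun v : {x // x ∈ C1 ∨ x ∈ C2 ∨ x ∈ C3} => v.1 ∈ S).image ε
  -- membership in `cmn`
  have hcmn : ∀ S : Finset V, S ⊆ C1 ∪ C2 ∪ C3 → ∀ x, x ∈ cmn G C S ↔
      x ∉ C ∧ Disjoint (NN x) (lab S) := by
    intro S hS x
    rw [mem_cmn, Finset.disjoint_left]
    constructor
    · rintro ⟨hxC, hx⟩
      refine ⟨hxC, ?_⟩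
      intro p hp hp2
      simp only [NN, lab, mem_image, mem_filter, mem_univ, true_and] at hp hp2
      obtain ⟨u, hu, rfl⟩ := hp
      obtain ⟨v, hv, hvu⟩ := hp2
      have := hinj hvu
      subst this
      exact hu (hx _ hv)
    · rintro ⟨hxC, hx⟩
      refine ⟨hxC, ?_⟩
      intro v hv
      by_contra hcon
      apply hx (a := ε ⟨v, hmem S hS v hv⟩)
      · exact mem_image_of_mem _ (mem_filter.2 ⟨mem_univ _, hcon⟩)
      · exact mem_image_of_mem _ (mem_filter.2 ⟨mem_univ _, hv⟩)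
  -- exponent identity
  have hexp : ∀ S : Finset V, S ⊆ C1 ∪ C2 ∪ C3 → (cmn G C S).card =
      (univ.filter fun i : Fin W1 => ∃ T, g1 i = some T ∧ Disjoint T (lab S)).card +
      ((univ.filter fun i : Fin W2 => ∃ T, g2 i = some T ∧ Disjoint T (lab S).toRight).card +
        ∑ k ∈ univ.filter (fun k : (Fin s₀ → Option (Fin y2)) × Finset (Fin κ) =>
          Disjoint (setOf' k.1) (lab S).toRight.toLeft ∧ Disjoint k.2 (lab S).toRight.toRight),
          (m k : ℕ)) := by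
    intro S hS
    rw [← hg1 (fun T => Disjoint T (lab S)), ← hg2 (fun T => Disjoint T (lab S).toRight),
      ← hm (fun k => Disjoint (setOf' k.1) (lab S).toRight.toLeft ∧
        Disjoint k.2 (lab S).toRight.toRight)]
    have hd1 : Disjoint (U1.filter fun x => Disjoint (NN x) (lab S))
        (U2.filter fun x => Disjoint (NN x).toRight (lab S).toRight) := by
      apply Disjoint.mono (filter_subset _ _) (filter_subset _ _)
      rw [hU2]
      exact disjoint_sdiff
    have hd2 : Disjoint ((U1.filter fun x => Disjoint (NN x) (lab S)) ∪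
        (U2.filter fun x => Disjoint (NN x).toRight (lab S).toRight))
        (U3.filter fun x => Disjoint (setOf' (key x)) (lab S).toRight.toLeft ∧
          Disjoint (NN x).toRight.toRight (lab S).toRight.toRight) := by
      apply Disjoint.mono (union_subset_union (filter_subset _ _) (filter_subset _ _))
        (filter_subset _ _)
      rw [hU3]
      exact disjoint_sdiff
    rw [← add_assoc, ← card_union_of_disjoint hd1, ← card_union_of_disjoint hd2]
    congr 1
    ext x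
    rw [hcmn S hS x]
    simp only [mem_union, mem_filter]
    by_cases hxC : x ∈ C
    · have a1 : x ∉ U1 := by simp [hU1, hxC]
      have a2 : x ∉ U2 := by simp [hU2, hxC]
      have a3 : x ∉ U3 := by simp [hU3, hxC]
      simp [a1, a2, a3, hxC]
    · by_cases a1 : x ∈ U1
      · have a2 : x ∉ U2 := by rw [hU2]; simp [a1]
        have a3 : x ∉ U3 := by rw [hU3]; simp [a1]
        simp [a1, a2, a3, hxC]
      · have hl := hleft x hxC a1
        by_cases a2 : x ∈ U2
        · have a3 : x ∉ U3 := by rw [hU3]; simp [a2]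
          rw [disjoint_sum_iff, hl]
          simp [a1, a2, a3, hxC]
        · have a3 : x ∈ U3 := by rw [hU3]; simp [a1, a2, hxC]
          rw [disjoint_sum_iff, hl, disjoint_sum_iff (NN x).toRight, hkey x hxC a1 a2]
          simp [a1, a2, a3, hxC]
  apply Finset.sum_bij (fun S _ => lab S)
  · intro S hS
    rw [mem_filter, mem_clq] at hS
    rw [mem_filter]
    refine ⟨mem_univ _, ?_⟩
    intro p hp q hq
    simp only [lab, mem_image, mem_filter, mem_univ, true_and] at hp hq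
    obtain ⟨u, hu, rfl⟩ := hp
    obtain ⟨v, hv, rfl⟩ := hq
    simp only [E, mem_filter, mem_univ, true_and]
    refine ⟨u, v, rfl, rfl, ?_⟩
    by_cases huv : u.1 = v.1
    · exact Or.inl huv
    · exact Or.inr (hS.1 (mem_coe.2 hu) (mem_coe.2 hv) huv)
  · intro S hS S' hS' h
    rw [mem_filter] at hS hS'
    have key : ∀ A B : Finset V, A ⊆ C1 ∪ C2 ∪ C3 → lab A = lab B → A ⊆ B := by
      intro A B hA hAB a ha
      have h5 : ε ⟨a, hmem A hA a ha⟩ ∈ lab B := by
        rw [← hAB]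
        exact mem_image_of_mem _ (mem_filter.2 ⟨mem_univ _, ha⟩)
      simp only [lab, mem_image, mem_filter, mem_univ, true_and] at h5
      obtain ⟨b, hb, hba⟩ := h5
      have := hinj hba
      subst this
      exact hb
    exact Finset.Subset.antisymm (key S S' hS.2 h) (key S' S hS'.2 h.symm)
  · intro T hT
    rw [mem_filter] at hT
    have hT' := hT.2
    simp only [E, mem_filter, mem_univ, true_and] at hT'
    refine ⟨univ.filter (fun v => ∃ h : v ∈ C1 ∨ v ∈ C2 ∨ v ∈ C3, ε ⟨v, h⟩ ∈ T), ?_, ?_⟩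
    · rw [mem_filter, mem_clq]
      refine ⟨?_, ?_⟩
      · intro a ha b hb hab
        rw [mem_coe, mem_filter] at ha hb
        obtain ⟨_, ha1, ha2⟩ := ha
        obtain ⟨_, hb1, hb2⟩ := hb
        obtain ⟨u, v, e1, e2, e3⟩ := hT' _ ha2 _ hb2
        have hua := hinj e1
        have hvb := hinj e2
        subst hua hvb
        rcases e3 with e3 | e3
        · exact absurd e3 hab
        · exact e3
      · intro a ha
        rw [mem_filter] at ha
        obtain ⟨_, ha1, _⟩ := ha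
        rw [mem_union, mem_union, or_assoc]
        exact ha1
    · ext p
      simp only [lab, mem_image, mem_filter, mem_univ, true_and]
      constructor
      · rintro ⟨a, ⟨_, ha⟩, rfl⟩
        exact ha
      · intro hp
        obtain ⟨u, v, e1, _, _⟩ := hT' p hp p hp
        exact ⟨u, ⟨u.2, by rw [e1]; exact hp⟩, e1⟩
  · intro S hS
    rw [mem_filter] at hS
    rw [hexp S hS.2]

open scoped Classical in
theorem lead_values (n y1 y2 κ s₀ W1 W2 : ℕ) : ∃ Φ : Finset ℕ,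
    Φ.card ≤ 2 ^ ((y1 + y2 + κ) ^ 2) * ((2 ^ (y1 + y2 + κ) + 1) ^ W1 *
      ((2 ^ (y2 + κ) + 1) ^ W2 * (n + 1) ^ ((y2 + 1) ^ s₀ * 2 ^ κ))) ∧
    ∀ (G : SimpleGraph (Fin n)) (C C1 C2 C3 : Finset (Fin n)), C1.card ≤ y1 → C2.card ≤ y2 →
      C3.card ≤ κ → Disjoint C1 C2 → Disjoint C1 C3 → Disjoint C2 C3 →
      (univ.filter fun x => x ∉ C ∧ ∃ v ∈ C1, ¬ G.Adj v x).card ≤ W1 →
      (univ.filter fun x => x ∉ C ∧ s₀ < (C2.filter fun v => ¬ G.Adj v x).card).card ≤ W2 →
      ∑ S ∈ (clq G).filter (fun s => s ⊆ C1 ∪ C2 ∪ C3), 2 ^ (cmn G C S).card ∈ Φ := by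
  refine ⟨univ.image (Phi3 : Dat3 n y1 y2 κ s₀ W1 W2 → ℕ), ?_, ?_⟩
  · refine card_image_le.trans ?_
    rw [card_univ, card_Dat3, ← add_assoc, ← sq]
  · intro G C C1 C2 C3 h1 h2 h3 h12 h13 h23 hW1 hW2
    obtain ⟨d, hd⟩ := lead_mem_range3 (n := n) (y1 := y1) (y2 := y2) (κ := κ) (s₀ := s₀)
      (W1 := W1) (W2 := W2) G C C1 C2 C3 (by simp) h1 h2 h3 h12 h13 h23
      (by convert hW1) (by convert hW2)
    rw [mem_image]
    refine ⟨d, mem_univ _, ?_⟩
    rw [← hd]
    refine sum_congr ?_ (fun S _ => ?_)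
    · ext s
      simp only [mem_filter, Finset.subset_iff, mem_union]
    · congr
      exact Subsingleton.elim _ _

end Pool.Agent.CliqueSharp
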