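import Pool.Agent.CliqueCount.NatMain

set_option autoImplicit false

open Finset
open Pool.Agent.CliqueCount (clq mem_clq vals cmn mem_cmn dd lev card_clq_cover cover_or_small
  nIn_univ)

namespace Pool.Agent.CliqueSharp

section

variable {n : ℕ} (G : SimpleGraph (Fin n)) (C : Finset (Fin n))

lemma exists_nn (v : Fin n) : ∃ D : Finset (Fin n), dd G C v = D.card ∧
    ∀ x, x ∈ D ↔ x ∉ C ∧ ¬ G.Adj v x := by
  classical
  refine ⟨univ.filter fun x => x ∉ C ∧ ¬ G.Adj v x, ?_, by simp⟩
  unfold dd
  congr!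

lemma mem_lev {θ : ℕ} {v : Fin n} : v ∈ lev G C θ ↔ v ∈ C ∧ dd G C v ≤ θ := by
  unfold lev
  rw [mem_filter]

lemma lev_mono {a b : ℕ} (h : a ≤ b) : lev G C a ⊆ lev G C b := by
  intro v hv
  rw [mem_lev] at hv ⊢
  exact ⟨hv.1, hv.2.trans h⟩

lemma cmn_add (S : Finset (Fin n)) {v : Fin n} (hv : v ∈ S) :
    (cmn G C S).card + dd G C v + C.card ≤ n := by
  obtain ⟨D, hD1, hD2⟩ := exists_nn G C v
  have h1 : Disjoint (cmn G C S) D := by
    rw [Finset.disjoint_left]
    intro x hx hx2
    rw [mem_cmn] at hx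
    exact ((hD2 x).1 hx2).2 (hx.2 v hv)
  have h2 : Disjoint (cmn G C S ∪ D) C := by
    rw [Finset.disjoint_left]
    intro x hx hx2
    rw [mem_union, mem_cmn, hD2] at hx
    rcases hx with hx | hx
    · exact hx.1 hx2
    · exact hx.1 hx2
  rw [hD1, ← Finset.card_union_of_disjoint h1, ← Finset.card_union_of_disjoint h2]
  refine (Finset.card_le_univ _).trans ?_
  rw [Fintype.card_fin]

lemma cmn_add_card (S : Finset (Fin n)) : (cmn G C S).card + C.card ≤ n := by
  have h2 : Disjoint (cmn G C S) C := by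
    rw [Finset.disjoint_left]
    intro x hx hx2
    rw [mem_cmn] at hx
    exact hx.1 hx2
  rw [← Finset.card_union_of_disjoint h2]
  refine (Finset.card_le_univ _).trans ?_
  rw [Fintype.card_fin]

lemma clq_le {ν : ℕ} (hC : ∀ x, x ∉ C → ∀ y, y ∉ C → x ≠ y → G.Adj x y)
    (hC2 : C.card ≤ 2 * ν) (B : Finset (Fin n)) (hBC : B ⊆ C)
    (hB : ∀ v ∈ B, 2 * ν + 2 ≤ dd G C v) :
    (clq G).card ≤ 2 ^ (n - B.card) + 2 ^ (n - B.card - 2) := by
  classical
  have hBC' := Finset.card_le_card hBC
  have hCn : C.card ≤ n := by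
    refine (Finset.card_le_univ _).trans ?_
    rw [Fintype.card_fin]
  rw [card_clq_cover G C hC]
  rw [← Finset.sum_filter_add_sum_filter_not ((clq G).filter (fun s => s ⊆ C))
      (fun s => Disjoint s B)]
  apply Nat.add_le_add
  · have h1 : ∀ S ∈ ((clq G).filter (fun s => s ⊆ C)).filter (fun s => Disjoint s B),
        2 ^ (cmn G C S).card ≤ 2 ^ (n - C.card) := by
      intro S _
      apply Nat.pow_le_pow_right (by norm_num)
      have := cmn_add_card G C S
      omega
    have h2 : (((clq G).filter (fun s => s ⊆ C)).filter (fun s => Disjoint s B)).card ≤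
        2 ^ (C.card - B.card) := by
      calc _ ≤ ((C \ B).powerset).card := by
            apply Finset.card_le_card
            intro s hs
            rw [mem_filter, mem_filter] at hs
            rw [mem_powerset, Finset.subset_sdiff]
            exact ⟨hs.1.2, hs.2⟩
        _ = 2 ^ (C.card - B.card) := by
            rw [Finset.card_powerset, Finset.card_sdiff_of_subset hBC]
    calc _ ≤ ∑ S ∈ ((clq G).filter (fun s => s ⊆ C)).filter (fun s => Disjoint s B),
          2 ^ (n - C.card) := Finset.sum_le_sum h1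
      _ = (((clq G).filter (fun s => s ⊆ C)).filter (fun s => Disjoint s B)).card *
          2 ^ (n - C.card) := by simp
      _ ≤ 2 ^ (C.card - B.card) * 2 ^ (n - C.card) := Nat.mul_le_mul_right _ h2
      _ = 2 ^ (n - B.card) := by
          rw [← pow_add]
          congr 1
          omega
  · rcases (((clq G).filter (fun s => s ⊆ C)).filter (fun s => ¬ Disjoint s B)).eq_empty_or_nonempty
      with h | ⟨S₀, hS₀⟩
    · rw [h]
      simp
    · have key : ∀ S ∈ ((clq G).filter (fun s => s ⊆ C)).filter (fun s => ¬ Disjoint s B),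
          (cmn G C S).card + (B.card + 2) + C.card ≤ n := by
        intro S hS
        rw [mem_filter, Finset.not_disjoint_iff] at hS
        obtain ⟨_, v, hv, hvB⟩ := hS
        have h1 := cmn_add G C S hv
        have h2 := hB v hvB
        omega
      have h0 := key S₀ hS₀
      have h1 : ∀ S ∈ ((clq G).filter (fun s => s ⊆ C)).filter (fun s => ¬ Disjoint s B),
          2 ^ (cmn G C S).card ≤ 2 ^ (n - C.card - (B.card + 2)) := by
        intro S hS
        apply Nat.pow_le_pow_right (by norm_num)
        have := key S hS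
        omega
      have h2 : (((clq G).filter (fun s => s ⊆ C)).filter (fun s => ¬ Disjoint s B)).card ≤
          2 ^ C.card := by
        calc _ ≤ (C.powerset).card := by
              apply Finset.card_le_card
              intro s hs
              rw [mem_filter, mem_filter] at hs
              rw [mem_powerset]
              exact hs.1.2
          _ = 2 ^ C.card := Finset.card_powerset _
      calc _ ≤ ∑ S ∈ ((clq G).filter (fun s => s ⊆ C)).filter (fun s => ¬ Disjoint s B),
            2 ^ (n - C.card - (B.card + 2)) := Finset.sum_le_sum h1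
        _ = (((clq G).filter (fun s => s ⊆ C)).filter (fun s => ¬ Disjoint s B)).card *
            2 ^ (n - C.card - (B.card + 2)) := by simp
        _ ≤ 2 ^ C.card * 2 ^ (n - C.card - (B.card + 2)) := Nat.mul_le_mul_right _ h2
        _ = 2 ^ (n - B.card - 2) := by
            rw [← pow_add]
            congr 1
            omega

end

open scoped Classical in
theorem window3 {n ν x ρ m j₀ J y2 s₀ : ℕ} (κ : ℕ → ℕ) (hκ : Monotone κ) (hm : 1 ≤ m)
    (hmj : m ≤ j₀ + 1) (hθ : 2 * ν + 1 ≤ 2 ^ (ρ * j₀))
    (hsum : x + (2 * m * ν / (y2 + 1)) * (κ J + 1) < ∑ j ∈ Ioc j₀ J, (κ j + 1))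
    (G : SimpleGraph (Fin n)) (hbig : 3 ^ ν * 2 ^ n < (clq G).card * 4 ^ ν)
    (hx : 2 ^ (n - x) ≤ (clq G).card) (hxn : x ≤ n) :
    ∃ j ∈ Ioc j₀ J, ∃ C C1 C2 C3 : Finset (Fin n), C1.card ≤ 2 * ν ∧ C2.card ≤ y2 ∧
      C3.card ≤ κ j ∧ Disjoint C1 C2 ∧ Disjoint C1 C3 ∧ Disjoint C2 C3 ∧
      (univ.filter fun x => x ∉ C ∧ ∃ v ∈ C1, ¬ G.Adj v x).card ≤ 2 * ν * 2 ^ (ρ * (j - m)) ∧
      (univ.filter fun x => x ∉ C ∧ s₀ < (C2.filter fun v => ¬ G.Adj v x).card).card ≤
        y2 * 2 ^ (ρ * (j - 1)) / (s₀ + 1) ∧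
      ∃ r ≤ 2 ^ (2 * ν + (n - 2 ^ (ρ * j))), (clq G).card =
        ∑ S ∈ (clq G).filter (fun s => s ⊆ C1 ∪ C2 ∪ C3), 2 ^ (cmn G C S).card + r := by
  rcases cover_or_small G ν univ with ⟨C, -, hC2, hC3⟩ | h
  swap
  · rw [nIn_univ, Finset.card_univ, Fintype.card_fin] at h
    omega
  have hC : ∀ x, x ∉ C → ∀ y, y ∉ C → x ≠ y → G.Adj x y :=
    fun x hx y hy h => hC3 x (mem_univ _) hx y (mem_univ _) hy h
  set θ : ℕ → ℕ := fun i => 2 ^ (ρ * i) with hθdef
  have hθm : Monotone θ := fun a b hab =>
    Nat.pow_le_pow_right (by norm_num) (Nat.mul_le_mul_left _ hab)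
  let A1 : ℕ → Finset (Fin n) := fun j => lev G C (θ (j - m))
  let A2 : ℕ → Finset (Fin n) := fun j => lev G C (θ (j - 1)) \ lev G C (θ (j - m))
  let A3 : ℕ → Finset (Fin n) := fun j => lev G C (θ j) \ lev G C (θ (j - 1))
  have hm2 : ∀ j v, v ∈ A2 j ↔ v ∈ C ∧ dd G C v ≤ θ (j - 1) ∧ θ (j - m) < dd G C v := by
    intro j v
    simp only [A2, mem_sdiff, mem_lev, not_and, not_le]
    constructor
    · rintro ⟨⟨h1, h2⟩, h3⟩; exact ⟨h1, h2, h3 h1⟩
    · rintro ⟨h1, h2, h3⟩; exact ⟨⟨h1, h2⟩, fun _ => h3⟩
  have hm3 : ∀ j v, v ∈ A3 j ↔ v ∈ C ∧ dd G C v ≤ θ j ∧ θ (j - 1) < dd G C v := by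
    intro j v
    simp only [A3, mem_sdiff, mem_lev, not_and, not_le]
    constructor
    · rintro ⟨⟨h1, h2⟩, h3⟩; exact ⟨h1, h2, h3 h1⟩
    · rintro ⟨h1, h2, h3⟩; exact ⟨⟨h1, h2⟩, fun _ => h3⟩
  -- pigeonhole
  have hpig : ∃ j ∈ Ioc j₀ J, (A2 j).card ≤ y2 ∧ (A3 j).card ≤ κ j := by
    by_contra hcon
    push Not at hcon
    set T := (Ioc j₀ J).filter fun j => y2 < (A2 j).card with hT
    -- each vertex is in at most `m` of the `A2 j`
    have hmult : ∑ j ∈ Ioc j₀ J, (A2 j).card ≤ m * (2 * ν) := by
      have e1 : ∀ j ∈ Ioc j₀ J, (A2 j).card = ∑ v ∈ C, if v ∈ A2 j then 1 else 0 := by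
        intro j _
        rw [Finset.sum_ite_mem, Finset.sum_const, smul_eq_mul, mul_one]
        congr 1
        ext v
        rw [mem_inter]
        constructor
        · intro hv; exact ⟨((hm2 j v).1 hv).1, hv⟩
        · exact fun hv => hv.2
      rw [Finset.sum_congr rfl e1, Finset.sum_comm]
      calc ∑ v ∈ C, ∑ j ∈ Ioc j₀ J, (if v ∈ A2 j then 1 else 0) ≤ ∑ v ∈ C, m := by
            apply Finset.sum_le_sum
            intro v _
            rw [← Finset.card_filter]
            by_cases hex : ∃ i, dd G C v ≤ θ i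
            · have hfind := Nat.find_spec hex
              have hmin : ∀ i, dd G C v ≤ θ i → Nat.find hex ≤ i := fun i hi => Nat.find_min' hex hi
              calc _ ≤ (Ico (Nat.find hex + 1) (Nat.find hex + 1 + m)).card := by
                    apply Finset.card_le_card
                    intro j hj
                    rw [mem_filter, mem_Ioc, hm2] at hj
                    obtain ⟨⟨hj1, hj2⟩, -, hj3, hj4⟩ := hj
                    have h1 := hmin _ hj3
                    have h2 : j - m < Nat.find hex := by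
                      by_contra hc
                      push Not at hc
                      have := hθm hc
                      omega
                    rw [mem_Ico]
                    omega
                _ = m := by rw [Nat.card_Ico]; omega
            · have : (filter (fun j => v ∈ A2 j) (Ioc j₀ J)) = ∅ := by
                rw [Finset.filter_eq_empty_iff]
                intro j _ hj
                exact hex ⟨_, ((hm2 j v).1 hj).2.1⟩
              rw [this]
              simp
        _ = C.card * m := by simp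
        _ ≤ m * (2 * ν) := by
            rw [mul_comm]
            exact Nat.mul_le_mul_left _ hC2
    have hTcard : T.card ≤ 2 * m * ν / (y2 + 1) := by
      rw [Nat.le_div_iff_mul_le (by omega)]
      calc T.card * (y2 + 1) = ∑ j ∈ T, (y2 + 1) := by simp
        _ ≤ ∑ j ∈ T, (A2 j).card := by
            apply Finset.sum_le_sum
            intro j hj
            rw [hT, mem_filter] at hj
            omega
        _ ≤ ∑ j ∈ Ioc j₀ J, (A2 j).card :=
            Finset.sum_le_sum_of_subset (Finset.filter_subset _ _)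
        _ ≤ m * (2 * ν) := hmult
        _ = 2 * m * ν := by ring
    have hsumT : ∑ j ∈ T, (κ j + 1) ≤ (2 * m * ν / (y2 + 1)) * (κ J + 1) := by
      calc ∑ j ∈ T, (κ j + 1) ≤ ∑ j ∈ T, (κ J + 1) := by
            apply Finset.sum_le_sum
            intro j hj
            rw [hT, mem_filter, mem_Ioc] at hj
            have := hκ hj.1.2
            omega
        _ = T.card * (κ J + 1) := by simp
        _ ≤ _ := Nat.mul_le_mul_right _ hTcard
    have hsum3 : x < ∑ j ∈ Ioc j₀ J, (A3 j).card := by
      have h1 : ∑ j ∈ (Ioc j₀ J).filter (fun j => ¬ y2 < (A2 j).card), (κ j + 1) ≤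
          ∑ j ∈ Ioc j₀ J, (A3 j).card := by
        calc _ ≤ ∑ j ∈ (Ioc j₀ J).filter (fun j => ¬ y2 < (A2 j).card), (A3 j).card := by
              apply Finset.sum_le_sum
              intro j hj
              rw [mem_filter] at hj
              have := hcon j hj.1 (by omega)
              omega
          _ ≤ _ := Finset.sum_le_sum_of_subset (Finset.filter_subset _ _)
      have h2 := Finset.sum_filter_add_sum_filter_not (Ioc j₀ J) (fun j => y2 < (A2 j).card)
        (fun j => κ j + 1)
      rw [← hT] at h2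
      omega
    set B := C.filter fun v => θ j₀ < dd G C v with hB
    have hBcard : x + 1 ≤ B.card := by
      have h1 : ((Ioc j₀ J).biUnion A3).card = ∑ j ∈ Ioc j₀ J, (A3 j).card := by
        apply Finset.card_biUnion
        intro i _ j _ hij
        show Disjoint (A3 i) (A3 j)
        rw [Finset.disjoint_left]
        intro v hv hv2
        rw [hm3] at hv hv2
        rcases lt_or_gt_of_ne hij with h | h
        · have := hθm (show i ≤ j - 1 by omega)
          omega
        · have := hθm (show j ≤ i - 1 by omega)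
          omega
      have h2 : (Ioc j₀ J).biUnion A3 ⊆ B := by
        intro v hv
        rw [mem_biUnion] at hv
        obtain ⟨j, hj, hv⟩ := hv
        rw [hm3] at hv
        rw [mem_Ioc] at hj
        rw [hB, mem_filter]
        have := hθm (show j₀ ≤ j - 1 by omega)
        exact ⟨hv.1, by omega⟩
      have h3 := Finset.card_le_card h2
      omega
    have hBC : B ⊆ C := Finset.filter_subset _ _
    have hlast := clq_le G C hC hC2 B hBC (by
      intro v hv
      rw [hB, mem_filter] at hv
      have : θ j₀ = 2 ^ (ρ * j₀) := rfl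
      omega)
    have hBn : B.card ≤ n := by
      refine (Finset.card_le_univ _).trans ?_
      rw [Fintype.card_fin]
    have hBn2 : B.card + 2 ≤ n := by
      -- some vertex of `B` has at least `2 ν + 2` non-neighbours outside `C`
      have hne : B.Nonempty := Finset.card_pos.1 (by omega)
      obtain ⟨v, hv⟩ := hne
      have h1 := cmn_add G C {v} (mem_singleton_self v)
      rw [hB, mem_filter] at hv
      have : θ j₀ = 2 ^ (ρ * j₀) := rfl
      have := Finset.card_le_card hBC
      omega
    have h4 : 2 ^ (n - B.card - 2) < 2 ^ (n - B.card) :=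
      Nat.pow_lt_pow_right (by norm_num) (by omega)
    have h5 : 2 * 2 ^ (n - B.card) ≤ 2 ^ (n - x) := by
      rw [← pow_succ']
      exact Nat.pow_le_pow_right (by norm_num) (by omega)
    omega
  obtain ⟨j, hj, hj2, hj3⟩ := hpig
  rw [mem_Ioc] at hj
  have hU : A1 j ∪ A2 j ∪ A3 j = lev G C (θ j) := by
    ext v
    have h0 : v ∈ lev G C (θ j) ↔ v ∈ C ∧ dd G C v ≤ θ j := mem_lev G C
    have h1 := hθm (show j - 1 ≤ j by omega)
    have h2 := hθm (show j - m ≤ j - 1 by omega)
    have h3 : v ∈ A1 j ↔ v ∈ C ∧ dd G C v ≤ θ (j - m) := mem_lev G C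
    rw [mem_union, mem_union, hm2, hm3, h0, h3]
    constructor
    · rintro ((⟨h, h'⟩ | ⟨h, h', _⟩) | ⟨h, h', _⟩)
      · exact ⟨h, by omega⟩
      · exact ⟨h, by omega⟩
      · exact ⟨h, h'⟩
    · rintro ⟨h, h'⟩
      by_cases c1 : dd G C v ≤ θ (j - m)
      · exact Or.inl (Or.inl ⟨h, c1⟩)
      · by_cases c2 : dd G C v ≤ θ (j - 1)
        · exact Or.inl (Or.inr ⟨h, c2, by omega⟩)
        · exact Or.inr ⟨h, h', by omega⟩
  refine ⟨j, mem_Ioc.2 hj, C, A1 j, A2 j, A3 j, (Finset.card_filter_le _ _).trans hC2, hj2, hj3,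
    ?_, ?_, ?_, ?_, ?_, ?_⟩
  · exact Finset.disjoint_sdiff
  · rw [Finset.disjoint_left]
    intro v hv hv2
    rw [hm3] at hv2
    have h3 := ((mem_lev G C).1 hv).2
    have h2 := hθm (show j - m ≤ j - 1 by omega)
    omega
  · rw [Finset.disjoint_left]
    intro v hv hv2
    rw [hm3] at hv2
    rw [hm2] at hv
    omega
  · have h1 : (univ.filter fun x => x ∉ C ∧ ∃ v ∈ A1 j, ¬ G.Adj v x) ⊆
        (A1 j).biUnion fun v => univ.filter fun x => x ∉ C ∧ ¬ G.Adj v x := by
      intro x hx
      rw [mem_filter] at hx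
      obtain ⟨_, h1, v, hv, h2⟩ := hx
      rw [mem_biUnion]
      exact ⟨v, hv, by simp [h1, h2]⟩
    calc _ ≤ _ := Finset.card_le_card h1
      _ ≤ ∑ v ∈ A1 j, (univ.filter fun x => x ∉ C ∧ ¬ G.Adj v x).card := Finset.card_biUnion_le
      _ ≤ ∑ v ∈ A1 j, θ (j - m) := by
        apply Finset.sum_le_sum
        intro v hv
        have := ((mem_lev G C).1 hv).2
        unfold dd at this
        refine le_trans (le_of_eq ?_) this
        congr!
      _ = (A1 j).card * θ (j - m) := by simp
      _ ≤ 2 * ν * 2 ^ (ρ * (j - m)) :=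
        Nat.mul_le_mul_right _ ((Finset.card_filter_le _ _).trans hC2)
  · rw [Nat.le_div_iff_mul_le (by omega)]
    set X := univ.filter fun x => x ∉ C ∧ s₀ < ((A2 j).filter fun v => ¬ G.Adj v x).card with hX
    calc X.card * (s₀ + 1) = ∑ x ∈ X, (s₀ + 1) := by simp
      _ ≤ ∑ x ∈ X, ((A2 j).filter fun v => ¬ G.Adj v x).card := by
        apply Finset.sum_le_sum
        intro x hx
        rw [hX, mem_filter] at hx
        omega
      _ = ∑ v ∈ A2 j, (X.filter fun x => ¬ G.Adj v x).card := by
        simp only [Finset.card_filter]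
        exact Finset.sum_comm
      _ ≤ ∑ v ∈ A2 j, θ (j - 1) := by
        apply Finset.sum_le_sum
        intro v hv
        have h1 := ((hm2 j v).1 hv).2.1
        obtain ⟨D, hD1, hD2⟩ := exists_nn G C v
        rw [hD1] at h1
        refine le_trans (Finset.card_le_card ?_) h1
        intro x hx
        rw [hX, mem_filter, mem_filter] at hx
        rw [hD2]
        exact ⟨hx.1.2.1, hx.2⟩
      _ = (A2 j).card * θ (j - 1) := by simp
      _ ≤ y2 * 2 ^ (ρ * (j - 1)) := Nat.mul_le_mul_right _ hj2
  · rw [hU]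
    refine ⟨∑ S ∈ ((clq G).filter (fun s => s ⊆ C)).filter (fun s => ¬ (s ⊆ lev G C (θ j))),
      2 ^ (cmn G C S).card, ?_, ?_⟩
    · have hb : ∀ S ∈ ((clq G).filter (fun s => s ⊆ C)).filter (fun s => ¬ (s ⊆ lev G C (θ j))),
          2 ^ (cmn G C S).card ≤ 2 ^ (n - θ j) := by
        intro S hS
        rw [mem_filter, mem_filter] at hS
        apply Nat.pow_le_pow_right (by norm_num)
        rw [Finset.not_subset] at hS
        obtain ⟨⟨_, hSC⟩, v, hv, hv2⟩ := hS
        rw [mem_lev] at hv2
        have h1 : θ j < dd G C v := by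
          by_contra hcon
          push Not at hcon
          exact hv2 ⟨hSC hv, hcon⟩
        have h2 := cmn_add G C S hv
        omega
      calc _ ≤ ∑ S ∈ ((clq G).filter (fun s => s ⊆ C)).filter
            (fun s => ¬ (s ⊆ lev G C (θ j))), 2 ^ (n - θ j) := Finset.sum_le_sum hb
        _ = (((clq G).filter (fun s => s ⊆ C)).filter (fun s => ¬ (s ⊆ lev G C (θ j)))).card *
            2 ^ (n - θ j) := by simp
        _ ≤ 2 ^ (2 * ν) * 2 ^ (n - θ j) := by
          apply Nat.mul_le_mul_right
          calc _ ≤ (C.powerset).card := by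
                apply Finset.card_le_card
                intro s hs
                rw [mem_filter, mem_filter] at hs
                rw [mem_powerset]
                exact hs.1.2
            _ = 2 ^ C.card := Finset.card_powerset _
            _ ≤ 2 ^ (2 * ν) := Nat.pow_le_pow_right (by norm_num) hC2
        _ = 2 ^ (2 * ν + (n - 2 ^ (ρ * j))) := by rw [pow_add]
    · rw [card_clq_cover G C hC]
      rw [← Finset.sum_filter_add_sum_filter_not ((clq G).filter (fun s => s ⊆ C))
        (fun s => s ⊆ lev G C (θ j))]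
      congr 1
      apply Finset.sum_congr _ (fun _ _ => rfl)
      ext s
      simp only [mem_filter]
      constructor
      · rintro ⟨⟨h1, h2⟩, h3⟩; exact ⟨h1, h3⟩
      · rintro ⟨h1, h3⟩
        exact ⟨⟨h1, fun v hv => ((mem_lev G C).1 (h3 hv)).1⟩, h3⟩

end Pool.Agent.CliqueSharp
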