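import Pool.Agent.CliqueCount.NatMain
import Pool.Agent.CliqueSharp.Defs
import Pool.Agent.CliqueSharp.Lead
import Pool.Agent.CliqueSharp.Window

set_option autoImplicit false

open Finset Filter
open Pool.Agent.CliqueCount (clq mem_clq vals cmn dd lev Attain Reach attain_add attain_single
  attain_graph exists_graph lower_small card_clq_cover cover_or_small reach_zero)

namespace Pool.Agent.CliqueSharp

lemma three_pow_lt {ν x : ℕ} (hν : 3 * x + 3 ≤ ν) : 3 ^ ν * 2 ^ x < 4 ^ ν := by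
  obtain ⟨t, rfl⟩ := Nat.exists_eq_add_of_le hν
  have h1 : (3 : ℕ) ^ (3 * x + 3) * 2 ^ x < 4 ^ (3 * x + 3) := by
    have e1 : (3 : ℕ) ^ (3 * x + 3) = 27 ^ (x + 1) := by
      rw [show 3 * x + 3 = 3 * (x + 1) by ring, pow_mul]; norm_num
    have e2 : (4 : ℕ) ^ (3 * x + 3) = 64 ^ (x + 1) := by
      rw [show 3 * x + 3 = 3 * (x + 1) by ring, pow_mul]; norm_num
    rw [e1, e2]
    calc 27 ^ (x + 1) * 2 ^ x < 27 ^ (x + 1) * 2 ^ (x + 1) := by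
          apply Nat.mul_lt_mul_of_pos_left
          · exact Nat.pow_lt_pow_right (by norm_num) (by omega)
          · positivity
      _ = 54 ^ (x + 1) := by rw [← mul_pow]; norm_num
      _ ≤ 64 ^ (x + 1) := Nat.pow_le_pow_left (by norm_num) _
  have h2 : (3 : ℕ) ^ t ≤ 4 ^ t := Nat.pow_le_pow_left (by norm_num) _
  calc 3 ^ (3 * x + 3 + t) * 2 ^ x = (3 ^ (3 * x + 3) * 2 ^ x) * 3 ^ t := by rw [pow_add]; ring
    _ ≤ (3 ^ (3 * x + 3) * 2 ^ x) * 4 ^ t := Nat.mul_le_mul_left _ h2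
    _ < 4 ^ (3 * x + 3) * 4 ^ t := Nat.mul_lt_mul_of_pos_right h1 (by positivity)
    _ = 4 ^ (3 * x + 3 + t) := by rw [← pow_add]

/-- (derived) -/
theorem count_le {n ν x ρ m j₀ J y2 s₀ : ℕ} (κ : ℕ → ℕ) (hκ : Monotone κ) (hm : 1 ≤ m)
    (hmj : m ≤ j₀ + 1) (hθ : 2 * ν + 1 ≤ 2 ^ (ρ * j₀)) (hν : 3 * x + 3 ≤ ν)
    (hsum : x + (2 * m * ν / (y2 + 1)) * (κ J + 1) < ∑ j ∈ Ioc j₀ J, (κ j + 1)) (hxn : x ≤ n) :
    {N ∈ vals n | 2 ^ (n - x) ≤ N}.ncard ≤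
      ∑ j ∈ Ioc j₀ J, bnd n ν ρ m y2 s₀ (κ j) j * (2 ^ (2 * ν + (n - 2 ^ (ρ * j))) + 1) := by
  classical
  choose Φ hΦ1 hΦ2 using fun j => lead_values n (2 * ν) y2 (κ j) s₀ (2 * ν * 2 ^ (ρ * (j - m)))
    (y2 * 2 ^ (ρ * (j - 1)) / (s₀ + 1))
  let B : ℕ → Finset ℕ := fun j =>
    (Φ j ×ˢ range (2 ^ (2 * ν + (n - 2 ^ (ρ * j))) + 1)).image (fun p => p.1 + p.2)
  have hsub : {N ∈ vals n | 2 ^ (n - x) ≤ N} ⊆ (((Ioc j₀ J).biUnion B : Finset ℕ) : Set ℕ) := by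
    rintro N ⟨⟨G, rfl⟩, hN⟩
    have hbig : 3 ^ ν * 2 ^ n < (clq G).card * 4 ^ ν := by
      calc 3 ^ ν * 2 ^ n = 2 ^ (n - x) * (3 ^ ν * 2 ^ x) := by
            have : (2 : ℕ) ^ n = 2 ^ (n - x) * 2 ^ x := by rw [← pow_add]; congr 1; omega
            rw [this]; ring
        _ < 2 ^ (n - x) * 4 ^ ν := Nat.mul_lt_mul_of_pos_left (three_pow_lt hν) (by positivity)
        _ ≤ (clq G).card * 4 ^ ν := Nat.mul_le_mul_right _ hN
    obtain ⟨j, hj, C, C1, C2, C3, h1, h2, h3, h12, h13, h23, hW1, hW2, r, hr, he⟩ :=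
      window3 (s₀ := s₀) κ hκ hm hmj hθ hsum G hbig hN hxn
    rw [mem_coe, mem_biUnion]
    refine ⟨j, hj, ?_⟩
    simp only [B, mem_image, mem_product]
    refine ⟨(_, r), ⟨?_, mem_range.2 (Nat.lt_succ_of_le hr)⟩, he.symm⟩
    exact hΦ2 j G C C1 C2 C3 h1 h2 h3 h12 h13 h23 hW1 hW2
  calc {N ∈ vals n | 2 ^ (n - x) ≤ N}.ncard
      ≤ (((Ioc j₀ J).biUnion B : Finset ℕ) : Set ℕ).ncard :=
        Set.ncard_le_ncard hsub (Finset.finite_toSet _)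
    _ = ((Ioc j₀ J).biUnion B).card := Set.ncard_coe_finset _
    _ ≤ ∑ j ∈ Ioc j₀ J, (B j).card := Finset.card_biUnion_le
    _ ≤ _ := by
      apply Finset.sum_le_sum
      intro j _
      refine Finset.card_image_le.trans ?_
      rw [card_product, card_range]
      exact Nat.mul_le_mul_right _ (hΦ1 j)

end Pool.Agent.CliqueSharp
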