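import Mathlib

set_option autoImplicit false

open Finset

namespace Pool.Agent.CliqueSharp

/-- A code: the digits `0, …, c - 1` are the `h`-subsets of a block of `b` selectors. -/
structure Code (b c h : ℕ) where
  /-- the subset of a digit -/
  dg : Fin c → Finset (Fin b)
  inj : Function.Injective dg
  card_dg : ∀ k, (dg k).card = h
  surj : ∀ E : Finset (Fin b), E.card = h → ∃ k, dg k = E

variable {b c h : ℕ} (D : Code b c h)

open scoped Classical in
/-- contribution of level `l` of the ramp to the exponent -/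
noncomputable def ramp (l : ℕ) (E : Finset (Fin b)) : ℕ :=
  c ^ l * (∑ k : Fin c, if E ⊆ D.dg k then (k : ℕ) else 0) +
    c ^ (l + 1) * (univ.filter fun U : Finset (Fin b) => U.card < h ∧ E ⊆ U).card

open scoped Classical in
/-- number of toggles in `I` which are compatible with the partial word `σ` -/
noncomputable def tog {r : ℕ} (I : (Fin r → Fin c) → Prop) (σ : Fin r → Finset (Fin b)) : ℕ :=
  (univ.filter fun β : Fin r → Fin c => I β ∧ ∀ l, σ l ⊆ D.dg (β l)).card

/-- total weight of the cliques through one encoding vertex -/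
noncomputable def T (r s : ℕ) (I : (Fin r → Fin c) → Prop) : ℕ :=
  ∑ σ : Fin r → Finset (Fin b), 2 ^ (s + ∑ l : Fin r, ramp D l (σ l) + tog D I σ)

lemma sum_snoc {r : ℕ} (f : (Fin (r + 1) → Finset (Fin b)) → ℕ) :
    ∑ σ, f σ = ∑ o : Finset (Fin b), ∑ σ : Fin r → Finset (Fin b), f (Fin.snoc σ o) := by
  rw [← (Fin.snocEquiv (fun _ : Fin (r + 1) => Finset (Fin b))).sum_comp, Fintype.sum_prod_type]
  rfl

lemma ramp_dg (l : ℕ) (k : Fin c) : ramp D l (D.dg k) = c ^ l * k := by
  classical
  unfold ramp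
  have h1 : (∑ k' : Fin c, if D.dg k ⊆ D.dg k' then (k' : ℕ) else 0) = k := by
    rw [Finset.sum_eq_single k]
    · simp
    · intro k' _ hne
      rw [if_neg]
      intro hsub
      apply hne
      apply D.inj
      exact (Finset.eq_of_subset_of_card_le hsub (by rw [D.card_dg, D.card_dg])).symm
    · intro hk
      exact absurd (Finset.mem_univ k) hk
  have h2 : (univ.filter fun U : Finset (Fin b) => U.card < h ∧ D.dg k ⊆ U).card = 0 := by
    rw [Finset.card_eq_zero, Finset.filter_eq_empty_iff]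
    rintro U _ ⟨h3, h4⟩
    have := Finset.card_le_card h4
    rw [D.card_dg] at this
    omega
  rw [h1, h2]
  simp

lemma le_ramp (l : ℕ) (E : Finset (Fin b)) (hE : E.card < h) : c ^ (l + 1) ≤ ramp D l E := by
  classical
  unfold ramp
  have : 1 ≤ (univ.filter fun U : Finset (Fin b) => U.card < h ∧ E ⊆ U).card := by
    rw [Nat.one_le_iff_ne_zero, Finset.card_ne_zero]
    exact ⟨E, by simp [hE]⟩
  calc c ^ (l + 1) = c ^ (l + 1) * 1 := by ring
    _ ≤ c ^ (l + 1) * _ := Nat.mul_le_mul_left _ this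
    _ ≤ _ := Nat.le_add_left _ _

lemma tog_snoc {r : ℕ} (I : (Fin (r + 1) → Fin c) → Prop) (σ : Fin r → Finset (Fin b))
    (k : Fin c) :
    tog D I (Fin.snoc σ (D.dg k) : Fin (r + 1) → Finset (Fin b)) =
      tog D (fun β => I (Fin.snoc β k)) σ := by
  classical
  unfold tog
  symm
  apply Finset.card_nbij (fun β => (Fin.snoc β k : Fin (r + 1) → Fin c))
  · intro β hβ
    simp only [mem_coe, mem_filter, mem_univ, true_and] at hβ ⊢
    refine ⟨hβ.1, ?_⟩
    intro l
    refine Fin.lastCases ?_ (fun i => ?_) l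
    · simp
    · simpa using hβ.2 i
  · intro β _ β' _ h
    have := congrArg (fun f => Fin.init f) h
    simpa using this
  · intro β hβ
    simp only [mem_coe, mem_filter, mem_univ, true_and] at hβ
    have hlast : β (Fin.last r) = k := by
      have h1 := hβ.2 (Fin.last r)
      simp only [Fin.snoc_last] at h1
      apply D.inj
      exact (Finset.eq_of_subset_of_card_le h1 (by rw [D.card_dg, D.card_dg])).symm
    have e : (Fin.snoc (Fin.init β) k : Fin (r + 1) → Fin c) = β := by
      rw [← hlast]; exact Fin.snoc_init_self β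
    refine ⟨Fin.init β, ?_, e⟩
    simp only [mem_coe, mem_filter, mem_univ, true_and]
    refine ⟨by rw [e]; exact hβ.1, ?_⟩
    intro l
    have h2 := hβ.2 l.castSucc
    rw [Fin.snoc_castSucc] at h2
    exact h2

lemma tog_snoc_big {r : ℕ} (I : (Fin (r + 1) → Fin c) → Prop) (σ : Fin r → Finset (Fin b))
    (E : Finset (Fin b)) (hE : h < E.card) :
    tog D I (Fin.snoc σ E : Fin (r + 1) → Finset (Fin b)) = tog D (fun _ => False) σ := by
  classical
  unfold tog
  have h1 : (univ.filter fun β : Fin (r + 1) → Fin c => I β ∧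
      ∀ l, (Fin.snoc σ E : Fin (r + 1) → Finset (Fin b)) l ⊆ D.dg (β l)) = ∅ := by
    rw [Finset.filter_eq_empty_iff]
    rintro β _ ⟨_, h2⟩
    have h3 := h2 (Fin.last r)
    simp only [Fin.snoc_last] at h3
    have := Finset.card_le_card h3
    rw [D.card_dg] at this
    omega
  rw [h1]
  simp

lemma ramp_big (l : ℕ) (E : Finset (Fin b)) (hE : h < E.card) : ramp D l E = 0 := by
  classical
  unfold ramp
  have h1 : (∑ k' : Fin c, if E ⊆ D.dg k' then (k' : ℕ) else 0) = 0 := by
    apply Finset.sum_eq_zero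
    intro k _
    rw [if_neg]
    intro hsub
    have := Finset.card_le_card hsub
    rw [D.card_dg] at this
    omega
  have h2 : (univ.filter fun U : Finset (Fin b) => U.card < h ∧ E ⊆ U).card = 0 := by
    rw [Finset.card_eq_zero, Finset.filter_eq_empty_iff]
    rintro U _ ⟨h3, h4⟩
    have := Finset.card_le_card h4
    omega
  rw [h1, h2]
  simp

lemma T_succ (r s : ℕ) (I : (Fin (r + 1) → Fin c) → Prop) :
    ∃ U : ℕ, T D (r + 1) s I = (∑ k : Fin c, T D r (s + k * c ^ r) (fun β => I (Fin.snoc β k))) +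
      (univ.filter fun E : Finset (Fin b) => h < E.card).card * T D r s (fun _ => False) +
      2 ^ (s + c ^ (r + 1)) * U := by
  classical
  -- the three kinds of top sets
  have hsplit : ∀ f : Finset (Fin b) → ℕ, ∑ E, f E = (∑ k : Fin c, f (D.dg k)) +
      (∑ E ∈ univ.filter (fun E : Finset (Fin b) => h < E.card), f E) +
      ∑ E ∈ univ.filter (fun E : Finset (Fin b) => E.card < h), f E := by
    intro f
    have h1 : (∑ k : Fin c, f (D.dg k)) =
        ∑ E ∈ univ.filter (fun E : Finset (Fin b) => E.card = h), f E := by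
      apply Finset.sum_bij (fun k _ => D.dg k)
      · intro k _; simp [D.card_dg]
      · intro k _ k' _ hkk; exact D.inj hkk
      · intro E hE
        rw [mem_filter] at hE
        obtain ⟨k, hk⟩ := D.surj E hE.2
        exact ⟨k, mem_univ _, hk⟩
      · intro k _; rfl
    rw [h1, ← Finset.sum_filter_add_sum_filter_not univ (fun E : Finset (Fin b) => E.card = h),
      add_assoc]
    congr 1
    rw [← Finset.sum_filter_add_sum_filter_not
      (univ.filter fun E : Finset (Fin b) => ¬ E.card = h) (fun E => h < E.card),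
      Finset.filter_filter, Finset.filter_filter]
    congr 1
    · apply Finset.sum_congr _ (fun _ _ => rfl)
      ext E; simp only [mem_filter, mem_univ, true_and]; omega
    · apply Finset.sum_congr _ (fun _ _ => rfl)
      ext E; simp only [mem_filter, mem_univ, true_and]; omega
  have hT : T D (r + 1) s I = ∑ E : Finset (Fin b), ∑ σ : Fin r → Finset (Fin b),
      2 ^ (s + ∑ l : Fin (r + 1), ramp D l ((Fin.snoc σ E : Fin (r + 1) → Finset (Fin b)) l) +
        tog D I (Fin.snoc σ E : Fin (r + 1) → Finset (Fin b))) := by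
    unfold T
    rw [sum_snoc]
  rw [hT, hsplit]
  refine ⟨∑ E ∈ univ.filter (fun E : Finset (Fin b) => E.card < h), ∑ σ : Fin r → Finset (Fin b),
    2 ^ (∑ l : Fin r, ramp D l (σ l) + (ramp D r E - c ^ (r + 1)) +
      tog D I (Fin.snoc σ E : Fin (r + 1) → Finset (Fin b))), ?_⟩
  congr 1
  · congr 1
    · apply Finset.sum_congr rfl
      intro k _
      unfold T
      apply Finset.sum_congr rfl
      intro σ _
      congr 1
      rw [Fin.sum_univ_castSucc, tog_snoc]
      simp only [Fin.snoc_castSucc, Fin.snoc_last, Fin.val_castSucc, Fin.val_last, ramp_dg]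
      ring
    · rw [Finset.sum_congr rfl (g := fun _ => T D r s (fun _ => False)), Finset.sum_const,
        smul_eq_mul]
      intro E hE
      rw [mem_filter] at hE
      unfold T
      apply Finset.sum_congr rfl
      intro σ _
      rw [Fin.sum_univ_castSucc, tog_snoc_big D I σ E hE.2]
      simp only [Fin.snoc_castSucc, Fin.snoc_last, Fin.val_castSucc, Fin.val_last,
        ramp_big D r E hE.2, add_zero]
  · rw [Finset.mul_sum]
    apply Finset.sum_congr rfl
    intro E hE
    rw [mem_filter] at hE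
    rw [Finset.mul_sum]
    apply Finset.sum_congr rfl
    intro σ _
    rw [← pow_add, Fin.sum_univ_castSucc]
    simp only [Fin.snoc_castSucc, Fin.snoc_last, Fin.val_castSucc, Fin.val_last]
    congr 1
    have := le_ramp D r E hE.2
    omega

lemma dvd_T (r s : ℕ) (I : (Fin r → Fin c) → Prop) : 2 ^ s ∣ T D r s I := by
  unfold T
  apply Finset.dvd_sum
  intro σ _
  apply pow_dvd_pow
  omega

/-- Several encoders in a row. -/
lemma enc_seq_of (r : ℕ) (H : ∀ (s : ℕ) (a : ℤ), ∃ I : (Fin r → Fin c) → Prop,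
    (T D r s I : ℤ) ≡ 2 ^ s * a [ZMOD 2 ^ (s + c ^ r)]) (S : ℕ) (t : ℕ) : ∀ a : ℤ,
    ∃ I : Fin t → (Fin r → Fin c) → Prop,
    ((∑ j : Fin t, T D r (S + j * c ^ r) (I j) : ℕ) : ℤ) ≡ 2 ^ S * a
      [ZMOD 2 ^ (S + t * c ^ r)] := by
  induction t with
  | zero =>
    intro a
    refine ⟨fun j => j.elim0, ?_⟩
    apply Int.modEq_iff_dvd.2
    refine ⟨a, ?_⟩
    simp
  | succ t ih =>
    intro a
    obtain ⟨I, hI⟩ := ih a
    obtain ⟨d, hd⟩ := Int.modEq_iff_dvd.1 hI
    obtain ⟨J, hJ⟩ := H (S + t * c ^ r) d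
    obtain ⟨e, he⟩ := Int.modEq_iff_dvd.1 hJ
    refine ⟨Fin.snoc I J, ?_⟩
    rw [Fin.sum_univ_castSucc]
    simp only [Fin.snoc_castSucc, Fin.snoc_last, Fin.val_castSucc, Fin.val_last]
    apply Int.modEq_iff_dvd.2
    refine ⟨e, ?_⟩
    have e1 : S + (t + 1) * c ^ r = S + t * c ^ r + c ^ r := by ring
    rw [e1]
    push_cast at hd he ⊢
    linarith

/-- The encoder lemma. -/
theorem encode (r : ℕ) : ∀ (s : ℕ) (a : ℤ), ∃ I : (Fin r → Fin c) → Prop,
    (T D r s I : ℤ) ≡ 2 ^ s * a [ZMOD 2 ^ (s + c ^ r)] := by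
  induction r with
  | zero =>
    intro s a
    rcases Int.even_or_odd a with ha | ha
    · refine ⟨fun _ => True, ?_⟩
      obtain ⟨k, rfl⟩ := ha
      have : T D 0 s (fun _ => True) = 2 ^ (s + 1) := by
        unfold T tog
        simp
      rw [this]
      have h : (2 : ℤ) ^ (s + c ^ 0) ∣ 2 ^ s * (k + k) - (2 ^ (s + 1) : ℕ) := by
        refine ⟨k - 1, ?_⟩
        push_cast
        ring
      exact (Int.modEq_iff_dvd.2 h)
    · refine ⟨fun _ => False, ?_⟩
      obtain ⟨k, rfl⟩ := ha
      have : T D 0 s (fun _ => False) = 2 ^ s := by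
        unfold T tog
        simp
      rw [this]
      have h : (2 : ℤ) ^ (s + c ^ 0) ∣ 2 ^ s * (2 * k + 1) - (2 ^ s : ℕ) := by
        refine ⟨k, ?_⟩
        push_cast
        ring
      exact (Int.modEq_iff_dvd.2 h)
  | succ r ih =>
    intro s a
    obtain ⟨w, hw⟩ := dvd_T D r s (fun _ => False)
    set q := (univ.filter fun E : Finset (Fin b) => h < E.card).card with hq
    obtain ⟨I, hI⟩ := enc_seq_of D r ih s c (a - q * w)
    obtain ⟨d, hd⟩ := Int.modEq_iff_dvd.1 hI
    refine ⟨fun β => I (β (Fin.last r)) (Fin.init β), ?_⟩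
    obtain ⟨U, hU⟩ := T_succ D r s (fun β => I (β (Fin.last r)) (Fin.init β))
    rw [hU]
    simp only [Fin.snoc_last, Fin.init_snoc]
    apply Int.modEq_iff_dvd.2
    refine ⟨d - U, ?_⟩
    have e1 : c * c ^ r = c ^ (r + 1) := by ring
    rw [e1] at hd
    rw [← hq, hw]
    push_cast at hd ⊢
    linear_combination hd

/-- Several encoders in a row. -/
lemma enc_seq (r S t : ℕ) (a : ℤ) : ∃ I : Fin t → (Fin r → Fin c) → Prop,
    ((∑ j : Fin t, T D r (S + j * c ^ r) (I j) : ℕ) : ℤ) ≡ 2 ^ S * a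
      [ZMOD 2 ^ (S + t * c ^ r)] :=
  enc_seq_of D r (encode D r) S t a

/-- number of vertices of the ramps -/
noncomputable def totR (r : ℕ) : ℕ := ∑ l : Fin r, ramp D l ∅

/-- number of vertices of the clique used by the encoder -/
noncomputable def P (r : ℕ) : ℕ := totR D r + c ^ r

lemma ramp_mono (l : ℕ) {E E' : Finset (Fin b)} (hE : E ⊆ E') : ramp D l E' ≤ ramp D l E := by
  classical
  unfold ramp
  apply Nat.add_le_add
  · apply Nat.mul_le_mul_left
    apply Finset.sum_le_sum
    intro k _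
    split_ifs with h1 h2
    · exact le_rfl
    · exact absurd (hE.trans h1) h2
    · exact Nat.zero_le _
    · exact le_rfl
  · apply Nat.mul_le_mul_left
    apply Finset.card_le_card
    intro U hU
    rw [mem_filter] at hU ⊢
    exact ⟨hU.1, hU.2.1, hE.trans hU.2.2⟩

lemma tog_le {r : ℕ} (I : (Fin r → Fin c) → Prop) (σ : Fin r → Finset (Fin b)) :
    tog D I σ ≤ c ^ r := by
  classical
  unfold tog
  calc _ ≤ (univ : Finset (Fin r → Fin c)).card := Finset.card_filter_le _ _
    _ = c ^ r := by simp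

lemma sum_ramp_le {r : ℕ} (σ : Fin r → Finset (Fin b)) :
    ∑ l : Fin r, ramp D l (σ l) ≤ totR D r :=
  Finset.sum_le_sum fun l _ => ramp_mono D l (Finset.empty_subset _)

theorem T_le (r s : ℕ) (I : (Fin r → Fin c) → Prop) :
    T D r s I ≤ 2 ^ (r * b) * 2 ^ (s + P D r) := by
  unfold T
  have : ∀ σ ∈ (univ : Finset (Fin r → Finset (Fin b))),
      2 ^ (s + ∑ l : Fin r, ramp D l (σ l) + tog D I σ) ≤ 2 ^ (s + P D r) := by
    intro σ _
    apply Nat.pow_le_pow_right (by norm_num)
    have h1 := sum_ramp_le D σ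
    have h2 := tog_le D I σ
    unfold P
    omega
  calc _ ≤ ∑ σ : Fin r → Finset (Fin b), 2 ^ (s + P D r) := Finset.sum_le_sum this
    _ = _ := by simp [← pow_mul, mul_comm]

theorem P_le (hc : 2 ≤ c) (r : ℕ) : P D r ≤ 2 ^ (b + 3) * c ^ r := by
  classical
  have hcb : c ≤ 2 ^ b := by
    have h1 := Fintype.card_le_of_injective D.dg D.inj
    simpa using h1
  have h1 : ∀ l : ℕ, ramp D l ∅ ≤ c ^ (l + 1) * (2 * 2 ^ b) := by
    intro l
    unfold ramp
    have h2 : (∑ k : Fin c, if (∅ : Finset (Fin b)) ⊆ D.dg k then (k : ℕ) else 0) ≤ c * c := by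
      calc _ ≤ ∑ k : Fin c, c := by
            apply Finset.sum_le_sum
            intro k _
            split_ifs
            · exact k.2.le
            · exact Nat.zero_le _
        _ = c * c := by simp
    have h3 : (univ.filter fun U : Finset (Fin b) => U.card < h ∧ ∅ ⊆ U).card ≤ 2 ^ b := by
      calc _ ≤ (univ : Finset (Finset (Fin b))).card := Finset.card_filter_le _ _
        _ = 2 ^ b := by simp
    calc _ ≤ c ^ l * (c * c) + c ^ (l + 1) * 2 ^ b :=
          Nat.add_le_add (Nat.mul_le_mul_left _ h2) (Nat.mul_le_mul_left _ h3)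
      _ = c ^ (l + 1) * (c + 2 ^ b) := by ring
      _ ≤ _ := Nat.mul_le_mul_left _ (by omega)
  have h2 : ∀ r : ℕ, ∑ l : Fin r, c ^ ((l : ℕ) + 1) ≤ 2 * c ^ r := by
    intro r
    induction r with
    | zero => simp
    | succ r ih =>
      rw [Fin.sum_univ_castSucc]
      simp only [Fin.val_castSucc, Fin.val_last]
      have : 2 * c ^ r ≤ c ^ (r + 1) := by
        rw [pow_succ, mul_comm (c ^ r)]
        exact Nat.mul_le_mul_right _ hc
      omega
  unfold P totR
  calc _ ≤ (∑ l : Fin r, c ^ ((l : ℕ) + 1) * (2 * 2 ^ b)) + c ^ r :=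
        Nat.add_le_add_right (Finset.sum_le_sum fun (l : Fin r) _ => h1 (l : ℕ)) _
    _ = (∑ l : Fin r, c ^ ((l : ℕ) + 1)) * (2 * 2 ^ b) + c ^ r := by rw [Finset.sum_mul]
    _ ≤ (2 * c ^ r) * (2 * 2 ^ b) + c ^ r :=
        Nat.add_le_add_right (Nat.mul_le_mul_right _ (h2 r)) _
    _ ≤ (2 * c ^ r) * (2 * 2 ^ b) + c ^ r * 2 ^ b := by
        apply Nat.add_le_add_left
        exact Nat.le_mul_of_pos_right _ (by positivity)
    _ ≤ 2 ^ (b + 3) * c ^ r := by
        rw [pow_add]
        have : 0 ≤ c ^ r * 2 ^ b := Nat.zero_le _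
        nlinarith

end Pool.Agent.CliqueSharp
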