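import Pool.Agent.CliqueSharp.Main

set_option autoImplicit false

open Finset Filter Topology
open Pool.Agent.CliqueCount (clq mem_clq vals)
open Pool.Agent.CliqueSharp (LL upper_asym interval_asym profile_lower)

namespace Pool.Agent.CliqueSharp.Final

/-- `f(G)`: the number of complete subgraphs of `G`, that is, of nonempty cliques -/
noncomputable def f {n : ℕ} (G : SimpleGraph (Fin n)) : ℕ :=
  {s : Finset (Fin n) | s.Nonempty ∧ G.IsClique (s : Set (Fin n))}.ncard

/-- the set of the numbers of complete subgraphs of the graphs with `n` vertices -/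
def S (n : ℕ) : Set ℕ := {N | ∃ G : SimpleGraph (Fin n), f G = N}

/-- the number of different numbers of complete subgraphs of graphs with `n` vertices -/
noncomputable def F (n : ℕ) : ℕ := (S n).ncard

/-- `L(n) = (log₂ n)² / log₂ log₂ n` -/
noncomputable def L (n : ℕ) : ℝ := Real.logb 2 n ^ 2 / Real.logb 2 (Real.logb 2 n)

/-- the number of elements of `S n` which are at least `x` -/
noncomputable def above (n : ℕ) (x : ℝ) : ℕ := {N ∈ S n | x ≤ N}.ncard

lemma f_add_one {n : ℕ} (G : SimpleGraph (Fin n)) : f G + 1 = (clq G).card := by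
  classical
  have h1 : {s : Finset (Fin n) | s.Nonempty ∧ G.IsClique (s : Set (Fin n))} =
      (((clq G).erase ∅ : Finset (Finset (Fin n))) : Set (Finset (Fin n))) := by
    ext s
    rw [Finset.coe_erase]
    simp only [Set.mem_ofPred_eq, Set.mem_sdiff, mem_coe, mem_clq, Set.mem_singleton_iff,
      Finset.nonempty_iff_ne_empty]
    tauto
  have h2 : (∅ : Finset (Fin n)) ∈ clq G := by
    rw [mem_clq]; simp
  unfold f
  rw [h1, Set.ncard_coe_finset, Finset.card_erase_of_mem h2]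
  have : 0 < (clq G).card := Finset.card_pos.2 ⟨_, h2⟩
  omega

lemma mem_S_iff {n N : ℕ} : N ∈ S n ↔ N + 1 ∈ vals n := by
  constructor
  · rintro ⟨G, hG⟩
    exact ⟨G, by rw [← f_add_one, hG]⟩
  · rintro ⟨G, hG⟩
    refine ⟨G, ?_⟩
    have := f_add_one G
    omega

lemma vals_finite (n : ℕ) : (vals n).Finite := by
  have : vals n = Set.range fun G : SimpleGraph (Fin n) => (clq G).card := by
    ext N; simp [vals]
  rw [this]
  exact Set.finite_range _

lemma S_finite (n : ℕ) : (S n).Finite := by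
  have : S n = Set.range fun G : SimpleGraph (Fin n) => f G := by
    ext N; simp [S]
  rw [this]
  exact Set.finite_range _

lemma pos_of_mem_vals {n M : ℕ} (h : M ∈ vals n) : 1 ≤ M := by
  obtain ⟨G, hG⟩ := h
  have := f_add_one G
  omega

lemma above_le (n : ℕ) (x : ℝ) : above n x ≤ {N ∈ vals n | x ≤ N}.ncard := by
  unfold above
  refine Set.ncard_le_ncard_of_injOn (fun N => N + 1) ?_ ?_ ((vals_finite n).subset
    (Set.sep_subset _ _))
  · rintro N ⟨h1, h2⟩
    refine ⟨mem_S_iff.1 h1, ?_⟩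
    push_cast
    linarith
  · intro a _ b _ h
    simpa using h

lemma le_above (n : ℕ) (x : ℝ) : {N ∈ vals n | x + 1 ≤ N}.ncard ≤ above n x := by
  unfold above
  refine Set.ncard_le_ncard_of_injOn (fun N => N - 1) ?_ ?_ ((S_finite n).subset
    (Set.sep_subset _ _))
  · rintro N ⟨h1, h2⟩
    have h3 := pos_of_mem_vals h1
    obtain ⟨M, rfl⟩ : ∃ M, N = M + 1 := ⟨N - 1, by omega⟩
    simp only [Nat.add_sub_cancel]
    refine ⟨mem_S_iff.2 h1, ?_⟩
    push_cast at h2
    linarith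
  · rintro a ⟨ha, _⟩ b ⟨hb, _⟩ h
    have h3 := pos_of_mem_vals ha
    have h4 := pos_of_mem_vals hb
    simp only at h
    omega

lemma above_mono (n : ℕ) {x y : ℝ} (h : x ≤ y) : above n y ≤ above n x := by
  unfold above
  apply Set.ncard_le_ncard _ ((S_finite n).subset (Set.sep_subset _ _))
  rintro N ⟨h1, h2⟩
  exact ⟨h1, h.trans h2⟩

/-- `L(n)` tends to infinity, more slowly than every power of `n` -/
lemma tendsto_L : Tendsto L atTop atTop := by
  have t0 : Tendsto (fun n : ℕ => Real.logb 2 n) atTop atTop :=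
    (Real.tendsto_logb_atTop (by norm_num)).comp tendsto_natCast_atTop_atTop
  have h1 : ∀ᶠ x : ℝ in atTop, x ≤ x ^ 2 / Real.logb 2 x := by
    filter_upwards [eventually_gt_atTop 2] with x hx
    have hl : 0 < Real.logb 2 x := Real.logb_pos (by norm_num) (by linarith)
    rw [le_div_iff₀ hl]
    have : Real.logb 2 x ≤ x := by
      have h2 : Real.log x ≤ x / 2 := by
        have := Real.log_le_sub_one_of_pos (show 0 < x / 2 by linarith)
        have h3 : Real.log x = Real.log 2 + Real.log (x / 2) := by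
          rw [← Real.log_mul (by norm_num) (by linarith)]; congr 1; ring
        have h4 := Real.log_two_lt_d9
        linarith
      unfold Real.logb
      rw [div_le_iff₀ (Real.log_pos (by norm_num))]
      have h5 := Real.log_two_gt_d9
      nlinarith
    nlinarith
  have h2 : ∀ᶠ n : ℕ in atTop, Real.logb 2 n ≤ L n := t0.eventually h1
  exact tendsto_atTop_mono' _ h2 t0

lemma L_eq (n : ℕ) : L n = LL n := rfl

/-- polynomially large exponents beat `L` -/
lemma L_small (δ C : ℝ) (hδ : 0 < δ) : ∀ᶠ n : ℕ in atTop, C * L n ≤ (n : ℝ) ^ δ := by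
  have t0 : Tendsto (fun n : ℕ => Real.logb 2 n) atTop atTop :=
    (Real.tendsto_logb_atTop (by norm_num)).comp tendsto_natCast_atTop_atTop
  -- `L n ≤ (logb 2 n)^2`
  have h1 : ∀ᶠ n : ℕ in atTop, L n ≤ Real.logb 2 n ^ 2 := by
    filter_upwards [t0.eventually_ge_atTop 2] with n hn
    unfold L
    apply div_le_self (by positivity)
    rw [Real.le_logb_iff_rpow_le (by norm_num) (by linarith)]
    simpa using hn
  have h2 : (fun x : ℝ => Real.log x ^ (2 : ℝ)) =o[atTop] fun x => x ^ δ :=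
    isLittleO_log_rpow_rpow_atTop 2 hδ
  have h3 : ∀ᶠ x : ℝ in atTop, ‖Real.log x ^ (2 : ℝ)‖ ≤ (1 / (8 * (|C| + 1))) * ‖x ^ δ‖ :=
    h2.def (by positivity)
  filter_upwards [h1, tendsto_natCast_atTop_atTop.eventually h3, eventually_ge_atTop 2] with n a b c
  have hn1 : (1 : ℝ) ≤ n := by exact_mod_cast (by omega : 1 ≤ n)
  have hlog : 0 ≤ Real.log n := Real.log_nonneg hn1
  rw [Real.norm_of_nonneg (by positivity), Real.norm_of_nonneg (by positivity)] at b
  have e1 : Real.log (n : ℝ) ^ (2 : ℝ) = Real.log n ^ 2 := by norm_cast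
  rw [e1] at b
  have e2 : Real.logb 2 n ^ 2 ≤ 4 * Real.log n ^ 2 := by
    unfold Real.logb
    rw [div_pow, div_le_iff₀ (by have := Real.log_two_gt_d9; positivity)]
    have := Real.log_two_gt_d9
    have h5 : 1 ≤ 4 * Real.log 2 ^ 2 := by nlinarith
    nlinarith [sq_nonneg (Real.log (n : ℝ))]
  have hL0 : 0 ≤ Real.log (n : ℝ) ^ 2 := by positivity
  have hpow : 0 ≤ (n : ℝ) ^ δ := by positivity
  have e3 : C * L n ≤ (|C| + 1) * (4 * Real.log n ^ 2) := by
    have hLn : L n ≤ 4 * Real.log n ^ 2 := a.trans e2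
    rcases le_or_gt 0 (L n) with hLpos | hLneg
    · calc C * L n ≤ (|C| + 1) * L n := by
            apply mul_le_mul_of_nonneg_right _ hLpos
            linarith [le_abs_self C]
        _ ≤ _ := by
            apply mul_le_mul_of_nonneg_left hLn
            positivity
    · exfalso
      have : 0 ≤ L n := by
        unfold L
        by_contra hcon
        push Not at hcon
        have h7 : Real.logb 2 (Real.logb 2 n) < 0 := by
          by_contra h8
          push Not at h8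
          have : 0 ≤ Real.logb 2 n ^ 2 / Real.logb 2 (Real.logb 2 n) := by positivity
          linarith
        have h9 : 1 ≤ Real.logb 2 n := by
          rw [Real.le_logb_iff_rpow_le (by norm_num) (by linarith)]
          simp only [Real.rpow_one]
          exact_mod_cast c
        have h10 : 0 ≤ Real.logb 2 (Real.logb 2 n) := Real.logb_nonneg (by norm_num) h9
        linarith
      linarith
  calc C * L n ≤ (|C| + 1) * (4 * Real.log n ^ 2) := e3
    _ ≤ (|C| + 1) * (4 * (1 / (8 * (|C| + 1)) * (n : ℝ) ^ δ)) := by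
        apply mul_le_mul_of_nonneg_left _ (by positivity)
        linarith
    _ = (n : ℝ) ^ δ / 2 := by field_simp; ring
    _ ≤ _ := by linarith

theorem interval (ε : ℝ) (hε : 0 < ε) : ∀ᶠ n : ℕ in atTop, ∀ N : ℕ, n ≤ N →
    (N : ℝ) ≤ 2 ^ ((n : ℝ) - (1 / 2 + ε) * L n) → N ∈ S n := by
  filter_upwards [interval_asym ε hε] with n hn N h1 h2
  obtain ⟨G, hG⟩ := hn N h1 h2
  exact mem_S_iff.2 ⟨G, hG⟩

theorem F_lower (ε : ℝ) (hε : 0 < ε) : ∀ᶠ n : ℕ in atTop,
    (2 : ℝ) ^ ((n : ℝ) - (1 / 2 + ε) * L n) ≤ F n := by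
  filter_upwards [interval (ε / 2) (by linarith), tendsto_L.eventually_ge_atTop (4 / ε),
    L_small (1 / 2) (1 / 2 + ε) (by norm_num), eventually_ge_atTop 100] with n h1 h2 h3 h4
  -- the interval contains about `2^(n - (1/2 + ε/2) L)` integers
  have hL : 4 ≤ ε * L n := by
    rw [div_le_iff₀ hε] at h2
    linarith
  set y : ℝ := (n : ℝ) - (1 / 2 + ε) * L n with hy
  have hbig : (2 : ℝ) ^ ((n : ℝ) - (1 / 2 + ε / 2) * L n) ≥ 4 * 2 ^ y := by
    have : (4 : ℝ) = 2 ^ (2 : ℝ) := by norm_num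
    rw [this, ← Real.rpow_add (by norm_num)]
    apply Real.rpow_le_rpow_of_exponent_le (by norm_num)
    rw [hy]
    nlinarith
  have hn : (100 : ℝ) ≤ n := by exact_mod_cast h4
  -- `n ≤ 2^y`
  have hny : (n : ℝ) ≤ 2 ^ y := by
    have h5 : (n : ℝ) ^ (1 / 2 : ℝ) ≤ n / 10 := by
      rw [← Real.sqrt_eq_rpow, Real.sqrt_le_iff]
      constructor
      · positivity
      · nlinarith
    have h6 : (n : ℝ) / 2 ≤ y := by rw [hy]; linarith
    have h7 : (n : ℝ) ≤ 2 ^ ((n : ℝ) / 2) := by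
      have h8 : (2 : ℝ) ^ ((n : ℝ) / 2) = Real.exp (Real.log 2 * ((n : ℝ) / 2)) := by
        rw [Real.rpow_def_of_pos (by norm_num)]
      have h9 := Real.log_two_gt_d9
      have h10 : Real.exp (Real.log 2 * ((n : ℝ) / 2)) ≥ Real.exp ((n : ℝ) / 4) := by
        apply Real.exp_le_exp.2
        nlinarith
      have h11 : Real.exp ((n : ℝ) / 4) = Real.exp ((n : ℝ) / 12) ^ 3 := by
        rw [← Real.exp_nat_mul]; congr 1; push_cast; ring
      have h12 : (n : ℝ) / 12 + 1 ≤ Real.exp ((n : ℝ) / 12) := Real.add_one_le_exp _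
      have h13 : ((n : ℝ) / 12) ^ 3 ≤ Real.exp ((n : ℝ) / 12) ^ 3 := by
        apply pow_le_pow_left₀ (by positivity)
        linarith
      rw [h8]
      refine le_trans ?_ h10
      rw [h11]
      refine le_trans ?_ h13
      have : (n : ℝ) * 1728 ≤ n * (n * n) := by nlinarith
      have e : ((n : ℝ) / 12) ^ 3 = n * (n * n) / 1728 := by ring
      rw [e, le_div_iff₀ (by norm_num)]
      exact this
    exact h7.trans (Real.rpow_le_rpow_of_exponent_le (by norm_num) h6)
  set m : ℕ := ⌊(2 : ℝ) ^ ((n : ℝ) - (1 / 2 + ε / 2) * L n)⌋₊ with hm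
  have hm1 : (m : ℝ) ≤ 2 ^ ((n : ℝ) - (1 / 2 + ε / 2) * L n) := Nat.floor_le (by positivity)
  have hm2 : (2 : ℝ) ^ ((n : ℝ) - (1 / 2 + ε / 2) * L n) < m + 1 := Nat.lt_floor_add_one _
  have h3 : (Finset.Icc n m : Finset ℕ) ⊆ (S_finite n).toFinset := by
    intro N hN
    rw [mem_Icc] at hN
    rw [Set.Finite.mem_toFinset]
    apply h1 N hN.1
    exact le_trans (by exact_mod_cast hN.2) hm1
  have h5 := Finset.card_le_card h3
  rw [Nat.card_Icc, ← Set.ncard_eq_toFinset_card _ (S_finite n)] at h5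
  have h6 : ((m : ℝ) + 1 - n) ≤ F n := by
    have : m + 1 ≤ F n + n := by
      unfold F
      omega
    have : ((m + 1 : ℕ) : ℝ) ≤ ((F n + n : ℕ) : ℝ) := by exact_mod_cast this
    push_cast at this
    linarith
  have hpos : (0 : ℝ) < 2 ^ y := by positivity
  linarith

theorem F_upper (ε : ℝ) (hε : 0 < ε) (hε2 : ε < 1 / 2) : ∀ᶠ n : ℕ in atTop,
    (F n : ℝ) ≤ 2 ^ ((n : ℝ) - (1 / 2 - ε) * L n) := by
  obtain ⟨δ, hδ0, hδ1, hδ⟩ : ∃ δ : ℝ, 0 < δ ∧ δ < 1 ∧ 1 / 2 - ε / 2 < (1 - δ ^ 2) / 2 := by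
    refine ⟨ε / 2, by linarith, by linarith, ?_⟩
    nlinarith
  filter_upwards [upper_asym δ (1 / 2 - ε / 2) hδ0.le hδ1 (by linarith) hδ,
    tendsto_L.eventually_ge_atTop (4 / ε), L_small δ (1 / 2 - ε / 2) hδ0,
    L_small (1 / 2) (1 / 2 + ε) (by norm_num), eventually_ge_atTop 100] with n h1 h2 h3 h4 h5
  have hL : 4 ≤ ε * L n := by
    rw [div_le_iff₀ hε] at h2
    linarith
  have hn : (100 : ℝ) ≤ n := by exact_mod_cast h5
  set x : ℝ := (2 : ℝ) ^ ((n : ℝ) - (1 / 2 - ε / 2) * L n) with hx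
  have hL0 : 0 ≤ L n := by nlinarith
  have hx1 : 1 ≤ x := by
    rw [hx]
    apply Real.one_le_rpow (by norm_num)
    have h5 : (n : ℝ) ^ (1 / 2 : ℝ) ≤ n / 10 := by
      rw [← Real.sqrt_eq_rpow, Real.sqrt_le_iff]
      constructor
      · positivity
      · nlinarith
    nlinarith
  have hsub : S n ⊆ {N ∈ S n | x ≤ N} ∪ ((Finset.range (⌈x⌉₊) : Finset ℕ) : Set ℕ) := by
    intro N hN
    by_cases h : x ≤ N
    · exact Or.inl ⟨hN, h⟩
    · right
      rw [Finset.mem_coe, Finset.mem_range]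
      push Not at h
      exact Nat.lt_ceil.2 h
  have hF : (F n : ℝ) ≤ above n x + ⌈x⌉₊ := by
    have h6 : F n ≤ above n x + ⌈x⌉₊ := by
      unfold F above
      calc (S n).ncard ≤ ({N ∈ S n | x ≤ N} ∪ ((Finset.range (⌈x⌉₊) : Finset ℕ) : Set ℕ)).ncard :=
            Set.ncard_le_ncard hsub (((S_finite n).subset (Set.sep_subset _ _)).union
              (Finset.finite_toSet _))
        _ ≤ _ := Set.ncard_union_le _ _
        _ = _ := by rw [Set.ncard_coe_finset, Finset.card_range]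
    exact_mod_cast h6
  have hceil : ((⌈x⌉₊ : ℕ) : ℝ) ≤ x + 1 := (Nat.ceil_lt_add_one (by linarith)).le
  have hab : (above n x : ℝ) ≤ x := by
    have h7 : (above n x : ℝ) ≤ (({N ∈ vals n | x ≤ N}.ncard : ℕ) : ℝ) := by
      exact_mod_cast above_le n x
    refine h7.trans (h1.trans ?_)
    rw [hx]
    apply Real.rpow_le_rpow_of_exponent_le (by norm_num)
    linarith
  have h8 : 4 * x ≤ 2 ^ ((n : ℝ) - (1 / 2 - ε) * L n) := by
    have : (4 : ℝ) = 2 ^ (2 : ℝ) := by norm_num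
    rw [this, hx, ← Real.rpow_add (by norm_num)]
    apply Real.rpow_le_rpow_of_exponent_le (by norm_num)
    nlinarith
  linarith

theorem tendsto_F : Tendsto (fun n : ℕ => ((n : ℝ) - Real.logb 2 (F n)) / L n) atTop
    (𝓝 (1 / 2)) := by
  rw [Metric.tendsto_atTop]
  intro ε hε
  obtain ⟨η, hη0, hη1, hη2⟩ : ∃ η : ℝ, 0 < η ∧ η < 1 / 2 ∧ η < ε :=
    ⟨min (1 / 4) (ε / 2), by positivity, by
      have := min_le_left (1 / 4 : ℝ) (ε / 2); linarith, by
      have := min_le_right (1 / 4 : ℝ) (ε / 2); linarith⟩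
  have h := (F_lower η hη0).and ((F_upper η hη0 hη1).and (tendsto_L.eventually_gt_atTop 0))
  obtain ⟨N, hN⟩ := eventually_atTop.1 h
  refine ⟨N, fun n hn => ?_⟩
  obtain ⟨h1, h2, h3⟩ := hN n hn
  have hFpos : (0 : ℝ) < F n := lt_of_lt_of_le (by positivity) h1
  have h4 : (n : ℝ) - (1 / 2 + η) * L n ≤ Real.logb 2 (F n) := by
    rw [Real.le_logb_iff_rpow_le (by norm_num) hFpos]
    exact h1
  have h5 : Real.logb 2 (F n) ≤ (n : ℝ) - (1 / 2 - η) * L n := by
    rw [Real.logb_le_iff_le_rpow (by norm_num) hFpos]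
    exact h2
  rw [Real.dist_eq, abs_lt]
  constructor
  · have : 1 / 2 - η ≤ ((n : ℝ) - Real.logb 2 (F n)) / L n := by
      rw [le_div_iff₀ h3]
      linarith
    linarith
  · have : ((n : ℝ) - Real.logb 2 (F n)) / L n ≤ 1 / 2 + η := by
      rw [div_le_iff₀ h3]
      linarith
    linarith

theorem profile (c : ℝ) (hc0 : 0 < c) (hc1 : c < 1 / 2) (ε : ℝ) (hε : 0 < ε) :
    ∀ᶠ n : ℕ in atTop,
      (2 : ℝ) ^ ((n : ℝ) - (n : ℝ) ^ (√(1 - 2 * c) + ε)) ≤ above n (2 ^ ((n : ℝ) - c * L n)) ∧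
      (above n (2 ^ ((n : ℝ) - c * L n)) : ℝ) ≤ 2 ^ ((n : ℝ) - (n : ℝ) ^ (√(1 - 2 * c) - ε)) := by
  set s := √(1 - 2 * c) with hs
  have hs2 : s ^ 2 = 1 - 2 * c := Real.sq_sqrt (by linarith)
  have hs0 : 0 < s := Real.sqrt_pos.2 (by linarith)
  have hs1 : s < 1 := by nlinarith
  -- lower bound
  obtain ⟨δ, hδ0, hδ1, hδ2⟩ : ∃ δ : ℝ, s < δ ∧ δ < 1 ∧ δ ≤ s + ε / 2 :=
    ⟨min ((s + 1) / 2) (s + ε / 2), lt_min (by linarith) (by linarith),
      lt_of_le_of_lt (min_le_left _ _) (by linarith), min_le_right _ _⟩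
  have hcδ : (1 - δ ^ 2) / 2 < c := by nlinarith
  obtain ⟨η, hη0, hη1, hη2⟩ : ∃ η : ℝ, 0 < η ∧ η ≤ ε / 2 ∧ (1 - δ ^ 2) / 2 + η < c := by
    refine ⟨min (ε / 2) ((c - (1 - δ ^ 2) / 2) / 2), lt_min (by linarith) (by linarith),
      min_le_left _ _, ?_⟩
    have := min_le_right (ε / 2) ((c - (1 - δ ^ 2) / 2) / 2)
    linarith
  -- upper bound
  have hup := upper_asym (max (s - ε) 0) c (le_max_right _ _)
    (max_lt (by linarith) (by linarith)) hc0 (by
      have h1 : max (s - ε) 0 < s := max_lt (by linarith) hs0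
      have h2 : 0 ≤ max (s - ε) 0 := le_max_right _ _
      nlinarith)
  have hcpos : 0 < c - ((1 - δ ^ 2) / 2 + η) := by linarith
  filter_upwards [profile_lower δ η (by linarith) hδ1 hη0, hup,
    tendsto_L.eventually_ge_atTop (1 / (c - ((1 - δ ^ 2) / 2 + η))),
    L_small (1 / 2) c (by norm_num), eventually_ge_atTop 100] with n h1 h2 h3 h4 h5
  have hn : (100 : ℝ) ≤ n := by exact_mod_cast h5
  constructor
  · have h6 : (2 : ℝ) ^ ((n : ℝ) - c * L n) + 1 ≤
        2 ^ ((n : ℝ) - ((1 - δ ^ 2) / 2 + η) * L n) := by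
      have h7 : 1 ≤ (c - ((1 - δ ^ 2) / 2 + η)) * L n := by
        rw [div_le_iff₀ hcpos] at h3
        linarith
      have h8 : (2 : ℝ) * 2 ^ ((n : ℝ) - c * L n) ≤
          2 ^ ((n : ℝ) - ((1 - δ ^ 2) / 2 + η) * L n) := by
        have : (2 : ℝ) * 2 ^ ((n : ℝ) - c * L n) = 2 ^ (1 + ((n : ℝ) - c * L n)) := by
          rw [Real.rpow_add (by norm_num), Real.rpow_one]
        rw [this]
        apply Real.rpow_le_rpow_of_exponent_le (by norm_num)
        linarith
      have h9 : (1 : ℝ) ≤ 2 ^ ((n : ℝ) - c * L n) := by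
        apply Real.one_le_rpow (by norm_num)
        have h5 : (n : ℝ) ^ (1 / 2 : ℝ) ≤ n / 10 := by
          rw [← Real.sqrt_eq_rpow, Real.sqrt_le_iff]
          constructor
          · positivity
          · nlinarith
        linarith
      linarith
    have h7 : (({N ∈ vals n | (2 : ℝ) ^ ((n : ℝ) - ((1 - δ ^ 2) / 2 + η) * LL n) ≤ N}.ncard : ℕ)
        : ℝ) ≤ above n (2 ^ ((n : ℝ) - c * L n)) := by
      have h8 : {N ∈ vals n | (2 : ℝ) ^ ((n : ℝ) - ((1 - δ ^ 2) / 2 + η) * LL n) ≤ N}.ncard ≤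
          {N ∈ vals n | (2 : ℝ) ^ ((n : ℝ) - c * L n) + 1 ≤ N}.ncard := by
        apply Set.ncard_le_ncard _ ((vals_finite n).subset (Set.sep_subset _ _))
        rintro N ⟨a1, a2⟩
        exact ⟨a1, h6.trans a2⟩
      exact_mod_cast h8.trans (le_above n _)
    refine le_trans ?_ (h1.trans h7)
    apply Real.rpow_le_rpow_of_exponent_le (by norm_num)
    have : (n : ℝ) ^ (δ + η) ≤ (n : ℝ) ^ (s + ε) :=
      Real.rpow_le_rpow_of_exponent_le (by linarith) (by linarith)
    linarith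
  · have h7 : (above n (2 ^ ((n : ℝ) - c * L n)) : ℝ) ≤
        (({N ∈ vals n | (2 : ℝ) ^ ((n : ℝ) - c * LL n) ≤ N}.ncard : ℕ) : ℝ) := by
      exact_mod_cast above_le n _
    refine h7.trans (h2.trans ?_)
    apply Real.rpow_le_rpow_of_exponent_le (by norm_num)
    have : (n : ℝ) ^ (s - ε) ≤ (n : ℝ) ^ (max (s - ε) 0) :=
      Real.rpow_le_rpow_of_exponent_le (by linarith) (le_max_left _ _)
    linarith

end Pool.Agent.CliqueSharp.Final
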