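import Pool.Agent.CliqueCount.Group
import Pool.Agent.CliqueSharp.Enc

set_option autoImplicit false

open Finset
open Pool.Agent.CliqueCount (cnt clq tot Attain attain_of supp mem_supp sum_clq_multi)

namespace Pool.Agent.CliqueSharp

variable {b c h : ℕ} (D : Code b c h)

/-- Parts of the selector structure. -/
def Part (b r t : ℕ) : Option (Fin r × Fin b) → Type
  | none => Fin t
  | some _ => Unit

instance (b r t : ℕ) (i : Option (Fin r × Fin b)) : Fintype (Part b r t i) := by
  cases i
  · exact (inferInstance : Fintype (Fin t))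
  · exact (inferInstance : Fintype Unit)

/-- the ramp of level `l` -/
abbrev RV (b c h l : ℕ) : Type :=
  (Σ k : Fin c, Fin (c ^ l * (k : ℕ))) ⊕ ({U : Finset (Fin b) // U.card < h} × Fin (c ^ (l + 1)))

/-- the type of a vertex of a ramp -/
def typ {l : ℕ} : RV b c h l → Finset (Fin b)
  | .inl p => D.dg p.1
  | .inr p => p.1.1

/-- the clique side -/
abbrev XX (b c h r m : ℕ) : Type :=
  (Fin r → Fin c) ⊕ ((Σ l : Fin r, RV b c h l) ⊕ Fin m)

/-- adjacency of the encoding vertices -/
def adjV {r t m : ℕ} (s : Fin t → ℕ) (I : Fin t → (Fin r → Fin c) → Prop) (j : Fin t) :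
    XX b c h r m → Prop
  | .inl β => I j β
  | .inr (.inl _) => True
  | .inr (.inr z) => (z : ℕ) < s j

/-- adjacency of the selector vertices -/
def adjW {r m : ℕ} (l : Fin r) (x : Fin b) : XX b c h r m → Prop
  | .inl β => x ∈ D.dg (β l)
  | .inr (.inl p) => p.1 ≠ l ∨ x ∈ typ D p.2
  | .inr (.inr _) => True

/-- adjacency between the selector structure and the clique -/
def adjA {r t m : ℕ} (s : Fin t → ℕ) (I : Fin t → (Fin r → Fin c) → Prop) :
    (Σ i, Part b r t i) → XX b c h r m → Prop
  | ⟨none, j⟩ => adjV s I j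
  | ⟨some p, _⟩ => adjW D p.1 p.2

/-- the partial transversal given by a pair -/
def mkτ {r t : ℕ} (o : Option (Fin t)) (σ : Fin r → Finset (Fin b)) :
    ∀ i, Option (Part b r t i)
  | none => o
  | some p => if p.2 ∈ σ p.1 then some () else none

lemma forall_supp {r t m : ℕ} (s : Fin t → ℕ) (I : Fin t → (Fin r → Fin c) → Prop)
    (o : Option (Fin t)) (σ : Fin r → Finset (Fin b)) (x : XX b c h r m) :
    (∀ y ∈ supp (mkτ o σ), adjA D s I y x) ↔
      (∀ j : Fin t, o = some j → adjV s I j x) ∧
      (∀ (l : Fin r) (z : Fin b), z ∈ σ l → adjW D l z x) := by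
  constructor
  · intro h
    refine ⟨fun j hj => h ⟨none, j⟩ ?_, fun l z hz => h ⟨some (l, z), ()⟩ ?_⟩
    · rw [mem_supp]; exact hj
    · rw [mem_supp]
      show (if z ∈ σ l then some () else none) = some ()
      rw [if_pos hz]
  · rintro ⟨h1, h2⟩ ⟨i, v⟩ hy
    rw [mem_supp] at hy
    rcases i with _ | p
    · exact h1 v hy
    · apply h2 p.1 p.2
      change (if p.2 ∈ σ p.1 then some () else none) = some v at hy
      by_contra hcon
      rw [if_neg hcon] at hy
      cases hy

open scoped Classical in
lemma level_count (l : ℕ) (E : Finset (Fin b)) :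
    (∑ v : RV b c h l, if E ⊆ typ D v then 1 else 0) = ramp D l E := by
  rw [Fintype.sum_sum_type, Fintype.sum_sigma, Fintype.sum_prod_type]
  unfold ramp
  have e1 : ∀ (k : Fin c) (i : Fin (c ^ l * (k : ℕ))),
      (if E ⊆ typ D (.inl ⟨k, i⟩ : RV b c h l) then 1 else 0) =
        (if E ⊆ D.dg k then 1 else 0 : ℕ) := fun k i => rfl
  have e2 : ∀ (U : {U : Finset (Fin b) // U.card < h}) (i : Fin (c ^ (l + 1))),
      (if E ⊆ typ D (.inr (U, i) : RV b c h l) then 1 else 0) =
        (if E ⊆ U.1 then 1 else 0 : ℕ) := fun U i => rfl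
  congr 1
  · rw [Finset.mul_sum]
    apply Finset.sum_congr rfl
    intro k _
    rw [Finset.sum_congr rfl (fun i _ => e1 k i), Finset.sum_const, Finset.card_univ,
      Fintype.card_fin, smul_eq_mul]
    split_ifs <;> simp
  · rw [Finset.sum_congr rfl (fun U _ => Finset.sum_congr rfl (fun i _ => e2 U i))]
    simp only [Finset.sum_const, Finset.card_univ, Fintype.card_fin, smul_eq_mul]
    rw [← Finset.mul_sum]
    congr 1
    rw [Finset.card_filter]
    have : ∀ U : Finset (Fin b), (if U.card < h ∧ E ⊆ U then 1 else 0) =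
        if U.card < h then (if E ⊆ U then 1 else 0) else 0 := by
      intro U
      by_cases h1 : U.card < h <;> by_cases h2 : E ⊆ U <;> simp [h1, h2]
    simp only [this]
    have h3 : ∑ x : Finset (Fin b), (if x.card < h then (if E ⊆ x then 1 else 0) else 0) =
        ∑ U : {U : Finset (Fin b) // U.card < h}, if E ⊆ U.1 then 1 else 0 := by
      rw [← Finset.sum_filter]
      exact Finset.sum_subtype _ (by simp) _
    exact h3.symm

/-- the shift -/
def shiftOf {t : ℕ} (m : ℕ) (s : Fin t → ℕ) : Option (Fin t) → ℕ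
  | none => m
  | some j => s j

/-- the toggles -/
def togsOf {r t : ℕ} (I : Fin t → (Fin r → Fin c) → Prop) :
    Option (Fin t) → (Fin r → Fin c) → Prop
  | none => fun _ => True
  | some j => I j

/-- common neighbours for a partial transversal through vertex `o` of `V`. -/
lemma cnt_supp {r t m : ℕ} (s : Fin t → ℕ) (I : Fin t → (Fin r → Fin c) → Prop)
    (hs : ∀ j, s j ≤ m) (o : Option (Fin t)) (σ : Fin r → Finset (Fin b)) :
    cnt (adjA (m := m) D s I) (supp (mkτ o σ)) =
      shiftOf m s o + ∑ l : Fin r, ramp D l (σ l) + tog D (togsOf I o) σ := by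
  classical
  unfold cnt
  rw [Finset.card_filter, Fintype.sum_sum_type, Fintype.sum_sum_type, Fintype.sum_sigma]
  have e1 : (∑ β : Fin r → Fin c,
      if (∀ y ∈ supp (mkτ o σ), adjA (m := m) D s I y (.inl β)) then 1 else 0) =
      tog D (togsOf I o) σ := by
    rw [← Finset.card_filter]
    unfold tog
    congr 1
    ext β
    simp only [mem_filter, mem_univ, true_and, forall_supp]
    apply and_congr
    · rcases o with _ | j
      · simp [togsOf]
      · simp [adjV, togsOf]
    · simp only [adjW]
      constructor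
      · intro h l z hz
        exact h l z hz
      · intro h l z hz
        exact h l hz
  have e2 : (∑ l : Fin r, ∑ x : RV b c h (l : ℕ),
      if (∀ y ∈ supp (mkτ o σ), adjA (m := m) D s I y (.inr (.inl ⟨l, x⟩))) then 1 else 0) =
      ∑ l : Fin r, ramp D l (σ l) := by
    apply Finset.sum_congr rfl
    intro l _
    rw [← level_count]
    apply Finset.sum_congr rfl
    intro x _
    congr 1
    rw [forall_supp]
    simp only [adjV, adjW, implies_true, true_and, eq_iff_iff]
    constructor
    · intro h z hz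
      rcases h l z hz with h | h
      · exact absurd rfl h
      · exact h
    · intro h l' z hz
      by_cases hl : l = l'
      · subst hl
        exact Or.inr (h hz)
      · exact Or.inl hl
  have e3 : (∑ z : Fin m,
      if (∀ y ∈ supp (mkτ o σ), adjA (m := m) D s I y (.inr (.inr z))) then 1 else 0) =
      shiftOf m s o := by
    rw [← Finset.card_filter]
    have : ∀ z : Fin m, (∀ y ∈ supp (mkτ o σ), adjA (m := m) D s I y (.inr (.inr z))) ↔
        (∀ j : Fin t, o = some j → (z : ℕ) < s j) := by
      intro z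
      rw [forall_supp]
      simp [adjV, adjW]
    simp only [this]
    rcases o with _ | j
    · simp [shiftOf]
    · simp only [Option.some.injEq, forall_eq', shiftOf]
      rw [Fin.card_filter_val_lt]
      exact min_eq_right (hs j)
  have e4 : (∑ β : Fin r → Fin c,
      if (∀ y ∈ supp (mkτ o σ), adjA (m := m) D s I y (.inl β)) then 1 else 0) +
      ((∑ l : Fin r, ∑ x : RV b c h (l : ℕ),
      if (∀ y ∈ supp (mkτ o σ), adjA (m := m) D s I y (.inr (.inl ⟨l, x⟩))) then 1 else 0) +
      (∑ z : Fin m,
      if (∀ y ∈ supp (mkτ o σ), adjA (m := m) D s I y (.inr (.inr z))) then 1 else 0)) =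
      shiftOf m s o + ∑ l : Fin r, ramp D l (σ l) + tog D (togsOf I o) σ := by
    rw [e1, e2, e3]
    ring
  convert e4

theorem tot_group {r t m : ℕ} (s : Fin t → ℕ) (I : Fin t → (Fin r → Fin c) → Prop)
    (hs : ∀ j, s j ≤ m) :
    tot (SimpleGraph.completeMultipartiteGraph (Part b r t)) (adjA (m := m) D s I) =
      T D r m (fun _ => True) + ∑ j, T D r (s j) (I j) := by
  classical
  unfold tot
  rw [sum_clq_multi]
  have h1 : ∑ τ : ∀ i, Option (Part b r t i), 2 ^ cnt (adjA (m := m) D s I) (supp τ) =
      ∑ p : Option (Fin t) × (Fin r → Finset (Fin b)),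
        2 ^ cnt (adjA (m := m) D s I) (supp (mkτ p.1 p.2)) := by
    symm
    apply Fintype.sum_bijective
      (fun p : Option (Fin t) × (Fin r → Finset (Fin b)) => mkτ p.1 p.2)
    · constructor
      · rintro ⟨o, σ⟩ ⟨o', σ'⟩ h
        have h1 := congrFun h none
        have h2 : ∀ l x, (if x ∈ σ l then some () else none) =
            (if x ∈ σ' l then some () else none) := fun l x => congrFun h (some (l, x))
        simp only [mkτ] at h1
        rw [Prod.mk.injEq]
        refine ⟨h1, funext fun l => ?_⟩
        ext x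
        have h3 := h2 l x
        by_cases hx : x ∈ σ l <;> by_cases hx' : x ∈ σ' l <;> simp_all
      · intro τ
        refine ⟨⟨τ none, fun l => univ.filter fun x => τ (some (l, x)) = some ()⟩, ?_⟩
        funext i
        rcases i with _ | ⟨l, x⟩
        · rfl
        · simp only [mkτ, mem_filter, mem_univ, true_and]
          rcases hτ : τ (some (l, x)) with _ | u
          · simp
          · exact (if_pos rfl)
    · intro p; rfl
  rw [h1, Fintype.sum_prod_type]
  simp only [cnt_supp D s I hs]
  rw [Fintype.sum_option]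
  rfl

lemma card_XX (r m : ℕ) : Fintype.card (XX b c h r m) = m + P D r := by
  classical
  have h1 : ∀ l : ℕ, Fintype.card (RV b c h l) = ramp D l ∅ := by
    intro l
    rw [← level_count]
    simp
  rw [Fintype.card_sum, Fintype.card_sum, Fintype.card_sigma]
  unfold P totR
  simp only [h1]
  simp
  ring

lemma exists_avoid (hb : h < b) (x : Fin b) : ∃ k, x ∉ D.dg k := by
  classical
  obtain ⟨E, hE1, hE2⟩ := Finset.exists_subset_card_eq (s := univ.erase x) (n := h) (by
    rw [Finset.card_erase_of_mem (Finset.mem_univ x)]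
    simp
    omega)
  obtain ⟨k, hk⟩ := D.surj E hE2
  refine ⟨k, ?_⟩
  rw [hk]
  intro hx
  exact absurd rfl (Finset.ne_of_mem_erase (hE1 hx))

lemma tog_true_le (hb : h < b) {r : ℕ} (σ : Fin (r + 1) → Finset (Fin b)) (l : Fin (r + 1))
    (x : Fin b) (hx : x ∈ σ l) : tog D (fun _ => True) σ + c ^ r ≤ c ^ (r + 1) := by
  classical
  obtain ⟨k, hk⟩ := exists_avoid D hb x
  have h1 : tog D (fun _ => True) σ ≤ (univ.filter fun β : Fin (r + 1) → Fin c => β l ≠ k).card := by
    unfold tog
    apply Finset.card_le_card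
    intro β hβ
    simp only [mem_filter, mem_univ, true_and] at hβ ⊢
    intro hcon
    exact hk (hcon ▸ hβ l hx)
  have h2 : c ^ r ≤ (univ.filter fun β : Fin (r + 1) → Fin c => β l = k).card := by
    have : (univ : Finset (Fin r → Fin c)).card = c ^ r := by simp
    rw [← this]
    apply Finset.card_le_card_of_injOn (fun β => (Fin.insertNth l k β : Fin (r + 1) → Fin c))
    · intro β _
      simp
    · intro β _ β' _ hh
      have := congrArg (fun f : Fin (r + 1) → Fin c => fun i => f (l.succAbove i)) hh
      simpa using this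
  have h3 := Finset.card_filter_add_card_filter_not (s := (univ : Finset (Fin (r + 1) → Fin c)))
    (fun β => β l = k)
  have h4 : (univ : Finset (Fin (r + 1) → Fin c)).card = c ^ (r + 1) := by simp
  rw [h4] at h3
  simp only [ne_eq] at h1
  omega

lemma T_true_le (hb : h < b) {r m : ℕ} (hr : (r + 1) * b ≤ c ^ r) :
    T D (r + 1) m (fun _ => True) ≤ 2 ^ (m + P D (r + 1)) + 2 ^ (m + P D (r + 1)) := by
  classical
  unfold T
  rw [← Finset.add_sum_erase _ _ (Finset.mem_univ (fun _ => ∅ : Fin (r + 1) → Finset (Fin b)))]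
  apply add_le_add
  · apply Nat.pow_le_pow_right (by norm_num)
    have h2 := tog_le D (fun _ => True) (fun _ => ∅ : Fin (r + 1) → Finset (Fin b))
    show m + ∑ l : Fin (r + 1), ramp D l ∅ + tog D (fun _ => True)
      (fun _ => ∅ : Fin (r + 1) → Finset (Fin b)) ≤ m + P D (r + 1)
    unfold P totR
    omega
  · have hbd : ∀ σ ∈ univ.erase (fun _ => ∅ : Fin (r + 1) → Finset (Fin b)),
        2 ^ (m + ∑ l : Fin (r + 1), ramp D l (σ l) + tog D (fun _ => True) σ) ≤
          2 ^ (m + totR D (r + 1) + (c ^ (r + 1) - c ^ r)) := by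
      intro σ hσ
      have hne : σ ≠ fun _ => ∅ := Finset.ne_of_mem_erase hσ
      have : ∃ l x, x ∈ σ l := by
        by_contra hcon
        push Not at hcon
        apply hne
        funext l
        exact Finset.eq_empty_of_forall_notMem (hcon l)
      obtain ⟨l, x, hl⟩ := this
      apply Nat.pow_le_pow_right (by norm_num)
      have h1 := sum_ramp_le D σ
      have h2 := tog_true_le D hb σ l x hl
      omega
    refine (Finset.sum_le_sum hbd).trans ?_
    rw [Finset.sum_const, smul_eq_mul]
    have hcc : (univ.erase (fun _ => ∅ : Fin (r + 1) → Finset (Fin b))).card ≤ 2 ^ (c ^ r) := by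
      calc _ ≤ (univ : Finset (Fin (r + 1) → Finset (Fin b))).card := Finset.card_erase_le
        _ = 2 ^ ((r + 1) * b) := by simp [← pow_mul, mul_comm]
        _ ≤ 2 ^ (c ^ r) := Nat.pow_le_pow_right (by norm_num) hr
    have hle : c ^ r ≤ c ^ (r + 1) := by
      by_cases hc0 : c = 0
      · subst hc0
        have h5 := hr
        rcases r with _ | r
        · obtain ⟨k, _⟩ := exists_avoid D hb ⟨0, by omega⟩
          exact k.elim0
        · simp
      · exact Nat.pow_le_pow_right (Nat.pos_of_ne_zero hc0) (by omega)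
    calc _ ≤ 2 ^ (c ^ r) * 2 ^ (m + totR D (r + 1) + (c ^ (r + 1) - c ^ r)) :=
          Nat.mul_le_mul_right _ hcc
      _ = 2 ^ (m + P D (r + 1)) := by
        rw [← pow_add]
        congr 1
        unfold P
        omega

lemma le_T_true (r m : ℕ) : 2 ^ (m + P D r) ≤ T D r m (fun _ => True) := by
  classical
  unfold T
  have hh := Finset.single_le_sum (f := fun σ : Fin r → Finset (Fin b) =>
    2 ^ (m + ∑ l : Fin r, ramp D l (σ l) + tog D (fun _ => True) σ)) (fun _ _ => Nat.zero_le _)
    (Finset.mem_univ (fun _ => ∅ : Fin r → Finset (Fin b)))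
  refine le_trans ?_ hh
  apply Nat.pow_le_pow_right (by norm_num)
  have h2 : tog D (fun _ => True) (fun _ => ∅ : Fin r → Finset (Fin b)) = c ^ r := by
    simp [tog]
  show m + P D r ≤ m + ∑ l : Fin r, ramp D l ∅ + tog D (fun _ => True)
      (fun _ => ∅ : Fin r → Finset (Fin b))
  rw [h2]
  unfold P totR
  omega

/-- the contribution of the selectors alone -/
noncomputable def Hc (r K : ℕ) : ℕ := T D r (K - P D r) (fun _ => True) - 2 ^ K

lemma Hc_le (hb : h < b) {r K : ℕ} (hr : (r + 1) * b ≤ c ^ r) (hK : P D (r + 1) ≤ K) :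
    Hc D (r + 1) K ≤ 2 ^ K := by
  have hh := T_true_le D (m := K - P D (r + 1)) hb hr
  have e : K - P D (r + 1) + P D (r + 1) = K := by omega
  rw [e] at hh
  unfold Hc
  omega

theorem attain_group {r t K : ℕ} (s : Fin t → ℕ) (I : Fin t → (Fin r → Fin c) → Prop)
    (hK : P D r ≤ K) (hs : ∀ j, s j + P D r ≤ K) :
    Attain K (r * b + t) (Hc D r K + ∑ j, T D r (s j) (I j)) := by
  classical
  obtain ⟨m, rfl⟩ : ∃ m, K = m + P D r := ⟨K - P D r, by omega⟩
  have hs' : ∀ j, s j ≤ m := fun j => by have := hs j; omega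
  apply attain_of (SimpleGraph.completeMultipartiteGraph (Part b r t)) (adjA (m := m) D s I)
  · exact card_XX D r m
  · rw [Fintype.card_sigma, Fintype.sum_option]
    show Fintype.card (Fin t) + ∑ i : Fin r × Fin b, Fintype.card Unit = r * b + t
    simp
    ring
  · rw [tot_group D s I hs']
    have hh := le_T_true D r m
    unfold Hc
    have e : m + P D r - P D r = m := by omega
    rw [e]
    omega

end Pool.Agent.CliqueSharp
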