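import Pool.Agent.CliqueCount.NatMain
import Pool.Agent.CliqueSharp.Asym36
import Pool.Agent.CliqueSharp.Defs

set_option autoImplicit false

/-!
Module INTERVAL: all numbers from `n` to `2 ^ (n - (1/2 + ε) (lg n)^2 / lg lg n)` are clique counts.
-/

open Finset Filter
open Pool.Agent.CliqueCount (clq Attain Reach exists_graph lower_small)

namespace Pool.Agent.CliqueSharp

theorem interval_core {n L N C Y : ℕ}
    (hreach : ∀ K ≤ n, ∃ S y, Reach K S y (4 * L * 2 ^ K) ∧ S ≤ K ∧ K - S ≤ C ∧ y ≤ Y)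
    (hn : 40 ≤ n) (hN : n ≤ N) (hsmall : n * (2 * (4 * L + 4)) ≤ 2 ^ (n / 8))
    (hw : Y + C + 16 * L + 12 ≤ n) (hN2 : N + 1 ≤ 2 ^ (n - (Y + C + 16 * L + 12))) :
    ∃ G : SimpleGraph (Fin n), (clq G).card = N + 1 := by
  by_cases hbig : N + 1 ≤ 2 ^ (n / 8)
  · exact lower_small hn hN hbig
  push Not at hbig
  set k := Nat.log 2 (N + 1) with hk
  have hk1 : 2 ^ k ≤ N + 1 := Nat.pow_log_le_self 2 (by omega)
  have hk2 : N + 1 < 2 ^ (k + 1) := Nat.lt_pow_succ_log_self (by norm_num) _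
  clear_value k
  obtain ⟨x, hx1, hx2⟩ : ∃ x, 4 * L + 3 < 2 ^ x ∧ 2 ^ x ≤ 2 * (4 * L + 3) := by
    refine ⟨Nat.log 2 (4 * L + 3) + 1, Nat.lt_pow_succ_log_self (by norm_num) _, ?_⟩
    rw [pow_succ]
    have := Nat.pow_log_le_self 2 (x := 4 * L + 3) (by omega)
    omega
  have hx3 : 2 ^ x * n ≤ 2 ^ (n / 8) := by
    calc 2 ^ x * n ≤ (2 * (4 * L + 4)) * n := Nat.mul_le_mul_right _ (hx2.trans (by omega))
      _ = n * (2 * (4 * L + 4)) := by ring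
      _ ≤ 2 ^ (n / 8) := hsmall
  have hkx : x ≤ k := by
    by_contra hcon
    have h1 : 2 ^ (k + 1) ≤ 2 ^ x := Nat.pow_le_pow_right (by norm_num) (by omega)
    have h2 : 2 ^ x ≤ 2 ^ x * n := Nat.le_mul_of_pos_right _ (by omega)
    omega
  obtain ⟨K, rfl⟩ : ∃ K, k = K + x := ⟨k - x, by omega⟩
  have hn2K : n < 2 ^ (K + 1) := by
    have h2 : 2 ^ (K + x + 1) = 2 ^ x * 2 ^ (K + 1) := by rw [← pow_add]; congr 1; ring
    have h3 : 2 ^ x * n < 2 ^ x * 2 ^ (K + 1) := by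
      rw [← h2]
      exact (hx3.trans_lt hbig).trans hk2
    exact Nat.lt_of_mul_lt_mul_left h3
  have hkn : K + x ≤ n - (Y + C + 16 * L + 12) := by
    have : 2 ^ (K + x) ≤ 2 ^ (n - (Y + C + 16 * L + 12)) := hk1.trans hN2
    exact (Nat.pow_le_pow_iff_right (by norm_num)).1 this
  obtain ⟨S, y, hR, hS, hΔ, hy⟩ := hreach K (by omega)
  have hdiv : (N + 1) / 2 ^ K < 2 * 2 ^ x := by
    rw [Nat.div_lt_iff_lt_mul (by positivity)]
    calc N + 1 < 2 ^ (K + x + 1) := hk2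
      _ = 2 * 2 ^ x * 2 ^ K := by rw [pow_succ, pow_add]; ring
  have hmain : (4 * L + 4) * 2 ^ K ≤ N + 1 := by
    calc (4 * L + 4) * 2 ^ K ≤ 2 ^ x * 2 ^ K := Nat.mul_le_mul_right _ hx1
      _ = 2 ^ (K + x) := by rw [pow_add]; ring
      _ ≤ N + 1 := hk1
  have e1 : (4 * L + 4) * 2 ^ K = 4 * L * 2 ^ K + 4 * 2 ^ K := by ring
  have e2 : 2 ^ (K + 1) = 2 * 2 ^ K := by ring
  apply exists_graph hR hS
  · omega
  · omega
  · generalize (N + 1) / 2 ^ K = D at hdiv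
    omega
  · omega

lemma ic_pow {m : ℕ} (hm : 20 ≤ m) : 512 * (m + 1) ^ 2 + 64 * (m + 1) ≤ 2 ^ m := by
  induction m, hm using Nat.le_induction with
  | base => norm_num
  | succ k hk ih => rw [pow_succ 2 k]; nlinarith

lemma ic_small {n L : ℕ} (hn : 160 ≤ n) (hL : L + 1 ≤ n) :
    n * (2 * (4 * L + 4)) ≤ 2 ^ (n / 8) := by
  have h1 : 20 ≤ n / 8 := by omega
  have h2 := ic_pow h1
  have h3 : n ≤ 8 * (n / 8 + 1) := by omega
  generalize n / 8 = m at h1 h2 h3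
  refine le_trans ?_ h2
  calc n * (2 * (4 * L + 4)) ≤ n * (8 * n) := Nat.mul_le_mul_left _ (by omega)
    _ ≤ (8 * (m + 1)) * (8 * (8 * (m + 1))) := Nat.mul_le_mul h3 (Nat.mul_le_mul_left _ h3)
    _ ≤ 512 * (m + 1) ^ 2 + 64 * (m + 1) := by nlinarith

/-- INTERVAL, from the statement `reach_asym` for `δ = 0` and `ε / 2` -/
theorem interval_asym_of_reach (ε : ℝ) (hε : 0 < ε)
    (hreach : ∃ C : ℕ, ∀ᶠ n : ℕ in atTop, ∀ K : ℕ, K ≤ n → ∃ S y : ℕ,
      Reach K S y (4 * Nat.log 2 n * 2 ^ K) ∧ S ≤ K ∧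
      ((K - S : ℕ) : ℝ) ≤ C * (n : ℝ) ^ (0 : ℝ) ∧
      (y : ℝ) ≤ ((1 - (0 : ℝ) ^ 2) / 2 + ε / 2) * LL n) :
    ∀ᶠ n : ℕ in atTop, ∀ N : ℕ, n ≤ N →
    (N : ℝ) ≤ 2 ^ ((n : ℝ) - (1 / 2 + ε) * LL n) →
    ∃ G : SimpleGraph (Fin n), (clq G).card = N + 1 := by
  unfold LL at hreach
  unfold LL
  obtain ⟨C, hC⟩ := hreach
  have a1 := ev_nat (ev_linear (s := ε / 2) ((C : ℝ) + 29) (by positivity))
  have a2 := ev_nat (ev_logb_ge 1)
  have a3 := ev_nat (ev_pow_le (a := 1) (s := 1 / (1 / 2 + ε)) 2 one_pos (by positivity))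
  have a4 := ev_nat (eventually_ge_atTop (1 : ℝ))
  filter_upwards [hC, a1, a2, a3, a4, eventually_ge_atTop 160] with n h0 h1 h2 h3 h4 h5
  intro N hN hN2
  set l := Real.logb 2 n with hl
  set LLn := l ^ 2 / Real.logb 2 l with hLL
  have hn0 : (0 : ℝ) < n := by exact_mod_cast (by omega : 0 < n)
  have hnl : (2 : ℝ) ^ (1 * l) = n := by
    rw [one_mul, hl, Real.rpow_logb (by norm_num) (by norm_num) hn0]
  have hLL0 : 0 ≤ LLn := by
    rw [hLL]
    exact div_nonneg (sq_nonneg _) (by linarith)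
  have hLL1 : LLn ≤ l ^ 2 := by
    rw [hLL]
    exact div_le_self (sq_nonneg _) h2
  have hLL2 : (1 / 2 + ε) * LLn ≤ n := by
    rw [hnl] at h3
    have h6 : l ^ 2 * (1 / 2 + ε) ≤ n := by
      rw [one_div_mul_eq_div] at h3
      rwa [le_div_iff₀ (by positivity)] at h3
    nlinarith
  have hL : (Nat.log 2 n : ℝ) ≤ l := by
    rw [hl]
    exact Real.natLog_le_logb n 2
  have hL' : Nat.log 2 n + 1 ≤ n := by
    have := Nat.log_lt_self 2 (x := n) (by omega)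
    omega
  set Y := ⌊(1 / 2 + ε / 2) * LLn⌋₊ with hY
  have hY1 : (Y : ℝ) ≤ (1 / 2 + ε / 2) * LLn := Nat.floor_le (by positivity)
  have hsum : ((Y + C + 16 * Nat.log 2 n + 12 : ℕ) : ℝ) + 1 ≤ (1 / 2 + ε) * LLn := by
    push_cast
    have hC0 : (0 : ℝ) ≤ C := Nat.cast_nonneg _
    nlinarith
  have hw : Y + C + 16 * Nat.log 2 n + 12 ≤ n := by
    have : ((Y + C + 16 * Nat.log 2 n + 12 : ℕ) : ℝ) ≤ n := by linarith
    exact_mod_cast this
  apply interval_core (L := Nat.log 2 n) (C := C) (Y := Y) _ (by omega) hN (ic_small h5 hL') hw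
  · have h7 : ((N + 1 : ℕ) : ℝ) ≤ 2 * N := by
      push_cast
      have : (1 : ℝ) ≤ N := by exact_mod_cast (by omega : 1 ≤ N)
      linarith
    have h8 : (2 : ℝ) * N ≤ 2 ^ (((n - (Y + C + 16 * Nat.log 2 n + 12) : ℕ)) : ℝ) := by
      calc (2 : ℝ) * N ≤ 2 * 2 ^ ((n : ℝ) - (1 / 2 + ε) * LLn) := by linarith
        _ = 2 ^ (((n : ℝ) - (1 / 2 + ε) * LLn) + 1) := by
          rw [Real.rpow_add (by norm_num), Real.rpow_one]; ring
        _ ≤ _ := by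
          apply Real.rpow_le_rpow_of_exponent_le (by norm_num)
          rw [Nat.cast_sub hw]
          linarith
    have h9 := h7.trans h8
    rw [Real.rpow_natCast] at h9
    exact_mod_cast h9
  · intro K hK
    obtain ⟨S, y, b1, b2, b3, b4⟩ := h0 K hK
    refine ⟨S, y, b1, b2, ?_, ?_⟩
    · rw [Real.rpow_zero, mul_one] at b3
      exact_mod_cast b3
    · rw [hY]
      apply Nat.le_floor
      refine b4.trans (le_of_eq ?_)
      ring

end Pool.Agent.CliqueSharp
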