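import Mathlib

set_option autoImplicit false

namespace Pool.Agent.CliqueSharp

/-- the second-order term `(lg n)^2 / lg lg n` -/
noncomputable def LL (n : ℕ) : ℝ := Real.logb 2 n ^ 2 / Real.logb 2 (Real.logb 2 n)

end Pool.Agent.CliqueSharp
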