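import Pool.Agent.CliqueCount.NatMain
import Pool.Agent.CliqueSharp.Group
import Pool.Agent.CliqueSharp.LLDef

set_option autoImplicit false

open Finset Filter
open Pool.Agent.CliqueCount (clq mem_clq vals cmn dd lev Attain Reach attain_add attain_single
  attain_graph exists_graph lower_small card_clq_cover cover_or_small reach_zero)

namespace Pool.Agent.CliqueSharp

/-! ### module PROFILE -/

lemma profile_logb_tendsto : Tendsto (fun n : ℕ => Real.logb 2 (n : ℝ)) atTop atTop :=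
  (Real.tendsto_logb_atTop (by norm_num)).comp tendsto_natCast_atTop_atTop

lemma profile_LL_ge : ∀ᶠ n : ℕ in atTop, Real.logb 2 (n : ℝ) ≤ LL n := by
  filter_upwards [profile_logb_tendsto.eventually_ge_atTop 4] with n hn
  unfold LL
  set lam := Real.logb 2 (n : ℝ) with hlam
  have h1 : 0 < Real.logb 2 lam := Real.logb_pos (by norm_num) (by linarith)
  have h2 : Real.logb 2 lam ≤ lam := by
    rw [Real.logb_le_iff_le_rpow (by norm_num) (by linarith)]
    have h3 : lam < 2 ^ (⌊lam⌋₊ + 1) := by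
      have h4 : lam < ⌊lam⌋₊ + 1 := Nat.lt_floor_add_one lam
      have h5 : (⌊lam⌋₊ : ℝ) + 1 ≤ 2 ^ (⌊lam⌋₊ + 1) / 2 * 1 := by
        have h6 : ⌊lam⌋₊ + 1 ≤ 2 ^ ⌊lam⌋₊ := Nat.lt_two_pow_self
        have h7 : ((⌊lam⌋₊ + 1 : ℕ) : ℝ) ≤ ((2 ^ ⌊lam⌋₊ : ℕ) : ℝ) := by exact_mod_cast h6
        push_cast at h7
        rw [pow_succ]; linarith
      have h8 : (0 : ℝ) < 2 ^ (⌊lam⌋₊ + 1) := by positivity
      linarith
    have h9 : (⌊lam⌋₊ : ℝ) + 1 ≤ 2 ^ (⌊lam⌋₊ : ℕ) := by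
      have h6 : ⌊lam⌋₊ + 1 ≤ 2 ^ ⌊lam⌋₊ := Nat.lt_two_pow_self
      exact_mod_cast h6
    have h10 : lam ≤ 2 ^ (⌊lam⌋₊ : ℕ) := (Nat.lt_floor_add_one lam).le.trans h9
    refine h10.trans ?_
    rw [← Real.rpow_natCast]
    exact Real.rpow_le_rpow_of_exponent_le (by norm_num) (Nat.floor_le (by linarith))
  rw [le_div_iff₀ h1]
  nlinarith

lemma profile_LL_tendsto : Tendsto (fun n : ℕ => LL n) atTop atTop :=
  tendsto_atTop_mono' _ profile_LL_ge profile_logb_tendsto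

lemma profile_LL_le (A s : ℝ) (hA : 0 < A) (hs : 0 < s) :
    ∀ᶠ n : ℕ in atTop, A * LL n ≤ (n : ℝ) ^ s := by
  have h1 := (isLittleO_log_rpow_rpow_atTop (2 : ℝ) hs).comp_tendsto
    (tendsto_natCast_atTop_atTop (R := ℝ))
  have h2 := h1.bound (c := (Real.log 2) ^ 2 / A) (by positivity)
  filter_upwards [profile_logb_tendsto.eventually_ge_atTop 4, h2, eventually_ge_atTop 1]
    with n hn h3 hn1
  simp only [Function.comp_apply, Real.norm_eq_abs] at h3
  have hnpos : (1 : ℝ) ≤ n := by exact_mod_cast hn1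
  have hlog : 0 ≤ Real.log n := Real.log_nonneg hnpos
  rw [abs_of_nonneg (by positivity), abs_of_nonneg (by positivity), Real.rpow_two] at h3
  have h4 : 1 ≤ Real.logb 2 (Real.logb 2 (n : ℝ)) := by
    rw [Real.le_logb_iff_rpow_le (by norm_num) (by linarith)]
    rw [Real.rpow_one]; linarith
  have h5 : LL n ≤ Real.logb 2 (n : ℝ) ^ 2 := by
    unfold LL
    exact div_le_self (by positivity) h4
  have h6 : Real.logb 2 (n : ℝ) = Real.log n / Real.log 2 := rfl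
  have hl2 : 0 < Real.log 2 := Real.log_pos (by norm_num)
  calc A * LL n ≤ A * Real.logb 2 (n : ℝ) ^ 2 := by
        apply mul_le_mul_of_nonneg_left h5 hA.le
    _ = A * (Real.log n) ^ 2 / (Real.log 2) ^ 2 := by rw [h6, div_pow]; ring
    _ ≤ A * ((Real.log 2) ^ 2 / A * (n : ℝ) ^ s) / (Real.log 2) ^ 2 := by
        gcongr
    _ = (n : ℝ) ^ s := by field_simp

lemma profile_attain {K y h : ℕ} (a : Attain K y h) (q : ℕ) : Attain K (y + q) (h + q) := by
  induction q with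
  | zero => simpa using a
  | succ q ih =>
    have h1 : Attain K 1 (2 ^ 0) := attain_single (Nat.zero_le _)
    have h2 := attain_add ih h1
    simpa [Nat.add_assoc] using h2

lemma profile_count {n K S y B Y : ℕ} (hR : Reach K S y B) (hy : y ≤ Y) (hn : K + Y = n) :
    2 ^ S ≤ {N ∈ vals n | 2 ^ K ≤ N}.ncard := by
  classical
  have hex : ∀ τ : ℕ, ∃ h : ℕ, Attain K y h ∧ (h : ℤ) ≡ (τ : ℤ) [ZMOD 2 ^ S] := by
    intro τ
    obtain ⟨h, h1, h2, -⟩ := hR (τ : ℤ)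
    exact ⟨h, h1, h2⟩
  choose f hf1 hf2 using hex
  have hfin : (vals n).Finite := by
    have : vals n = Set.range (fun G : SimpleGraph (Fin n) => (clq G).card) := by
      ext N; rfl
    rw [this]
    exact Set.finite_range _
  have hinj : Set.InjOn (fun τ : ℕ => 2 ^ K + (f τ + (Y - y))) (↑(range (2 ^ S)) : Set ℕ) := by
    intro τ hτ τ' hτ' he
    simp only [coe_range, Set.mem_Iio] at hτ hτ'
    simp only at he
    have he' : f τ = f τ' := by omega
    have h1 := hf2 τ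
    have h2 := hf2 τ'
    rw [he'] at h1
    have h3 : (τ : ℤ) ≡ (τ' : ℤ) [ZMOD 2 ^ S] := h1.symm.trans h2
    have h4 : (τ : ℤ) ≡ (τ' : ℤ) [ZMOD ((2 ^ S : ℕ) : ℤ)] := by exact_mod_cast h3
    have h5 : τ ≡ τ' [MOD 2 ^ S] := (Int.natCast_modEq_iff).1 h4
    exact Nat.ModEq.eq_of_lt_of_lt h5 hτ hτ'
  have hsub : (fun τ : ℕ => 2 ^ K + (f τ + (Y - y))) '' (↑(range (2 ^ S)) : Set ℕ) ⊆
      {N ∈ vals n | 2 ^ K ≤ N} := by
    rintro _ ⟨τ, -, rfl⟩
    refine ⟨?_, Nat.le_add_right _ _⟩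
    have h1 := profile_attain (hf1 τ) (Y - y)
    rw [Nat.add_sub_cancel' hy] at h1
    obtain ⟨G, hG⟩ := attain_graph h1
    subst hn
    exact ⟨G, hG⟩
  calc 2 ^ S = ((fun τ : ℕ => 2 ^ K + (f τ + (Y - y))) '' (↑(range (2 ^ S)) : Set ℕ)).ncard := by
        rw [hinj.ncard_image, Set.ncard_coe_finset, card_range]
    _ ≤ _ := Set.ncard_le_ncard hsub (hfin.subset (fun N hN => hN.1))

/-- `profile_lower` from the statement `reach_asym` -/
theorem profile_lower_of_reach (δ ε : ℝ) (hδ0 : 0 < δ) (hδ1 : δ < 1) (hε : 0 < ε)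
    (hreach : ∃ C : ℕ, ∀ᶠ n : ℕ in atTop, ∀ K : ℕ, K ≤ n → ∃ S y : ℕ,
      Reach K S y (4 * Nat.log 2 n * 2 ^ K) ∧ S ≤ K ∧
      ((K - S : ℕ) : ℝ) ≤ C * (n : ℝ) ^ δ ∧
      (y : ℝ) ≤ ((1 - δ ^ 2) / 2 + ε / 2) * LL n) :
    ∀ᶠ n : ℕ in atTop, (2 : ℝ) ^ ((n : ℝ) - (n : ℝ) ^ (δ + ε)) ≤
      (({N ∈ vals n | (2 : ℝ) ^ ((n : ℝ) - ((1 - δ ^ 2) / 2 + ε) * LL n) ≤ N}.ncard : ℕ) : ℝ) := by
  obtain ⟨C, hC⟩ := hreach
  have hsq : 0 < 1 - δ ^ 2 := by nlinarith
  set c' := (1 - δ ^ 2) / 2 + ε / 2 with hc'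
  set c := (1 - δ ^ 2) / 2 + ε with hc
  have hcpos : 0 < c := by rw [hc]; linarith
  have hc'pos : 0 < c' := by rw [hc']; linarith
  have hpow : Tendsto (fun n : ℕ => (n : ℝ) ^ ε) atTop atTop :=
    (tendsto_rpow_atTop hε).comp tendsto_natCast_atTop_atTop
  filter_upwards [hC, profile_LL_tendsto.eventually_ge_atTop (2 / ε),
    profile_LL_le (2 * c) (δ + ε) (by linarith) (by linarith),
    profile_LL_le c 1 hcpos one_pos, hpow.eventually_ge_atTop (2 * C), eventually_ge_atTop 1]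
    with n hn h1 h2 h3 h4 hn1
  have hnpos : (0 : ℝ) < n := by exact_mod_cast hn1
  rw [Real.rpow_one] at h3
  have hLLpos : 0 < LL n := lt_of_lt_of_le (by positivity) h1
  set Y := ⌈c' * LL n⌉₊ with hY
  have hYle : (Y : ℝ) ≤ c * LL n := by
    have h5 : (Y : ℝ) < c' * LL n + 1 := Nat.ceil_lt_add_one (by positivity)
    have h6 : c * LL n = c' * LL n + ε / 2 * LL n := by rw [hc, hc']; ring
    have h7 : 1 ≤ ε / 2 * LL n := by
      calc (1 : ℝ) = ε / 2 * (2 / ε) := by field_simp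
        _ ≤ ε / 2 * LL n := by gcongr
    linarith
  have hYn : Y ≤ n := by
    have : (Y : ℝ) ≤ n := hYle.trans h3
    exact_mod_cast this
  obtain ⟨S, y, hR, hSK, hKS, hy⟩ := hn (n - Y) (Nat.sub_le _ _)
  have hyY : y ≤ Y := by
    have : (y : ℝ) ≤ Y := hy.trans (Nat.le_ceil _)
    exact_mod_cast this
  have hcount := profile_count hR hyY (Nat.sub_add_cancel hYn)
  have hfin : (vals n).Finite := by
    have : vals n = Set.range (fun G : SimpleGraph (Fin n) => (clq G).card) := by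
      ext N; rfl
    rw [this]
    exact Set.finite_range _
  have hsub : {N ∈ vals n | 2 ^ (n - Y) ≤ N} ⊆
      {N ∈ vals n | (2 : ℝ) ^ ((n : ℝ) - c * LL n) ≤ N} := by
    rintro N ⟨hN1, hN2⟩
    refine ⟨hN1, ?_⟩
    have h5 : (2 : ℝ) ^ ((n - Y : ℕ) : ℝ) ≤ N := by
      rw [Real.rpow_natCast]
      exact_mod_cast hN2
    refine le_trans (Real.rpow_le_rpow_of_exponent_le (by norm_num) ?_) h5
    rw [Nat.cast_sub hYn]
    linarith
  have hcard := Set.ncard_le_ncard hsub (hfin.subset (fun N hN => hN.1))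
  have hfinal : (2 : ℝ) ^ ((n : ℝ) - (n : ℝ) ^ (δ + ε)) ≤ ((2 ^ S : ℕ) : ℝ) := by
    push_cast
    rw [← Real.rpow_natCast]
    refine Real.rpow_le_rpow_of_exponent_le (by norm_num) ?_
    have h5 : ((n - Y - S : ℕ) : ℝ) = (n : ℝ) - Y - S := by
      rw [Nat.cast_sub hSK, Nat.cast_sub hYn]
    rw [h5] at hKS
    have h6 : (C : ℝ) * (n : ℝ) ^ δ ≤ (n : ℝ) ^ (δ + ε) / 2 := by
      rw [Real.rpow_add hnpos]
      have h7 : 0 ≤ (n : ℝ) ^ δ := by positivity
      nlinarith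
    linarith
  refine hfinal.trans ?_
  exact_mod_cast hcount.trans hcard

end Pool.Agent.CliqueSharp
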