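import Pool.Agent.CliqueSharp.Reach
import Pool.Agent.CliqueSharp.CodeEx
import Pool.Agent.CliqueSharp.LLDef
import Pool.Agent.CliqueCount.Lower

set_option autoImplicit false

open Finset Filter
open Pool.Agent.CliqueCount (Reach reach_zero)

/-!
# Real asymptotics of the encoding (module REACHASYM)
-/

namespace Pool.Agent.CliqueSharp

/-- the error terms of the asymptotic computation -/
lemma ra_err (η ε R M : ℝ) (hη : 0 < η) (hη1 : η ≤ 1 / 2) (hε : 0 < ε) (hR : 0 ≤ R)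
    (hM : 0 ≤ M) : ∀ᶠ x : ℝ in atTop,
      2 * (1 + η) * x + (x + 1) * (R + M * x ^ (1 - η)) ≤ ε * (x ^ 2 / Real.logb 2 x) := by
  have h1 : Tendsto (fun x : ℝ => x ^ (η / 2)) atTop atTop := tendsto_rpow_atTop (by linarith)
  have h2 : ∀ᶠ x : ℝ in atTop, (4 + 2 * R + 2 * M) / ε ≤ x ^ (η / 2) := h1.eventually_ge_atTop _
  have h3 : ∀ᶠ x : ℝ in atTop, Real.logb 2 x ≤ x ^ (η / 2) := by
    have := (isLittleO_log_rpow_atTop (r := η / 2) (by linarith)).bound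
      (show (0 : ℝ) < Real.log 2 from Real.log_pos (by norm_num))
    filter_upwards [this, eventually_ge_atTop (1 : ℝ)] with x hx hx1
    have hl : 0 ≤ Real.log x := Real.log_nonneg hx1
    have hp : 0 ≤ x ^ (η / 2) := Real.rpow_nonneg (by linarith) _
    rw [Real.norm_eq_abs, Real.norm_eq_abs, abs_of_nonneg hl, abs_of_nonneg hp] at hx
    unfold Real.logb
    rw [div_le_iff₀ (Real.log_pos (by norm_num))]
    linarith
  filter_upwards [h2, h3, eventually_gt_atTop (1 : ℝ)] with x e2 e3 e4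
  have hx0 : 0 < x := by linarith
  have hl : 0 < Real.logb 2 x := Real.logb_pos (by norm_num) e4
  have hpe : 0 < x ^ (η / 2) := Real.rpow_pos_of_pos hx0 _
  -- the power x ^ (2 - η)
  have hP : 0 < x ^ (2 - η) := Real.rpow_pos_of_pos hx0 _
  have k1 : x ≤ x ^ (2 - η) := by
    conv_lhs => rw [← Real.rpow_one x]
    exact Real.rpow_le_rpow_of_exponent_le e4.le (by linarith)
  have k2 : x * x ^ (1 - η) = x ^ (2 - η) := by
    conv_lhs => rw [← Real.rpow_one x]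
    rw [← Real.rpow_mul hx0.le, one_mul, ← Real.rpow_add hx0]
    congr 1
    ring
  have k3 : x ^ 2 = x ^ (2 - η) * x ^ (η / 2) * x ^ (η / 2) := by
    rw [← Real.rpow_add hx0, ← Real.rpow_add hx0, ← Real.rpow_natCast]
    congr 1
    push_cast
    ring
  have k4 : x ^ (2 - η) * x ^ (η / 2) ≤ x ^ 2 / Real.logb 2 x := by
    rw [le_div_iff₀ hl, k3]
    exact mul_le_mul_of_nonneg_left e3 (by positivity)
  have k5 : x ^ (1 - η) ≤ x ^ (2 - η) := Real.rpow_le_rpow_of_exponent_le e4.le (by linarith)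
  have k6 : (4 + 2 * R + 2 * M) ≤ ε * x ^ (η / 2) := by
    rw [div_le_iff₀ hε] at e2
    linarith
  calc 2 * (1 + η) * x + (x + 1) * (R + M * x ^ (1 - η))
      ≤ 4 * x + 2 * x * (R + M * x ^ (1 - η)) := by
        have h5 : 0 ≤ x ^ (1 - η) := Real.rpow_nonneg hx0.le _
        have h6 : 0 ≤ R + M * x ^ (1 - η) := by positivity
        nlinarith
    _ = 4 * x + 2 * R * x + 2 * M * x ^ (2 - η) := by
        rw [← k2]
        ring
    _ ≤ (4 + 2 * R + 2 * M) * x ^ (2 - η) := by nlinarith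
    _ ≤ ε * x ^ (η / 2) * x ^ (2 - η) := mul_le_mul_of_nonneg_right k6 hP.le
    _ = ε * (x ^ (2 - η) * x ^ (η / 2)) := by ring
    _ ≤ ε * (x ^ 2 / Real.logb 2 x) := mul_le_mul_of_nonneg_left k4 hε.le

/-- the main term of the asymptotic computation -/
lemma ra_main (A η ε L : ℝ) (hA0 : 0 ≤ A) (hA : A ≤ 1 / 2) (hη : 0 < η) (hη1 : η ≤ 1 / 2)
    (hηε : η ≤ ε / 8) (hε : 0 < ε) (hL : 0 < L) : ∀ᶠ x : ℝ in atTop,
      L < (1 - η) * Real.logb 2 x - L ∧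
      A * (1 + η) * (x ^ 2 / ((1 - η) * Real.logb 2 x - L)) ≤
        (A + ε / 2) * (x ^ 2 / Real.logb 2 x) := by
  have h1 : Tendsto (fun x : ℝ => Real.logb 2 x) atTop atTop :=
    Real.tendsto_logb_atTop (by norm_num)
  have h2 := h1.eventually_gt_atTop ((A + ε / 2) * L * (8 / ε))
  have h3 := h1.eventually_gt_atTop (4 * L)
  filter_upwards [h2, h3, eventually_gt_atTop (1 : ℝ)] with x e2 e3 e4
  have hl : 0 < Real.logb 2 x := Real.logb_pos (by norm_num) e4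
  set ℓ := Real.logb 2 x with hℓ
  have h5 : L < (1 - η) * ℓ - L := by nlinarith
  refine ⟨h5, ?_⟩
  have h6 : 0 < (1 - η) * ℓ - L := by linarith
  rw [← mul_div_assoc, ← mul_div_assoc, div_le_div_iff₀ h6 hl]
  have h7 : A * (1 + η) * ℓ ≤ (A + ε / 2) * ((1 - η) * ℓ - L) := by
    have h8 : (A + ε / 2) * L ≤ ℓ * (ε / 8) := by
      have : (A + ε / 2) * L * (8 / ε) * (ε / 8) ≤ ℓ * (ε / 8) :=
        mul_le_mul_of_nonneg_right e2.le (by positivity)
      have e : (A + ε / 2) * L * (8 / ε) * (ε / 8) = (A + ε / 2) * L := by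
        field_simp
      rwa [e] at this
    have h9 : ε / 8 ≤ (A + ε / 2) * (1 - η) - A * (1 + η) := by nlinarith
    have h10 : ℓ * (ε / 8) ≤ ℓ * ((A + ε / 2) * (1 - η) - A * (1 + η)) :=
      mul_le_mul_of_nonneg_left h9 hl.le
    linarith
  have hx2 : 0 ≤ x ^ 2 := by positivity
  calc A * (1 + η) * x ^ 2 * ℓ = (A * (1 + η) * ℓ) * x ^ 2 := by ring
    _ ≤ ((A + ε / 2) * ((1 - η) * ℓ - L)) * x ^ 2 := mul_le_mul_of_nonneg_right h7 hx2
    _ = (A + ε / 2) * x ^ 2 * ((1 - η) * ℓ - L) := by ring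

lemma ra_sum (A B : ℝ) {u Q : ℕ} (h : u ≤ Q) : ∑ q ∈ Icc u Q, (A + B * (q : ℝ)) =
    ((Q : ℝ) - u + 1) * A + B * (((Q : ℝ) - u + 1) * (Q + u) / 2) := by
  induction Q, h using Nat.le_induction with
  | base => simp
  | succ k hk ih =>
    rw [Finset.sum_Icc_succ_top (by omega), ih]
    push_cast
    ring

/-- the quadratic sum -/
lemma ra_quad {δ q0 : ℝ} (hδ0 : 0 ≤ δ) (hδ1 : δ ≤ 1) (hq : 0 ≤ q0) {u Q : ℕ} (hQ : (Q : ℝ) ≤ q0)
    (hu : u = min Q ⌊δ * q0⌋₊) :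
    ((Q : ℝ) - u + 1) * (Q + u) / 2 ≤ (1 - δ ^ 2) / 2 * q0 ^ 2 + 2 * q0 := by
  have hQ0 : (0 : ℝ) ≤ Q := Nat.cast_nonneg Q
  have hu0 : (0 : ℝ) ≤ u := Nat.cast_nonneg u
  have hδ2 : δ ^ 2 ≤ 1 := by nlinarith
  rcases le_total Q ⌊δ * q0⌋₊ with h | h
  · rw [min_eq_left h] at hu
    subst hu
    nlinarith
  · rw [min_eq_right h] at hu
    have h1 : δ * q0 < u + 1 := by
      rw [hu]
      exact Nat.lt_floor_add_one _
    have h2 : (u : ℝ) ≤ δ * q0 := by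
      rw [hu]
      exact Nat.floor_le (by positivity)
    have h3 : (δ * q0) ^ 2 - 2 * (δ * q0) ≤ (u : ℝ) ^ 2 := by nlinarith
    have h4 : δ * q0 ≤ q0 := by nlinarith
    have h5 : (Q : ℝ) ^ 2 ≤ q0 ^ 2 := by nlinarith
    nlinarith


lemma ra_r0 (b : ℕ) {c : ℕ} (hc : 2 ≤ c) : ∃ r₀, ∀ r, r₀ ≤ r → (r + 2) * b ≤ c ^ r := by
  have key : ∀ r, 4 ≤ r → (r + 2) * r ≤ 2 * 2 ^ r := by
    intro r hr
    induction r, hr using Nat.le_induction with
    | base => norm_num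
    | succ k hk ih => rw [pow_succ]; nlinarith
  refine ⟨2 * b + 4, fun r hr => ?_⟩
  have h1 := key r (by omega)
  have h2 : 2 * ((r + 2) * b) ≤ 2 * 2 ^ r := by
    calc 2 * ((r + 2) * b) = (r + 2) * (2 * b) := by ring
      _ ≤ (r + 2) * r := Nat.mul_le_mul_left _ (by omega)
      _ ≤ 2 * 2 ^ r := h1
  have h3 : (r + 2) * b ≤ 2 ^ r := by omega
  exact h3.trans (Nat.pow_le_pow_left hc r)

/-- one value of `n` and `K`, large `K` -/
lemma ra_one {b c h : ℕ} (D : Code b c h) (hb : h < b) (hc : 2 ≤ c) {r₀ : ℕ}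
    (hr : ∀ r, r₀ ≤ r → (r + 2) * b ≤ c ^ r) {δ η : ℝ} (hδ0 : 0 ≤ δ) (hδ1 : δ ≤ 1)
    (hη : 0 < η) (hbc : (b : ℝ) ≤ (1 + η) * Real.logb 2 c) {n K a : ℕ}
    (ha : 1 ≤ a) (hn : 1 < Real.logb 2 n)
    (h1 : (a : ℝ) * Real.logb 2 c ≤ (1 - η) * Real.logb 2 (Real.logb 2 n))
    (h2 : (1 - η) * Real.logb 2 (Real.logb 2 n) - Real.logb 2 c ≤ a * Real.logb 2 c)
    (h3 : 0 < (1 - η) * Real.logb 2 (Real.logb 2 n) - Real.logb 2 c)
    (hKn : K ≤ n) (hK : 2 ^ (b + 4) * c ^ (r₀ + 1) ≤ K) :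
    ∃ S y : ℕ, Reach K S y (4 * Nat.log 2 n * 2 ^ K) ∧ S ≤ K ∧
      ((K - S : ℕ) : ℝ) ≤ (2 ^ (b + 4) * c ^ (r₀ + 1) : ℕ) * (n : ℝ) ^ δ ∧
      (y : ℝ) ≤ (1 - δ ^ 2) / 2 * (1 + η) * (Real.logb 2 n ^ 2 /
          ((1 - η) * Real.logb 2 (Real.logb 2 n) - Real.logb 2 c)) +
        (2 * (1 + η) * Real.logb 2 n + (Real.logb 2 n + 1) * ((r₀ + 1) * b +
          2 ^ (b + 4) * Real.logb 2 n ^ (1 - η))) := by
  set x := Real.logb 2 n with hx
  set ℓ := Real.logb 2 x with hℓ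
  set L := Real.logb 2 c with hL
  set M0 := 2 ^ (b + 4) * c ^ (r₀ + 1) with hM0
  have hc' : (2 : ℝ) ≤ c := by exact_mod_cast hc
  have hc0 : (0 : ℝ) < c := by linarith
  have hL1 : 1 ≤ L := by
    rw [hL, Real.le_logb_iff_rpow_le (by norm_num) hc0, Real.rpow_one]
    exact hc'
  have hn0 : 0 < n := by
    rcases Nat.eq_zero_or_pos n with h0 | h0
    · exfalso
      rw [hx, h0] at hn
      simp at hn
      linarith
    · exact h0
  have hn0' : (0 : ℝ) < n := by exact_mod_cast hn0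
  have hM1 : 2 ≤ M0 := by
    have e1 : 1 ≤ c ^ (r₀ + 1) := Nat.one_le_pow _ _ (by omega)
    have e2 : 2 ≤ 2 ^ (b + 4) := by
      calc 2 = 2 ^ 1 := rfl
        _ ≤ 2 ^ (b + 4) := Nat.pow_le_pow_right (by norm_num) (by omega)
    calc 2 = 2 * 1 := rfl
      _ ≤ M0 := Nat.mul_le_mul e2 e1
  have hca : 1 < c ^ a := Nat.one_lt_pow (by omega) (by omega)
  set Q := Nat.log (c ^ a) (K / M0) with hQ
  have hKM : K / M0 ≠ 0 := by
    have : 1 ≤ K / M0 := (Nat.le_div_iff_mul_le (by omega)).2 (by omega)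
    omega
  have e1 : (c ^ a) ^ Q ≤ K / M0 := Nat.pow_log_le_self _ hKM
  have e2 : K / M0 < (c ^ a) ^ (Q + 1) := Nat.lt_pow_succ_log_self hca _
  have e3 : M0 * (c ^ a) ^ Q ≤ K := by
    rw [mul_comm]
    exact (Nat.le_div_iff_mul_le (by omega)).1 e1
  have e4 : K < M0 * (c ^ a) ^ (Q + 1) := by
    rw [mul_comm]
    exact (Nat.div_lt_iff_lt_mul (by omega)).1 e2
  have e5 : ∀ q, 2 ^ (b + 4) * c ^ (r₀ + 1 + a * q) = M0 * (c ^ a) ^ q := by
    intro q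
    rw [hM0, pow_add c, pow_mul, mul_assoc]
  -- the logarithm of a power of `c`
  have hpow : ∀ k : ℕ, (c : ℝ) ^ k = (2 : ℝ) ^ (k * L) := by
    intro k
    rw [mul_comm, Real.rpow_mul (by norm_num), hL, Real.rpow_logb (by norm_num) (by norm_num) hc0,
      Real.rpow_natCast]
  have hnx : (n : ℝ) = (2 : ℝ) ^ x := by
    rw [hx, Real.rpow_logb (by norm_num) (by norm_num) hn0']
  have haL : 0 < (a : ℝ) * L := by
    have : (1 : ℝ) ≤ a := by exact_mod_cast ha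
    nlinarith
  have haL1 : 1 ≤ (a : ℝ) * L := by
    have : (1 : ℝ) ≤ a := by exact_mod_cast ha
    nlinarith
  set q0 := x / (a * L) with hq0
  have hx0 : 0 < x := by linarith
  have hq00 : 0 ≤ q0 := by positivity
  have hQq : (Q : ℝ) ≤ q0 := by
    rw [hq0, le_div_iff₀ haL]
    have f1 : (c : ℝ) ^ (a * Q) ≤ n := by
      have : c ^ (a * Q) ≤ n := by
        calc c ^ (a * Q) = 1 * (c ^ a) ^ Q := by rw [one_mul, pow_mul]
          _ ≤ M0 * (c ^ a) ^ Q := Nat.mul_le_mul_right _ (by omega)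
          _ ≤ K := e3
          _ ≤ n := hKn
      exact_mod_cast this
    rw [hpow, hnx, Real.rpow_le_rpow_left_iff (by norm_num)] at f1
    push_cast at f1
    linarith
  set u := min Q ⌊δ * q0⌋₊ with hu
  have huQ : u ≤ Q := min_le_left _ _
  have hiu : Q - (Q - u) = u := by omega
  obtain ⟨S, y, g1, g2, g3, g4⟩ := reach_iter D hb hc (K := K) (r₀ := r₀) (a := a) (Q := Q) hr
    (by rw [e5]; exact e3) (by rw [e5]; exact e4) (Q - u) (by omega)
  rw [hiu] at g3 g4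
  refine ⟨S, y, g1.mono ?_, g2, ?_, ?_⟩
  · have f1 : 2 ^ (Q + 1) ≤ n := by
      calc 2 ^ (Q + 1) = 2 * 2 ^ Q := by rw [pow_succ]; ring
        _ ≤ M0 * (c ^ a) ^ Q := Nat.mul_le_mul hM1 (Nat.pow_le_pow_left (by omega) Q)
        _ ≤ K := e3
        _ ≤ n := hKn
    have f2 : Q + 1 ≤ Nat.log 2 n := Nat.le_log_of_pow_le (by norm_num) f1
    calc (Q - u + 1) * (2 * 2 ^ K) = 2 * (Q - u + 1) * 2 ^ K := by ring
      _ ≤ 4 * Nat.log 2 n * 2 ^ K := Nat.mul_le_mul_right _ (by omega)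
  · have f1 : ((K - S : ℕ) : ℝ) ≤ (M0 * (c ^ a) ^ u : ℕ) := by
      rw [e5] at g3
      exact_mod_cast g3.le
    refine f1.trans ?_
    push_cast
    refine mul_le_mul_of_nonneg_left ?_ (by positivity)
    rw [← pow_mul, hpow, hnx, ← Real.rpow_mul (by norm_num),
      Real.rpow_le_rpow_left_iff (by norm_num)]
    have f2 : (u : ℝ) ≤ δ * q0 := by
      have f3 : (u : ℝ) ≤ ⌊δ * q0⌋₊ := by exact_mod_cast min_le_right _ _
      exact f3.trans (Nat.floor_le (by positivity))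
    have f4 : (u : ℝ) * (a * L) ≤ δ * q0 * (a * L) := mul_le_mul_of_nonneg_right f2 haL.le
    have f5 : q0 * (a * L) = x := by rw [hq0]; field_simp
    push_cast
    calc (a : ℝ) * u * L = u * (a * L) := by ring
      _ ≤ δ * q0 * (a * L) := f4
      _ = δ * (q0 * (a * L)) := by ring
      _ = x * δ := by rw [f5]; ring
  · have f1 : (y : ℝ) ≤ ∑ q ∈ Icc u Q, ((((r₀ : ℝ) + 1) * b + 2 ^ (b + 4) * c ^ a) +
        ((a : ℝ) * b) * (q : ℝ)) := by
      have : (y : ℝ) ≤ ((∑ q ∈ Icc u Q, ((r₀ + 1 + a * q) * b + 2 ^ (b + 4) * c ^ a) : ℕ) : ℝ) := by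
        exact_mod_cast g4
      refine this.trans (le_of_eq ?_)
      push_cast
      refine Finset.sum_congr rfl (fun q _ => ?_)
      ring
    rw [ra_sum _ _ huQ] at f1
    have hquad := ra_quad hδ0 hδ1 hq00 hQq hu
    have hu0 : (0 : ℝ) ≤ u := Nat.cast_nonneg u
    have hb0 : (0 : ℝ) ≤ b := Nat.cast_nonneg b
    have ha0 : (0 : ℝ) ≤ a := Nat.cast_nonneg a
    have hqx : q0 ≤ x := by
      rw [hq0]
      exact div_le_self hx0.le haL1
    have f2 : (Q : ℝ) - u + 1 ≤ x + 1 := by linarith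
    have f3 : (c : ℝ) ^ a ≤ x ^ (1 - η) := by
      rw [hpow]
      have : x ^ (1 - η) = (2 : ℝ) ^ ((1 - η) * ℓ) := by
        rw [mul_comm, Real.rpow_mul (by norm_num), hℓ,
          Real.rpow_logb (by norm_num) (by norm_num) hx0]
      rw [this, Real.rpow_le_rpow_left_iff (by norm_num)]
      exact h1
    have f4 : ((Q : ℝ) - u + 1) * (((r₀ : ℝ) + 1) * b + 2 ^ (b + 4) * c ^ a) ≤
        (x + 1) * ((r₀ + 1) * b + 2 ^ (b + 4) * x ^ (1 - η)) := by
      refine mul_le_mul f2 ?_ (by positivity) (by linarith)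
      have : (2 : ℝ) ^ (b + 4) * c ^ a ≤ 2 ^ (b + 4) * x ^ (1 - η) :=
        mul_le_mul_of_nonneg_left f3 (by positivity)
      linarith
    have f5 : (a : ℝ) * b * (((Q : ℝ) - u + 1) * (Q + u) / 2) ≤
        a * b * ((1 - δ ^ 2) / 2 * q0 ^ 2 + 2 * q0) :=
      mul_le_mul_of_nonneg_left hquad (by positivity)
    have hδ2 : 0 ≤ (1 - δ ^ 2) / 2 := by nlinarith
    have hbL : (b : ℝ) / L ≤ 1 + η := by
      rw [div_le_iff₀ (by linarith)]
      exact hbc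
    have hL0 : 0 < L := by linarith
    have ha0' : (0 : ℝ) < a := by exact_mod_cast ha
    have f6 : (a : ℝ) * b * q0 ^ 2 ≤ (1 + η) * (x ^ 2 / ((1 - η) * ℓ - L)) := by
      have g5 : (a : ℝ) * b * q0 ^ 2 = (b / L) * (x ^ 2 / (a * L)) := by
        rw [hq0]
        field_simp
      rw [g5]
      refine mul_le_mul hbL ?_ (by positivity) (by linarith)
      exact div_le_div_of_nonneg_left (by positivity) h3 h2
    have f7 : (a : ℝ) * b * (2 * q0) ≤ 2 * (1 + η) * x := by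
      have g5 : (a : ℝ) * b * (2 * q0) = (b / L) * (2 * x) := by
        rw [hq0]
        field_simp
      rw [g5]
      calc (b : ℝ) / L * (2 * x) ≤ (1 + η) * (2 * x) :=
            mul_le_mul_of_nonneg_right hbL (by linarith)
        _ = 2 * (1 + η) * x := by ring
    have f8 : (a : ℝ) * b * ((1 - δ ^ 2) / 2 * q0 ^ 2 + 2 * q0) ≤
        (1 - δ ^ 2) / 2 * ((1 + η) * (x ^ 2 / ((1 - η) * ℓ - L))) + 2 * (1 + η) * x := by
      calc (a : ℝ) * b * ((1 - δ ^ 2) / 2 * q0 ^ 2 + 2 * q0) =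
            (1 - δ ^ 2) / 2 * (a * b * q0 ^ 2) + a * b * (2 * q0) := by ring
        _ ≤ _ := add_le_add (mul_le_mul_of_nonneg_left f6 hδ2) f7
    calc (y : ℝ) ≤ _ := f1
      _ ≤ (x + 1) * ((r₀ + 1) * b + 2 ^ (b + 4) * x ^ (1 - η)) +
          ((1 - δ ^ 2) / 2 * ((1 + η) * (x ^ 2 / ((1 - η) * ℓ - L))) + 2 * (1 + η) * x) :=
        add_le_add f4 (f5.trans f8)
      _ = _ := by ring

theorem reach_asym (δ ε : ℝ) (hδ0 : 0 ≤ δ) (hδ1 : δ < 1) (hε : 0 < ε) :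
    ∃ C : ℕ, ∀ᶠ n : ℕ in atTop, ∀ K : ℕ, K ≤ n → ∃ S y : ℕ,
      Reach K S y (4 * Nat.log 2 n * 2 ^ K) ∧ S ≤ K ∧
      ((K - S : ℕ) : ℝ) ≤ C * (n : ℝ) ^ δ ∧ (y : ℝ) ≤ ((1 - δ ^ 2) / 2 + ε) * LL n := by
  set η := min (1 / 2) (ε / 8) with hηd
  have hη : 0 < η := lt_min (by norm_num) (by linarith)
  have hη1 : η ≤ 1 / 2 := min_le_left _ _
  have hηε : η ≤ ε / 8 := min_le_right _ _
  obtain ⟨b, c, h, D, _, hb, hc, hbc⟩ := exists_code η hη
  obtain ⟨r₀, hr⟩ := ra_r0 b hc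
  have hc0 : (0 : ℝ) < c := by
    have : (2 : ℝ) ≤ c := by exact_mod_cast hc
    linarith
  have hL1 : 1 ≤ Real.logb 2 c := by
    rw [Real.le_logb_iff_rpow_le (by norm_num) hc0, Real.rpow_one]
    exact_mod_cast hc
  have hδ2 : 0 ≤ (1 - δ ^ 2) / 2 := by nlinarith
  have hT : Tendsto (fun n : ℕ => Real.logb 2 (n : ℝ)) atTop atTop :=
    (Real.tendsto_logb_atTop (by norm_num)).comp tendsto_natCast_atTop_atTop
  have E1 := hT.eventually (ra_err η (ε / 2) ((r₀ + 1) * b) (2 ^ (b + 4)) hη hη1 (by linarith)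
    (by positivity) (by positivity))
  have E2 := hT.eventually (ra_main ((1 - δ ^ 2) / 2) η ε (Real.logb 2 c) hδ2 (by nlinarith) hη hη1
    hηε hε (by linarith))
  have E3 := hT.eventually (eventually_gt_atTop (2 : ℝ))
  refine ⟨2 ^ (b + 4) * c ^ (r₀ + 1), ?_⟩
  filter_upwards [E1, E2, E3, eventually_ge_atTop 1] with n e1 e2 e3 e4 K hKn
  obtain ⟨e2, e2'⟩ := e2
  have hn1 : (1 : ℝ) ≤ n := by exact_mod_cast e4
  have hLL : 0 ≤ LL n := by
    unfold LL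
    have : 0 < Real.logb 2 (Real.logb 2 n) := Real.logb_pos (by norm_num) (by linarith)
    positivity
  by_cases hK : 2 ^ (b + 4) * c ^ (r₀ + 1) ≤ K
  · have hfl : 0 ≤ (1 - η) * Real.logb 2 (Real.logb 2 n) / Real.logb 2 c :=
      div_nonneg (by linarith) (by linarith)
    have f1 := Nat.floor_le hfl
    have f2 := Nat.lt_floor_add_one ((1 - η) * Real.logb 2 (Real.logb 2 n) / Real.logb 2 c)
    rw [le_div_iff₀ (by linarith)] at f1
    rw [div_lt_iff₀ (by linarith)] at f2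
    have f3 : 1 ≤ ⌊(1 - η) * Real.logb 2 (Real.logb 2 n) / Real.logb 2 c⌋₊ := by
      rw [Nat.one_le_floor_iff, le_div_iff₀ (by linarith)]
      linarith
    obtain ⟨S, y, g1, g2, g3, g4⟩ := ra_one D hb hc hr hδ0 hδ1.le hη hbc (n := n) (K := K) f3
      (by linarith) f1 (by linarith) (by linarith) hKn hK
    refine ⟨S, y, g1, g2, g3, g4.trans ?_⟩
    unfold LL
    calc _ ≤ ((1 - δ ^ 2) / 2 + ε / 2) * (Real.logb 2 n ^ 2 / Real.logb 2 (Real.logb 2 n)) +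
          ε / 2 * (Real.logb 2 n ^ 2 / Real.logb 2 (Real.logb 2 n)) := add_le_add e2' e1
      _ = _ := by ring
  · refine ⟨0, 0, (reach_zero K).mono (Nat.zero_le _), Nat.zero_le _, ?_, ?_⟩
    · have f1 : ((K - 0 : ℕ) : ℝ) ≤ (2 ^ (b + 4) * c ^ (r₀ + 1) : ℕ) := by
        exact_mod_cast (not_le.1 hK).le
      refine f1.trans ?_
      have f2 : (1 : ℝ) ≤ (n : ℝ) ^ δ := Real.one_le_rpow hn1 hδ0
      exact le_mul_of_one_le_right (Nat.cast_nonneg _) f2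
    · have : 0 ≤ ((1 - δ ^ 2) / 2 + ε) * LL n := mul_nonneg (by linarith) hLL
      simpa using this

end Pool.Agent.CliqueSharp
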