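import Pool.Agent.CliqueCount.NatMain
import Pool.Agent.CliqueSharp.Asym36
import Pool.Agent.CliqueSharp.Defs

set_option autoImplicit false

/-!
Module UPASYM: asymptotic evaluation of the upper bound `count_le`.
-/

open Finset Filter
open Pool.Agent.CliqueCount (clq vals)

namespace Pool.Agent.CliqueSharp

lemma ua_pow_aux (w A : ℕ) : (2 ^ w + 1) ^ A ≤ 2 ^ ((w + 1) * A) := by
  rw [pow_mul]
  apply Nat.pow_le_pow_left
  rw [pow_succ]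
  have := Nat.one_le_two_pow (n := w)
  omega

/-- the bound as a power of two -/
lemma ua_bnd_le {n ν ρ m y2 s₀ κ j L T : ℕ} (hL : n + 1 ≤ 2 ^ (L + 1)) :
    bnd n ν ρ m y2 s₀ κ j * (2 ^ (2 * ν + (n - T)) + 1) ≤
      2 ^ (((2 * ν + y2 + κ) ^ 2 + ((2 * ν + y2 + κ + 1) * (2 * ν * 2 ^ (ρ * (j - m))) +
        ((y2 + κ + 1) * (y2 * 2 ^ (ρ * (j - 1)) / (s₀ + 1)) +
          (L + 1) * ((y2 + 1) ^ s₀ * 2 ^ κ)))) + (2 * ν + (n - T) + 1)) := by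
  rw [pow_add 2 _ (2 * ν + (n - T) + 1)]
  apply Nat.mul_le_mul
  · unfold bnd
    rw [pow_add 2 ((2 * ν + y2 + κ) ^ 2)]
    apply Nat.mul_le_mul_left
    rw [pow_add 2 ((2 * ν + y2 + κ + 1) * (2 * ν * 2 ^ (ρ * (j - m))))]
    apply Nat.mul_le_mul (ua_pow_aux _ _)
    rw [pow_add 2 ((y2 + κ + 1) * (y2 * 2 ^ (ρ * (j - 1)) / (s₀ + 1)))]
    apply Nat.mul_le_mul (ua_pow_aux _ _)
    rw [pow_mul 2 (L + 1)]
    exact Nat.pow_le_pow_left hL _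
  · rw [pow_succ]
    have := Nat.one_le_two_pow (n := 2 * ν + (n - T))
    omega

/-- the exponent of a term -/
lemma ua_exponent {ν ρ y2 s₀ κ q j L : ℕ} {l e a b σ : ℝ}
    (hl : 4 ≤ l) (ha : 1 ≤ a) (hσ : 0 < σ) (he : 0 < e)
    (hρ : l * a ^ 3 ≤ (2 : ℝ) ^ ρ) (hj : 6 ≤ j) (hκ : κ + q = ρ * j)
    (hW : (2 * ν + y2 + κ + 1 : ℝ) ≤ l ^ 2) (hy : (y2 : ℝ) ≤ 2 * l * a)
    (hκl : (y2 : ℝ) + κ + 1 ≤ 4 * l * a) (hs : σ * l / e ≤ s₀ + 1)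
    (hT4 : 16 * l ^ 4 ≤ (2 : ℝ) ^ (ρ * j)) (hea : 128 * e ≤ σ * a)
    (hys : ((y2 : ℝ) + 1) ^ s₀ ≤ b) (hqb : b ^ 2 ≤ 2 ^ q) (hlb : 32 * l ≤ b)
    (hL : (L : ℝ) + 1 ≤ 2 * l) :
    ((((2 * ν + y2 + κ) ^ 2 + ((2 * ν + y2 + κ + 1) * (2 * ν * 2 ^ (ρ * (j - 6))) +
        ((y2 + κ + 1) * (y2 * 2 ^ (ρ * (j - 1)) / (s₀ + 1)) +
          (L + 1) * ((y2 + 1) ^ s₀ * 2 ^ κ)))) + (2 * ν + 1) : ℕ) : ℝ) ≤
      (2 : ℝ) ^ (ρ * j) / 2 := by
  have hν0 : (0 : ℝ) ≤ ν := Nat.cast_nonneg _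
  have hy0 : (0 : ℝ) ≤ y2 := Nat.cast_nonneg _
  have hκ0 : (0 : ℝ) ≤ κ := Nat.cast_nonneg _
  have hb0 : 0 ≤ b := by linarith
  -- the first term
  have h1 : 16 * (2 * (ν : ℝ) + y2 + κ) ^ 2 ≤ (2 : ℝ) ^ (ρ * j) := by
    refine le_trans ?_ hT4
    have : (2 * (ν : ℝ) + y2 + κ) ^ 2 ≤ (l ^ 2) ^ 2 := by
      apply pow_le_pow_left₀ (by positivity)
      linarith
    nlinarith
  -- the second term
  have h2 : 16 * ((2 * (ν : ℝ) + y2 + κ + 1) * (2 * ν * 2 ^ (ρ * (j - 6)))) ≤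
      (2 : ℝ) ^ (ρ * j) := by
    have e6 : (2 : ℝ) ^ (ρ * j) = 2 ^ (ρ * (j - 6)) * ((2 : ℝ) ^ ρ) ^ 6 := by
      rw [← pow_mul, ← pow_add, ← mul_add]
      congr 2
      omega
    have h3 : l ^ 6 ≤ ((2 : ℝ) ^ ρ) ^ 6 := by
      apply pow_le_pow_left₀ (by linarith)
      refine le_trans ?_ hρ
      have : 1 ≤ a ^ 3 := one_le_pow₀ ha
      nlinarith
    have h4 : (2 * (ν : ℝ) + y2 + κ + 1) * (2 * ν) ≤ l ^ 2 * l ^ 2 := by
      apply mul_le_mul hW (by linarith) (by positivity) (by positivity)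
    have hP : (0 : ℝ) < 2 ^ (ρ * (j - 6)) := by positivity
    rw [e6]
    calc 16 * ((2 * (ν : ℝ) + y2 + κ + 1) * (2 * ν * 2 ^ (ρ * (j - 6))))
        = 2 ^ (ρ * (j - 6)) * (16 * ((2 * (ν : ℝ) + y2 + κ + 1) * (2 * ν))) := by ring
      _ ≤ 2 ^ (ρ * (j - 6)) * (16 * (l ^ 2 * l ^ 2)) :=
          mul_le_mul_of_nonneg_left (by linarith) hP.le
      _ ≤ 2 ^ (ρ * (j - 6)) * ((2 : ℝ) ^ ρ) ^ 6 := by
          apply mul_le_mul_of_nonneg_left _ hP.le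
          refine le_trans ?_ h3
          have h5 : 16 ≤ l ^ 2 := by nlinarith
          have h6 : 0 ≤ l ^ 2 * l ^ 2 := by positivity
          calc 16 * (l ^ 2 * l ^ 2) ≤ l ^ 2 * (l ^ 2 * l ^ 2) :=
                mul_le_mul_of_nonneg_right h5 h6
            _ = l ^ 6 := by ring
  -- the third term
  have h3 : 16 * (((y2 : ℝ) + κ + 1) * ((y2 * 2 ^ (ρ * (j - 1)) / (s₀ + 1) : ℕ) : ℝ)) ≤
      (2 : ℝ) ^ (ρ * j) := by
    have e1 : (2 : ℝ) ^ (ρ * j) = 2 ^ (ρ * (j - 1)) * (2 : ℝ) ^ ρ := by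
      rw [← pow_add]
      congr 1
      conv_rhs => rw [← mul_one ρ, mul_assoc, one_mul, ← mul_add]
      congr 1
      omega
    have hP : (0 : ℝ) < 2 ^ (ρ * (j - 1)) := by positivity
    have hs0 : 0 < σ * l / e := by positivity
    have h4 : ((y2 * 2 ^ (ρ * (j - 1)) / (s₀ + 1) : ℕ) : ℝ) ≤
        2 * l * a * 2 ^ (ρ * (j - 1)) / (σ * l / e) := by
      refine Nat.cast_div_le.trans ?_
      push_cast
      apply div_le_div₀ (by positivity) _ hs0 hs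
      exact mul_le_mul_of_nonneg_right hy hP.le
    have h5 : 2 * l * a * 2 ^ (ρ * (j - 1)) / (σ * l / e) =
        2 * a * e / σ * 2 ^ (ρ * (j - 1)) := by
      field_simp
    rw [h5] at h4
    have h6 : ((y2 : ℝ) + κ + 1) * ((y2 * 2 ^ (ρ * (j - 1)) / (s₀ + 1) : ℕ) : ℝ) ≤
        4 * l * a * (2 * a * e / σ * 2 ^ (ρ * (j - 1))) :=
      mul_le_mul hκl h4 (Nat.cast_nonneg _) (by positivity)
    rw [e1]
    have h7 : 128 * e / σ ≤ a := by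
      rw [div_le_iff₀ hσ]
      linarith
    calc _ ≤ 16 * (4 * l * a * (2 * a * e / σ * 2 ^ (ρ * (j - 1)))) := by linarith
      _ = 2 ^ (ρ * (j - 1)) * (l * a ^ 2 * (128 * e / σ)) := by ring
      _ ≤ 2 ^ (ρ * (j - 1)) * (l * a ^ 2 * a) := by
          apply mul_le_mul_of_nonneg_left _ hP.le
          exact mul_le_mul_of_nonneg_left h7 (by positivity)
      _ = 2 ^ (ρ * (j - 1)) * (l * a ^ 3) := by ring
      _ ≤ _ := mul_le_mul_of_nonneg_left hρ hP.le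
  -- the fourth term
  have h4 : 16 * (((L : ℝ) + 1) * (((y2 : ℝ) + 1) ^ s₀ * 2 ^ κ)) ≤ (2 : ℝ) ^ (ρ * j) := by
    have hP : (0 : ℝ) < 2 ^ κ := by positivity
    rw [← hκ, pow_add]
    calc 16 * (((L : ℝ) + 1) * (((y2 : ℝ) + 1) ^ s₀ * 2 ^ κ))
        = 2 ^ κ * (16 * (((L : ℝ) + 1) * ((y2 : ℝ) + 1) ^ s₀)) := by ring
      _ ≤ 2 ^ κ * (16 * (2 * l * b)) := by
          apply mul_le_mul_of_nonneg_left _ hP.le
          have : ((L : ℝ) + 1) * ((y2 : ℝ) + 1) ^ s₀ ≤ 2 * l * b :=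
            mul_le_mul hL hys (by positivity) (by linarith)
          linarith
      _ ≤ 2 ^ κ * b ^ 2 := by
          apply mul_le_mul_of_nonneg_left _ hP.le
          nlinarith
      _ ≤ _ := mul_le_mul_of_nonneg_left hqb hP.le
  -- the last term
  have h5 : 16 * (2 * (ν : ℝ) + 1) ≤ (2 : ℝ) ^ (ρ * j) := by
    refine le_trans ?_ hT4
    have h6 : 2 * (ν : ℝ) + 1 ≤ l ^ 2 := by linarith
    have h7 : l ^ 2 ≤ l ^ 4 := pow_le_pow_right₀ (by linarith) (by norm_num)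
    linarith
  rw [Nat.cast_add, Nat.cast_add, Nat.cast_add, Nat.cast_add, Nat.cast_mul (y2 + κ + 1)]
  push_cast at h1 h2 h3 h4 h5 ⊢
  have h8 : (0 : ℝ) < 2 ^ (ρ * j) := by positivity
  linarith

/-- a term of the sum -/
lemma ua_term {n ν ρ y2 s₀ κ q j L : ℕ} {l e a b σ : ℝ}
    (hl : 4 ≤ l) (ha : 1 ≤ a) (hσ : 0 < σ) (he : 0 < e)
    (hρ : l * a ^ 3 ≤ (2 : ℝ) ^ ρ) (hj : 6 ≤ j) (hκ : κ + q = ρ * j)
    (hW : (2 * ν + y2 + κ + 1 : ℝ) ≤ l ^ 2) (hy : (y2 : ℝ) ≤ 2 * l * a)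
    (hκl : (y2 : ℝ) + κ + 1 ≤ 4 * l * a) (hs : σ * l / e ≤ s₀ + 1)
    (hT4 : 16 * l ^ 4 ≤ (2 : ℝ) ^ (ρ * j)) (hea : 128 * e ≤ σ * a)
    (hys : ((y2 : ℝ) + 1) ^ s₀ ≤ b) (hqb : b ^ 2 ≤ 2 ^ q) (hlb : 32 * l ≤ b)
    (hL : (L : ℝ) + 1 ≤ 2 * l) (hL2 : n + 1 ≤ 2 ^ (L + 1)) (hTn : 2 ^ (ρ * j) ≤ n) :
    ((bnd n ν ρ 6 y2 s₀ κ j * (2 ^ (2 * ν + (n - 2 ^ (ρ * j))) + 1) : ℕ) : ℝ) ≤
      2 ^ ((n : ℝ) - (2 : ℝ) ^ (ρ * j) / 2) := by
  have h1 := ua_exponent hl ha hσ he hρ hj hκ hW hy hκl hs hT4 hea hys hqb hlb hL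
  have h2 := ua_bnd_le (n := n) (ν := ν) (ρ := ρ) (m := 6) (y2 := y2) (s₀ := s₀) (κ := κ)
    (j := j) (L := L) (T := 2 ^ (ρ * j)) hL2
  generalize hE : ((2 * ν + y2 + κ) ^ 2 + ((2 * ν + y2 + κ + 1) * (2 * ν * 2 ^ (ρ * (j - 6))) +
        ((y2 + κ + 1) * (y2 * 2 ^ (ρ * (j - 1)) / (s₀ + 1)) +
          (L + 1) * ((y2 + 1) ^ s₀ * 2 ^ κ)))) = E at h1 h2
  have h3 : ((bnd n ν ρ 6 y2 s₀ κ j * (2 ^ (2 * ν + (n - 2 ^ (ρ * j))) + 1) : ℕ) : ℝ) ≤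
      ((2 ^ (E + (2 * ν + (n - 2 ^ (ρ * j)) + 1)) : ℕ) : ℝ) := by exact_mod_cast h2
  refine h3.trans ?_
  rw [Nat.cast_pow, Nat.cast_ofNat, ← Real.rpow_natCast]
  apply Real.rpow_le_rpow_of_exponent_le (by norm_num)
  push_cast [Nat.cast_sub hTn] at h1 ⊢
  linarith

/-- the sum of the sizes -/
lemma ua_gauss (J : ℕ) : ∀ j₀ ≤ J, 2 * ∑ j ∈ Ioc j₀ J, (j : ℝ) =
    (J : ℝ) * (J + 1) - j₀ * (j₀ + 1) := by
  intro j₀ h
  induction J, h using Nat.le_induction with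
  | base => simp
  | succ k hk ih =>
    rw [Finset.sum_Ioc_succ_top (by omega), mul_add, ih]
    push_cast
    ring

lemma ua_sum {ρ q J j₀ x ν y2 : ℕ} {l e a d c g P σ η : ℝ}
    (hl : 4 ≤ l) (he : 1 ≤ e) (ha : 1 ≤ a) (hσ : 0 < σ) (hη : 0 < η) (hd0 : 0 < d) (hd1 : d < 1)
    (hc0 : 0 < c) (hc1 : c < 1 / 2) (hg : 0 < g)
    (hρ1 : 1 ≤ ρ) (hρ2 : (ρ : ℝ) ≤ (1 + 4 * η) * e) (hρ3 : (1 + 4 * η) * e ≤ l)
    (hJ1 : l / ρ < J + 1) (hJ2 : (J : ℝ) ≤ l / ρ) (hj0 : (j₀ : ℝ) < d * l / ρ + 1)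
    (hjJ : j₀ ≤ J) (hq : (q : ℝ) < 4 * σ * l + 1) (hσl : 1 ≤ σ * l)
    (hP : P = (1 - d ^ 2) / 2 - 5 * σ) (hP2 : (1 + 4 * η) * (c + g) ≤ P)
    (hx : (x : ℝ) ≤ c * (l ^ 2 / e) + 1) (hν : ν = 3 * x + 3)
    (hy : l * a ≤ y2) (hga : 320 ≤ g * a)
    (hLL : 3 * l + 3 ≤ g / 2 * (l ^ 2 / e)) (hLL2 : 36 ≤ l ^ 2 / e) :
    x + (2 * 6 * ν / (y2 + 1)) * ((ρ * J - q) + 1) < ∑ j ∈ Ioc j₀ J, ((ρ * j - q) + 1) := by
  set LLn := l ^ 2 / e with hLLn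
  have hr0 : (0 : ℝ) < ρ := by exact_mod_cast hρ1
  set t := l / ρ with ht
  have hrt : (ρ : ℝ) * t = l := by rw [ht]; field_simp
  have ht1 : 1 ≤ t := by
    rw [ht, le_div_iff₀ hr0]
    linarith
  have hJ0 : (0 : ℝ) ≤ J := Nat.cast_nonneg _
  have hj00 : (0 : ℝ) ≤ j₀ := Nat.cast_nonneg _
  have hdt : d * l / ρ = d * t := by rw [ht]; ring
  rw [hdt] at hj0
  -- lower bound of the sum
  have h1 : ((∑ j ∈ Ioc j₀ J, ((ρ * j - q) + 1) : ℕ) : ℝ) ≥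
      (ρ : ℝ) * ∑ j ∈ Ioc j₀ J, (j : ℝ) - q * J := by
    push_cast
    have h2 : ∀ j ∈ Ioc j₀ J, (ρ : ℝ) * j - q ≤ (((ρ * j - q : ℕ) : ℝ) + 1) := by
      intro j _
      have h3 : ρ * j ≤ (ρ * j - q) + q := by omega
      have h4 : (ρ : ℝ) * j ≤ ((ρ * j - q : ℕ) : ℝ) + q := by exact_mod_cast h3
      linarith
    have h3 := Finset.sum_le_sum h2
    rw [Finset.sum_sub_distrib, ← Finset.mul_sum, Finset.sum_const, nsmul_eq_mul,
      Nat.card_Ioc] at h3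
    have h4 : ((J - j₀ : ℕ) : ℝ) * q ≤ q * J := by
      rw [mul_comm]
      apply mul_le_mul_of_nonneg_left _ (Nat.cast_nonneg _)
      exact_mod_cast Nat.sub_le _ _
    linarith
  have h2 := ua_gauss J j₀ hjJ
  have h3 : (t - 1) * t ≤ (J : ℝ) * (J + 1) := by
    apply mul_le_mul (by linarith) hJ1.le (by linarith) hJ0
  have h4 : (j₀ : ℝ) * (j₀ + 1) ≤ (d * t + 1) * (d * t + 2) := by
    apply mul_le_mul hj0.le (by linarith) (by linarith) (by nlinarith)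
  have h5 : (q : ℝ) * J ≤ 5 * σ * l * t := by
    have : (q : ℝ) ≤ 5 * σ * l := by linarith
    calc (q : ℝ) * J ≤ (5 * σ * l) * t :=
          mul_le_mul this hJ2 hJ0 (by positivity)
      _ = _ := by ring
  have h6 : (ρ : ℝ) * ∑ j ∈ Ioc j₀ J, (j : ℝ) - q * J ≥ l * t * P - 2 * l - ρ := by
    have h7 : 2 * ∑ j ∈ Ioc j₀ J, (j : ℝ) ≥ (1 - d ^ 2) * t ^ 2 - 4 * t - 2 := by
      rw [h2]
      nlinarith
    have h8 : (ρ : ℝ) * ∑ j ∈ Ioc j₀ J, (j : ℝ) ≥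
        (ρ : ℝ) * (((1 - d ^ 2) * t ^ 2 - 4 * t - 2) / 2) :=
      mul_le_mul_of_nonneg_left (by linarith) hr0.le
    have h9 : (ρ : ℝ) * (((1 - d ^ 2) * t ^ 2 - 4 * t - 2) / 2) =
        (1 - d ^ 2) / 2 * (l * t) - 2 * l - ρ := by
      rw [← hrt]; ring
    rw [h9] at h8
    rw [hP]
    nlinarith
  -- `l t P ≥ (c + g) LL`
  have h7 : (c + g) * LLn ≤ l * t * P := by
    have h8 : LLn ≤ (1 + 4 * η) * (l * t) := by
      rw [hLLn, div_le_iff₀ (by linarith), ht]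
      have h9 : l * l ≤ (1 + 4 * η) * (l * (l / ρ)) * e := by
        have e1 : (1 + 4 * η) * (l * (l / ρ)) * e = (l * l) * ((1 + 4 * η) * e / ρ) := by ring
        rw [e1]
        have h10 : 1 ≤ (1 + 4 * η) * e / ρ := by
          rw [le_div_iff₀ hr0]
          linarith
        nlinarith [mul_self_nonneg l]
      nlinarith
    have h9 : 0 ≤ l * t := by nlinarith
    calc (c + g) * LLn ≤ (c + g) * ((1 + 4 * η) * (l * t)) :=
          mul_le_mul_of_nonneg_left h8 (by linarith)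
      _ = (1 + 4 * η) * (c + g) * (l * t) := by ring
      _ ≤ P * (l * t) := mul_le_mul_of_nonneg_right hP2 h9
      _ = _ := by ring
  -- the right-hand side
  have hy0 : (0 : ℝ) < l * a := by nlinarith
  have hν1 : (12 * ν : ℝ) ≤ 40 * LLn := by
    rw [hν]
    push_cast
    nlinarith
  have h8 : ((2 * 6 * ν / (y2 + 1) : ℕ) : ℝ) ≤ 40 * LLn / (l * a) := by
    refine Nat.cast_div_le.trans ?_
    push_cast
    apply div_le_div₀ (by nlinarith) (by linarith) hy0 (by linarith)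
  have h9 : (((ρ * J - q) + 1 : ℕ) : ℝ) ≤ 2 * l := by
    have h10 : ((ρ * J - q : ℕ) : ℝ) ≤ (ρ : ℝ) * J := by exact_mod_cast Nat.sub_le _ _
    have h11 : (ρ : ℝ) * J ≤ l := by
      rw [← hrt]
      exact mul_le_mul_of_nonneg_left hJ2 hr0.le
    push_cast
    linarith
  have h10 : ((2 * 6 * ν / (y2 + 1) : ℕ) : ℝ) * (((ρ * J - q) + 1 : ℕ) : ℝ) ≤ g / 4 * LLn := by
    calc _ ≤ 40 * LLn / (l * a) * (2 * l) :=
          mul_le_mul h8 h9 (Nat.cast_nonneg _) (by positivity)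
      _ = 80 / a * LLn := by field_simp; ring
      _ ≤ g / 4 * LLn := by
          apply mul_le_mul_of_nonneg_right _ (by linarith)
          rw [div_le_iff₀ (by linarith)]
          linarith
  have hfin : ((x + (2 * 6 * ν / (y2 + 1)) * ((ρ * J - q) + 1) : ℕ) : ℝ) <
      ((∑ j ∈ Ioc j₀ J, ((ρ * j - q) + 1) : ℕ) : ℝ) := by
    rw [Nat.cast_add, Nat.cast_mul]
    have h11 : (ρ : ℝ) ≤ l := hρ2.trans hρ3
    nlinarith
  exact_mod_cast hfin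

/-- the facts about large `l = log₂ n` -/
structure Big (δ d c g σ η l : ℝ) : Prop where
  l8 : 16 ≤ l
  e12 : 12 ≤ Real.logb 2 l
  a1 : 1 ≤ l ^ η
  a2 : l ^ η ≤ l / 4
  ea : 128 * Real.logb 2 l ≤ σ * l ^ η
  ga : 320 ≤ g * l ^ η
  ηe : 1 ≤ η * Real.logb 2 l
  T4 : 16 * l ^ 4 ≤ 2 ^ (d * l)
  lb : 32 * l ≤ 2 ^ (2 * σ * l)
  fin : Real.logb 2 l + 2 ^ (δ * l) ≤ 2 ^ (d * l) / 2
  r1 : 5 * ((1 + 4 * η) * Real.logb 2 l) ≤ d * l
  r2 : (1 + 4 * η) * Real.logb 2 l ≤ l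
  r3 : 2 * ((1 + 4 * η) * Real.logb 2 l) ≤ (1 - d) * l
  sl : 1 ≤ σ * l
  LL1 : 3 * l + 3 ≤ g / 2 * (l ^ 2 / Real.logb 2 l)
  LL2 : 36 ≤ l ^ 2 / Real.logb 2 l
  xn : l ^ 2 ≤ 2 ^ l

lemma ua_big {δ d c g σ η : ℝ} (hδd : δ < d) (hd0 : 0 < d) (hd1 : d < 1) (hg : 0 < g)
    (hσ : 0 < σ) (hη : 0 < η) (hη1 : η < 1) : ∀ᶠ l : ℝ in atTop, Big δ d c g σ η l := by
  have b1 : ∀ᶠ l : ℝ in atTop, l ^ η ≤ l / 4 := by
    filter_upwards [ev_rpow_ge (η := 1 - η) (by linarith) 4, eventually_gt_atTop (0 : ℝ)]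
      with l h1 h2
    have h3 : l ^ (1 - η) * l ^ η = l := by
      rw [← Real.rpow_add h2, sub_add_cancel, Real.rpow_one]
    have h4 : 0 ≤ l ^ η := Real.rpow_nonneg h2.le _
    nlinarith
  have b2 : ∀ᶠ l : ℝ in atTop, 128 * Real.logb 2 l ≤ σ * l ^ η := by
    filter_upwards [ev_logb_le (η := η) (s := σ / 128) hη (by positivity)] with l h
    linarith
  have b3 : ∀ᶠ l : ℝ in atTop, 320 ≤ g * l ^ η := by
    filter_upwards [ev_rpow_ge (η := η) hη (320 / g)] with l h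
    rw [div_le_iff₀ hg] at h
    linarith
  have b4 : ∀ᶠ l : ℝ in atTop, 1 ≤ η * Real.logb 2 l := by
    filter_upwards [ev_logb_ge (1 / η)] with l h
    rw [div_le_iff₀ hη] at h
    linarith
  have b5 : ∀ᶠ l : ℝ in atTop, 16 * l ^ 4 ≤ 2 ^ (d * l) := by
    filter_upwards [ev_pow_le (a := d) (s := 1 / 16) 4 hd0 (by norm_num)] with l h
    linarith
  have b6 : ∀ᶠ l : ℝ in atTop, 32 * l ≤ 2 ^ (2 * σ * l) := by
    filter_upwards [ev_pow_le (a := 2 * σ) (s := 1 / 32) 1 (by positivity) (by norm_num)]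
      with l h
    rw [pow_one] at h
    linarith
  have b7 : ∀ᶠ l : ℝ in atTop, Real.logb 2 l + 2 ^ (δ * l) ≤ 2 ^ (d * l) / 2 := by
    filter_upwards [ev_pow_le (a := d) (s := 1 / 4) 1 hd0 (by norm_num),
      ev_pow_le (a := d - δ) (s := 1 / 4) 0 (by linarith) (by norm_num),
      ev_logb_le (η := 1) (s := 1) one_pos one_pos] with l h1 h2 h3
    rw [pow_one] at h1
    rw [pow_zero] at h2
    rw [Real.rpow_one] at h3
    have h4 : (2 : ℝ) ^ (d * l) = 2 ^ (δ * l) * 2 ^ ((d - δ) * l) := by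
      rw [← Real.rpow_add (by norm_num)]
      congr 1
      ring
    have h5 : (0 : ℝ) < 2 ^ (δ * l) := Real.rpow_pos_of_pos (by norm_num) _
    have h6 : 4 * (2 : ℝ) ^ (δ * l) ≤ 2 ^ (d * l) := by
      rw [h4]
      nlinarith
    linarith
  have b8 : ∀ {s : ℝ}, 0 < s → ∀ᶠ l : ℝ in atTop, Real.logb 2 l ≤ s * l := by
    intro s hs
    filter_upwards [ev_logb_le (η := 1) (s := s) one_pos hs] with l h
    rwa [Real.rpow_one] at h
  have b9 : ∀ᶠ l : ℝ in atTop, 5 * ((1 + 4 * η) * Real.logb 2 l) ≤ d * l := by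
    filter_upwards [b8 (s := d / (5 * (1 + 4 * η))) (by positivity)] with l h
    have h2 : 0 < 5 * (1 + 4 * η) := by positivity
    calc 5 * ((1 + 4 * η) * Real.logb 2 l) = 5 * (1 + 4 * η) * Real.logb 2 l := by ring
      _ ≤ 5 * (1 + 4 * η) * (d / (5 * (1 + 4 * η)) * l) := mul_le_mul_of_nonneg_left h h2.le
      _ = d * l := by field_simp
  have b10 : ∀ᶠ l : ℝ in atTop, (1 + 4 * η) * Real.logb 2 l ≤ l := by
    filter_upwards [b8 (s := 1 / (1 + 4 * η)) (by positivity)] with l h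
    have h2 : 0 < 1 + 4 * η := by positivity
    calc (1 + 4 * η) * Real.logb 2 l ≤ (1 + 4 * η) * (1 / (1 + 4 * η) * l) :=
          mul_le_mul_of_nonneg_left h h2.le
      _ = l := by field_simp
  have b11 : ∀ᶠ l : ℝ in atTop, 2 * ((1 + 4 * η) * Real.logb 2 l) ≤ (1 - d) * l := by
    have hd2 : 0 < 1 - d := by linarith
    filter_upwards [b8 (s := (1 - d) / (2 * (1 + 4 * η))) (by positivity)] with l h
    have h2 : 0 < 2 * (1 + 4 * η) := by positivity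
    calc 2 * ((1 + 4 * η) * Real.logb 2 l) = 2 * (1 + 4 * η) * Real.logb 2 l := by ring
      _ ≤ 2 * (1 + 4 * η) * ((1 - d) / (2 * (1 + 4 * η)) * l) :=
        mul_le_mul_of_nonneg_left h h2.le
      _ = (1 - d) * l := by field_simp
  have b12 : ∀ᶠ l : ℝ in atTop, 1 ≤ σ * l := by
    filter_upwards [eventually_ge_atTop (1 / σ)] with l h
    rw [div_le_iff₀ hσ] at h
    linarith
  have b13 : ∀ᶠ l : ℝ in atTop, l ^ 2 ≤ 2 ^ l := by
    filter_upwards [ev_pow_le (a := 1) (s := 1) 2 one_pos one_pos] with l h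
    rwa [one_mul, one_mul] at h
  have b14 : ∀ᶠ l : ℝ in atTop, 36 ≤ l ^ 2 / Real.logb 2 l := by
    filter_upwards [ev_linear (s := 1) 36 one_pos, eventually_ge_atTop (1 : ℝ)] with l h h1
    linarith
  filter_upwards [eventually_ge_atTop (16 : ℝ), ev_logb_ge 12, ev_rpow_ge hη 1, b1, b2, b3, b4,
    b5, b6, b7, b9, b10, b11, b12, ev_linear (s := g / 2) 3 (by positivity), b14, b13]
    with l c1 c2 c3 c4 c5 c6 c7 c8 c9 c10 c11 c12 c13 c14 c15 c16 c17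
  exact ⟨c1, c2, c3, c4, c5, c6, c7, c8, c9, c10, c11, c12, c13, c14, c15, c16, c17⟩

/-- everything for one `n` -/
lemma ua_main {δ d c g σ η : ℝ} {n : ℕ} (hd0 : 0 < d) (hd1 : d < 1)
    (hc0 : 0 < c) (hc1 : c < 1 / 2) (hg : 0 < g) (hσ : 0 < σ) (hσd : σ ≤ d / 10) (hη : 0 < η)
    (hP2 : (1 + 4 * η) * (c + g) ≤ (1 - d ^ 2) / 2 - 5 * σ) (hn : 2 ≤ n)
    (B : Big δ d c g σ η (Real.logb 2 n))
    (hcount : ∀ (n ν x ρ m j₀ J y2 s₀ : ℕ) (κ : ℕ → ℕ), Monotone κ → 1 ≤ m →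
      m ≤ j₀ + 1 → 2 * ν + 1 ≤ 2 ^ (ρ * j₀) → 3 * x + 3 ≤ ν →
      x + (2 * m * ν / (y2 + 1)) * (κ J + 1) < ∑ j ∈ Ioc j₀ J, (κ j + 1) → x ≤ n →
      {N ∈ vals n | 2 ^ (n - x) ≤ N}.ncard ≤
        ∑ j ∈ Ioc j₀ J, bnd n ν ρ m y2 s₀ (κ j) j * (2 ^ (2 * ν + (n - 2 ^ (ρ * j))) + 1)) :
    (({N ∈ vals n | (2 : ℝ) ^ ((n : ℝ) - c * LL n) ≤ N}.ncard : ℕ) : ℝ) ≤
      2 ^ ((n : ℝ) - (n : ℝ) ^ δ) := by
  have hn0 : (0 : ℝ) < n := by exact_mod_cast (by omega : 0 < n)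
  unfold LL
  set l := Real.logb 2 n with hl
  have hnl : (2 : ℝ) ^ l = n := by
    rw [hl, Real.rpow_logb (by norm_num) (by norm_num) hn0]
  have hl16 : 16 ≤ l := B.l8
  have hl0 : 0 < l := by linarith
  set e := Real.logb 2 l with he
  have hle : (2 : ℝ) ^ e = l := by
    rw [he, Real.rpow_logb (by norm_num) (by norm_num) hl0]
  have he12 : 12 ≤ e := B.e12
  have he0 : 0 < e := by linarith
  set a := l ^ η with ha
  have ha1 : 1 ≤ a := B.a1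
  have ha2 : a ≤ l / 4 := B.a2
  have hla : 1 ≤ l * a := by nlinarith
  -- the parameters
  obtain ⟨ρ, hρ⟩ : ∃ ρ, ρ = ⌈(1 + 3 * η) * e⌉₊ := ⟨_, rfl⟩
  obtain ⟨y2, hy2⟩ : ∃ y2, y2 = ⌈l * a⌉₊ := ⟨_, rfl⟩
  obtain ⟨s₀, hs₀⟩ : ∃ s₀, s₀ = ⌊σ * l / e⌋₊ := ⟨_, rfl⟩
  obtain ⟨q, hq⟩ : ∃ q, q = ⌈4 * σ * l⌉₊ := ⟨_, rfl⟩
  obtain ⟨x, hx⟩ : ∃ x, x = ⌊c * (l ^ 2 / e)⌋₊ + 1 := ⟨_, rfl⟩
  obtain ⟨J, hJ⟩ : ∃ J, J = ⌊l / ρ⌋₊ := ⟨_, rfl⟩
  obtain ⟨j₀, hj₀⟩ : ∃ j₀, j₀ = ⌈d * l / ρ⌉₊ := ⟨_, rfl⟩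
  have hLL0 : 0 < l ^ 2 / e := by positivity
  -- bounds of the parameters
  have hρ1 : 1 ≤ ρ := by
    rw [hρ, Nat.one_le_ceil_iff]
    positivity
  have hr0 : (0 : ℝ) < ρ := by exact_mod_cast hρ1
  have hρa : (1 + 3 * η) * e ≤ ρ := by rw [hρ]; exact Nat.le_ceil _
  have hρb : (ρ : ℝ) ≤ (1 + 4 * η) * e := by
    have h1 := Nat.ceil_lt_add_one (a := (1 + 3 * η) * e) (by positivity)
    rw [← hρ] at h1
    have h2 := B.ηe
    linarith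
  have hya : l * a ≤ y2 := by rw [hy2]; exact Nat.le_ceil _
  have hyb : (y2 : ℝ) ≤ l * a + 1 := by
    rw [hy2]
    exact (Nat.ceil_lt_add_one (by positivity)).le
  have hsa : (s₀ : ℝ) ≤ σ * l / e := by rw [hs₀]; exact Nat.floor_le (by positivity)
  have hsb : σ * l / e ≤ s₀ + 1 := by rw [hs₀]; exact (Nat.lt_floor_add_one _).le
  have hqa : 4 * σ * l ≤ q := by rw [hq]; exact Nat.le_ceil _
  have hqb : (q : ℝ) < 4 * σ * l + 1 := by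
    rw [hq]
    exact Nat.ceil_lt_add_one (by positivity)
  have hxa : c * (l ^ 2 / e) ≤ x := by
    rw [hx]
    push_cast
    exact (Nat.lt_floor_add_one _).le
  have hxb : (x : ℝ) ≤ c * (l ^ 2 / e) + 1 := by
    rw [hx]
    push_cast
    have := Nat.floor_le (a := c * (l ^ 2 / e)) (by positivity)
    linarith
  have hJa : l / ρ < J + 1 := by rw [hJ]; exact Nat.lt_floor_add_one _
  have hJb : (J : ℝ) ≤ l / ρ := by rw [hJ]; exact Nat.floor_le (by positivity)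
  have hja : d * l / ρ ≤ j₀ := by rw [hj₀]; exact Nat.le_ceil _
  have hjb : (j₀ : ℝ) < d * l / ρ + 1 := by
    rw [hj₀]
    exact Nat.ceil_lt_add_one (by positivity)
  -- consequences
  have hρl : (ρ : ℝ) ≤ l := hρb.trans B.r2
  have hρj : d * l ≤ ρ * j₀ := by
    rw [div_le_iff₀ hr0] at hja
    linarith
  have hρJ : (ρ : ℝ) * J ≤ l := by
    rw [le_div_iff₀ hr0] at hJb
    linarith
  have hj5 : 5 ≤ j₀ := by
    have h1 : (5 : ℝ) ≤ d * l / ρ := by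
      rw [le_div_iff₀ hr0]
      have := B.r1
      linarith
    have h2 : (5 : ℝ) ≤ j₀ := h1.trans hja
    exact_mod_cast h2
  have hjJ : j₀ ≤ J := by
    have h1 : 2 ≤ (1 - d) * l / ρ := by
      rw [le_div_iff₀ hr0]
      have := B.r3
      linarith
    have h2 : (1 - d) * l / ρ = l / ρ - d * l / ρ := by ring
    have h3 : (j₀ : ℝ) < J := by linarith
    exact_mod_cast h3.le
  have hLLle : l ^ 2 / e ≤ l ^ 2 / 12 := by
    apply div_le_div_of_nonneg_left (by positivity) (by norm_num) he12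
  have hνb : (2 * (3 * x + 3 : ℕ) : ℝ) ≤ l ^ 2 / 4 + 12 := by
    push_cast
    have h1 : c * (l ^ 2 / e) ≤ 1 / 2 * (l ^ 2 / 12) :=
      mul_le_mul hc1.le hLLle hLL0.le (by norm_num)
    linarith
  have hDpos : (0 : ℝ) < 2 ^ (d * l) := Real.rpow_pos_of_pos (by norm_num) _
  have hl4 : l ^ 2 ≤ 2 ^ (d * l) := by
    refine le_trans ?_ B.T4
    have h1 : l ^ 2 ≤ l ^ 4 := pow_le_pow_right₀ (by linarith) (by norm_num)
    have h2 : 0 ≤ l ^ 4 := by positivity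
    linarith
  have hDle : ∀ j, j₀ ≤ j → (2 : ℝ) ^ (d * l) ≤ (2 : ℝ) ^ (ρ * j) := by
    intro j hj
    rw [← Real.rpow_natCast]
    apply Real.rpow_le_rpow_of_exponent_le (by norm_num)
    push_cast
    have h1 : (j₀ : ℝ) ≤ j := by exact_mod_cast hj
    have h2 := mul_le_mul_of_nonneg_left h1 hr0.le
    linarith
  have hTn : ∀ j, j ≤ J → 2 ^ (ρ * j) ≤ n := by
    intro j hj
    have h1 : ((2 ^ (ρ * j) : ℕ) : ℝ) ≤ n := by
      rw [Nat.cast_pow, Nat.cast_ofNat, ← Real.rpow_natCast, ← hnl]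
      apply Real.rpow_le_rpow_of_exponent_le (by norm_num)
      push_cast
      have h1 : (j : ℝ) ≤ J := by exact_mod_cast hj
      have h2 := mul_le_mul_of_nonneg_left h1 hr0.le
      linarith
    exact_mod_cast h1
  have hqρ : ∀ j, j₀ ≤ j → q ≤ ρ * j := by
    intro j hj
    have h1 : (q : ℝ) ≤ (ρ : ℝ) * j := by
      have h2 : (j₀ : ℝ) ≤ j := by exact_mod_cast hj
      have h3 : (ρ : ℝ) * j₀ ≤ ρ * j := mul_le_mul_of_nonneg_left h2 hr0.le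
      have h4 := B.sl
      have h5 : σ * l ≤ d / 10 * l := mul_le_mul_of_nonneg_right hσd hl0.le
      have h6 : 0 < d * l := by positivity
      linarith
    exact_mod_cast h1
  have hl256 : 256 ≤ l ^ 2 := by nlinarith
  have hcLL : c * (l ^ 2 / e) ≤ 1 / 2 * (l ^ 2 / 12) :=
    mul_le_mul hc1.le hLLle hLL0.le (by norm_num)
  have hxn : x ≤ n := by
    have h1 : (x : ℝ) ≤ n := by
      rw [← hnl]
      refine le_trans ?_ B.xn
      linarith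
    exact_mod_cast h1
  -- the count
  have hmain := hcount n (3 * x + 3) x ρ 6 j₀ J y2 s₀ (fun j => ρ * j - q)
    (fun i j hij => Nat.sub_le_sub_right (Nat.mul_le_mul_left _ hij) _) (by norm_num)
    (by omega) (by
      have h1 : ((2 * (3 * x + 3) + 1 : ℕ) : ℝ) ≤ ((2 ^ (ρ * j₀) : ℕ) : ℝ) := by
        have h6 := hDle j₀ le_rfl
        have h7 : 256 ≤ l ^ 2 := by nlinarith
        rw [Nat.cast_add, Nat.cast_mul, Nat.cast_ofNat, Nat.cast_one, Nat.cast_pow,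
          Nat.cast_ofNat]
        linarith
      exact_mod_cast h1) le_rfl
    (ua_sum (l := l) (e := e) (a := a) (d := d) (c := c) (g := g) (σ := σ) (η := η)
      (P := (1 - d ^ 2) / 2 - 5 * σ) (by linarith) (by linarith) ha1 hσ hη hd0 hd1 hc0 hc1 hg
      hρ1 hρb B.r2 hJa hJb hjb hjJ hqb B.sl rfl hP2 hxb rfl hya B.ga B.LL1 B.LL2)
    hxn
  have hfin : (vals n).Finite := by
    have : vals n = Set.range (fun G : SimpleGraph (Fin n) => (clq G).card) := by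
      ext N; rfl
    rw [this]
    exact Set.finite_range _
  have hsub : {N ∈ vals n | (2 : ℝ) ^ ((n : ℝ) - c * (l ^ 2 / e)) ≤ N} ⊆
      {N ∈ vals n | 2 ^ (n - x) ≤ N} := by
    rintro N ⟨h1, h2⟩
    refine ⟨h1, ?_⟩
    have h3 : ((2 ^ (n - x) : ℕ) : ℝ) ≤ N := by
      refine le_trans ?_ h2
      rw [Nat.cast_pow, Nat.cast_ofNat, ← Real.rpow_natCast, Nat.cast_sub hxn]
      apply Real.rpow_le_rpow_of_exponent_le (by norm_num)
      linarith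
    exact_mod_cast h3
  have h1 := (Set.ncard_le_ncard hsub (hfin.subset fun N hN => hN.1)).trans hmain
  have h2 : (({N ∈ vals n | (2 : ℝ) ^ ((n : ℝ) - c * (l ^ 2 / e)) ≤ N}.ncard : ℕ) : ℝ) ≤
      ∑ j ∈ Ioc j₀ J, ((bnd n (3 * x + 3) ρ 6 y2 s₀ (ρ * j - q) j *
        (2 ^ (2 * (3 * x + 3) + (n - 2 ^ (ρ * j))) + 1) : ℕ) : ℝ) := by
    exact_mod_cast h1
  refine h2.trans ?_
  -- the terms
  have hlog1 : n < 2 ^ (Nat.log 2 n + 1) := Nat.lt_pow_succ_log_self (by norm_num) n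
  have hlog2 : (Nat.log 2 n : ℝ) ≤ l := Real.natLog_le_logb n 2
  have hρpow : l * a ^ 3 ≤ (2 : ℝ) ^ ρ := by
    have h3 : l * a ^ 3 = (2 : ℝ) ^ ((1 + 3 * η) * e) := by
      have h4 : a = (2 : ℝ) ^ (η * e) := by
        rw [ha, ← hle, ← Real.rpow_mul (by norm_num)]
        congr 1
        ring
      rw [h4, ← Real.rpow_natCast, ← Real.rpow_mul (by norm_num)]
      nth_rewrite 1 [← hle]
      rw [← Real.rpow_add (by norm_num)]
      congr 1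
      push_cast
      ring
    rw [h3, ← Real.rpow_natCast]
    exact Real.rpow_le_rpow_of_exponent_le (by norm_num) hρa
  have hlal : l * a ≤ l ^ 2 / 4 := by
    have := mul_le_mul_of_nonneg_left ha2 hl0.le
    linarith
  have hlla : l ≤ l * a := by
    have := mul_le_mul_of_nonneg_left ha1 hl0.le
    linarith
  have hl16' : 16 * l ≤ l ^ 2 := by
    have := mul_le_mul_of_nonneg_left hl16 hl0.le
    linarith
  have hyl : (y2 : ℝ) + 1 ≤ l ^ 2 := by linarith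
  have hys : ((y2 : ℝ) + 1) ^ s₀ ≤ 2 ^ (2 * σ * l) := by
    calc ((y2 : ℝ) + 1) ^ s₀ ≤ (l ^ 2) ^ s₀ := pow_le_pow_left₀ (by positivity) hyl _
      _ = 2 ^ (e * ((2 * s₀ : ℕ) : ℝ)) := by
          rw [← pow_mul, Real.rpow_mul (by norm_num), hle, Real.rpow_natCast]
      _ ≤ _ := by
          apply Real.rpow_le_rpow_of_exponent_le (by norm_num)
          push_cast
          rw [le_div_iff₀ he0] at hsa
          linarith
  have hqb2 : ((2 : ℝ) ^ (2 * σ * l)) ^ 2 ≤ 2 ^ q := by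
    rw [← Real.rpow_natCast, ← Real.rpow_natCast, ← Real.rpow_mul (by norm_num)]
    apply Real.rpow_le_rpow_of_exponent_le (by norm_num)
    push_cast
    linarith
  have hterm : ∀ j ∈ Ioc j₀ J, ((bnd n (3 * x + 3) ρ 6 y2 s₀ (ρ * j - q) j *
        (2 ^ (2 * (3 * x + 3) + (n - 2 ^ (ρ * j))) + 1) : ℕ) : ℝ) ≤
        2 ^ ((n : ℝ) - 2 ^ (d * l) / 2) := by
    intro j hj
    rw [mem_Ioc] at hj
    have hjJ' : (j : ℝ) ≤ J := by exact_mod_cast hj.2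
    have hκle : ((ρ * j - q : ℕ) : ℝ) ≤ l := by
      have h5 : ((ρ * j - q : ℕ) : ℝ) ≤ ((ρ * j : ℕ) : ℝ) := by
        exact_mod_cast Nat.sub_le _ _
      refine h5.trans ?_
      push_cast
      have h6 := mul_le_mul_of_nonneg_left hjJ' hr0.le
      linarith
    have h3 := ua_term (n := n) (ν := 3 * x + 3) (ρ := ρ) (y2 := y2) (s₀ := s₀)
      (κ := ρ * j - q) (q := q) (j := j) (L := Nat.log 2 n) (l := l) (e := e) (a := a)
      (b := 2 ^ (2 * σ * l)) (σ := σ) (by linarith) ha1 hσ he0 hρpow (by omega)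
      (Nat.sub_add_cancel (hqρ j hj.1.le)) (by linarith) (by linarith) (by linarith) hsb
      (B.T4.trans (hDle j hj.1.le)) B.ea hys hqb2 B.lb (by linarith) (by omega) (hTn j hj.2)
    refine h3.trans ?_
    apply Real.rpow_le_rpow_of_exponent_le (by norm_num)
    have := hDle j hj.1.le
    linarith
  refine (Finset.sum_le_sum hterm).trans ?_
  rw [Finset.sum_const, nsmul_eq_mul, Nat.card_Ioc]
  have h3 : ((J - j₀ : ℕ) : ℝ) ≤ 2 ^ e := by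
    rw [hle]
    have h4 : ((J - j₀ : ℕ) : ℝ) ≤ J := by exact_mod_cast Nat.sub_le _ _
    have h5 : (1 : ℝ) ≤ ρ := by exact_mod_cast hρ1
    have h6 : (0 : ℝ) ≤ J := Nat.cast_nonneg _
    have h7 := mul_le_mul_of_nonneg_right h5 h6
    linarith
  calc ((J - j₀ : ℕ) : ℝ) * 2 ^ ((n : ℝ) - 2 ^ (d * l) / 2)
      ≤ 2 ^ e * 2 ^ ((n : ℝ) - 2 ^ (d * l) / 2) :=
        mul_le_mul_of_nonneg_right h3 (Real.rpow_nonneg (by norm_num) _)
    _ = 2 ^ (e + ((n : ℝ) - 2 ^ (d * l) / 2)) := by rw [← Real.rpow_add (by norm_num)]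
    _ ≤ _ := by
        apply Real.rpow_le_rpow_of_exponent_le (by norm_num)
        have h4 : (n : ℝ) ^ δ = 2 ^ (δ * l) := by
          rw [← hnl, ← Real.rpow_mul (by norm_num)]
          congr 1
          ring
        rw [h4]
        have := B.fin
        linarith

/-- UPASYM, from the statement `count_le` -/
theorem upper_asym_of_count
    (hcount : ∀ (n ν x ρ m j₀ J y2 s₀ : ℕ) (κ : ℕ → ℕ), Monotone κ → 1 ≤ m →
      m ≤ j₀ + 1 → 2 * ν + 1 ≤ 2 ^ (ρ * j₀) → 3 * x + 3 ≤ ν →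
      x + (2 * m * ν / (y2 + 1)) * (κ J + 1) < ∑ j ∈ Ioc j₀ J, (κ j + 1) → x ≤ n →
      {N ∈ vals n | 2 ^ (n - x) ≤ N}.ncard ≤
        ∑ j ∈ Ioc j₀ J, bnd n ν ρ m y2 s₀ (κ j) j * (2 ^ (2 * ν + (n - 2 ^ (ρ * j))) + 1))
    (δ c : ℝ) (hδ0 : 0 ≤ δ) (hc0 : 0 < c)
    (hc : c < (1 - δ ^ 2) / 2) : ∀ᶠ n : ℕ in atTop,
    (({N ∈ vals n | (2 : ℝ) ^ ((n : ℝ) - c * LL n) ≤ N}.ncard : ℕ) : ℝ) ≤
      2 ^ ((n : ℝ) - (n : ℝ) ^ δ) := by
  have h1 : δ < √(1 - 2 * c) := by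
    rw [Real.lt_sqrt hδ0]
    linarith
  obtain ⟨d, hd1, hd2⟩ := exists_between h1
  have hd0 : 0 < d := hδ0.trans_lt hd1
  rw [Real.lt_sqrt hd0.le] at hd2
  have hd3 : d < 1 := by nlinarith
  obtain ⟨g0, hg0⟩ : ∃ g0, g0 = (1 - d ^ 2) / 2 - c := ⟨_, rfl⟩
  have hg1 : 0 < g0 := by rw [hg0]; linarith
  have hg2 : g0 ≤ 1 / 2 := by rw [hg0]; nlinarith
  have hg3 : c + g0 ≤ 1 / 2 := by rw [hg0]; nlinarith
  have hσ0 : 0 < min (g0 / 20) (d / 10) := lt_min (by positivity) (by positivity)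
  have hσ1 : min (g0 / 20) (d / 10) ≤ g0 / 20 := min_le_left _ _
  have hσ2 : min (g0 / 20) (d / 10) ≤ d / 10 := min_le_right _ _
  generalize min (g0 / 20) (d / 10) = σ at hσ0 hσ1 hσ2
  filter_upwards [ev_nat (ua_big (δ := δ) (d := d) (c := c) (g := g0 / 4) (σ := σ)
    (η := g0 / 4) hd1 hd0 hd3 (by positivity) hσ0 (by positivity) (by linarith)),
    eventually_ge_atTop 2] with n B hn
  refine ua_main hd0 hd3 hc0 (by linarith) (by positivity) hσ0 hσ2 (by positivity) ?_ hn B hcount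
  nlinarith

end Pool.Agent.CliqueSharp
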