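import Pool.Agent.CliqueSharp.Count
import Pool.Agent.CliqueSharp.Interval
import Pool.Agent.CliqueSharp.Profile
import Pool.Agent.CliqueSharp.ReachAsym
import Pool.Agent.CliqueSharp.UpAsym

set_option autoImplicit false

open Finset Filter
open Pool.Agent.CliqueCount (clq vals)

namespace Pool.Agent.CliqueSharp

theorem upper_asym (δ c : ℝ) (hδ0 : 0 ≤ δ) (_hδ1 : δ < 1) (hc0 : 0 < c)
    (hc : c < (1 - δ ^ 2) / 2) : ∀ᶠ n : ℕ in atTop,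
    (({N ∈ vals n | (2 : ℝ) ^ ((n : ℝ) - c * LL n) ≤ N}.ncard : ℕ) : ℝ) ≤
      2 ^ ((n : ℝ) - (n : ℝ) ^ δ) :=
  upper_asym_of_count
    (fun _ _ _ _ _ _ _ _ _ κ h1 h2 h3 h4 h5 h6 h7 => count_le κ h1 h2 h3 h4 h5 h6 h7) δ c hδ0 hc0 hc

theorem interval_asym (ε : ℝ) (hε : 0 < ε) : ∀ᶠ n : ℕ in atTop, ∀ N : ℕ, n ≤ N →
    (N : ℝ) ≤ 2 ^ ((n : ℝ) - (1 / 2 + ε) * LL n) →
    ∃ G : SimpleGraph (Fin n), (clq G).card = N + 1 :=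
  interval_asym_of_reach ε hε (reach_asym 0 (ε / 2) le_rfl one_pos (by linarith))

theorem profile_lower (δ ε : ℝ) (hδ0 : 0 < δ) (hδ1 : δ < 1) (hε : 0 < ε) :
    ∀ᶠ n : ℕ in atTop, (2 : ℝ) ^ ((n : ℝ) - (n : ℝ) ^ (δ + ε)) ≤
      (({N ∈ vals n | (2 : ℝ) ^ ((n : ℝ) - ((1 - δ ^ 2) / 2 + ε) * LL n) ≤ N}.ncard : ℕ) : ℝ) :=
  profile_lower_of_reach δ ε hδ0 hδ1 hε (reach_asym δ (ε / 2) hδ0.le hδ1 (by linarith))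

end Pool.Agent.CliqueSharp
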