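import Pool.Agent.CliqueCount.NatMain
import Pool.Agent.CliqueSharp.Group

set_option autoImplicit false

open Finset
open Pool.Agent.CliqueCount (Attain Reach attain_add reach_zero Reach.mono)

namespace Pool.Agent.CliqueSharp

lemma sum_pow_le (u w : ℕ) (hw : 1 ≤ w) : ∀ t : ℕ,
    ∑ j : Fin (t + 1), 2 ^ (u + (j : ℕ) * w) ≤ 2 ^ (u + t * w + 1) := by
  intro t
  induction t with
  | zero => simp [pow_succ]
  | succ t ih =>
    rw [Fin.sum_univ_castSucc]
    simp only [Fin.val_castSucc, Fin.val_last]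
    have h1 : 2 ^ (u + t * w + 1) ≤ 2 ^ (u + (t + 1) * w) := by
      apply Nat.pow_le_pow_right (by norm_num)
      have : (t + 1) * w = t * w + w := by ring
      omega
    have h2 : 2 ^ (u + (t + 1) * w + 1) = 2 ^ (u + (t + 1) * w) + 2 ^ (u + (t + 1) * w) := by ring
    omega

variable {b c h : ℕ} (D : Code b c h)

lemma reach_step (hb : h < b) (hc : 1 ≤ c) {K S y B r t : ℕ} (hr : (r + 1) * b ≤ c ^ r)
    (hK : P D (r + 1) ≤ K) (h : Reach K S y B)
    (hS : t = 0 ∨ S + (t - 1) * c ^ (r + 1) + P D (r + 1) + (r + 1) * b + 1 ≤ K) :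
    Reach K (S + t * c ^ (r + 1)) (y + ((r + 1) * b + t)) (B + 2 * 2 ^ K) := by
  intro τ
  obtain ⟨h0, a0, m0, b0⟩ := h (τ - Hc D (r + 1) K)
  obtain ⟨d, hd⟩ := Int.modEq_iff_dvd.1 m0
  obtain ⟨I, hI⟩ := enc_seq D (r + 1) S t d
  obtain ⟨e, he⟩ := Int.modEq_iff_dvd.1 hI
  have hbd : ∀ j : Fin t, S + (j : ℕ) * c ^ (r + 1) + P D (r + 1) ≤ K := by
    intro j
    rcases hS with h0 | h0
    · exact absurd j.2 (by omega)
    · have hj : (j : ℕ) ≤ t - 1 := by have := j.2; omega
      have : (j : ℕ) * c ^ (r + 1) ≤ (t - 1) * c ^ (r + 1) := Nat.mul_le_mul_right _ hj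
      omega
  have ag := attain_group D (K := K) (fun j : Fin t => S + (j : ℕ) * c ^ (r + 1)) I hK hbd
  refine ⟨h0 + (Hc D (r + 1) K + ∑ j : Fin t, T D (r + 1) (S + (j : ℕ) * c ^ (r + 1)) (I j)),
    attain_add a0 ag, ?_, ?_⟩
  · apply Int.modEq_iff_dvd.2
    refine ⟨e, ?_⟩
    push_cast at hd he ⊢
    linarith
  · have h1 : ∑ j : Fin t, T D (r + 1) (S + (j : ℕ) * c ^ (r + 1)) (I j) ≤ 2 ^ K := by
      rcases hS with h0 | h0
      · subst h0
        simp
      · rcases t with _ | t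
        · simp
        · simp only [Nat.add_sub_cancel] at h0
          calc _ ≤ ∑ j : Fin (t + 1), 2 ^ (((r + 1) * b + S + P D (r + 1)) +
                  (j : ℕ) * c ^ (r + 1)) := by
                apply Finset.sum_le_sum
                intro j _
                refine (T_le D (r + 1) _ _).trans (le_of_eq ?_)
                rw [← pow_add]
                congr 1
                ring
            _ ≤ 2 ^ ((r + 1) * b + S + P D (r + 1) + t * c ^ (r + 1) + 1) :=
                sum_pow_le _ _ (Nat.pow_pos (by omega)) t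
            _ ≤ 2 ^ K := by
                apply Nat.pow_le_pow_right (by norm_num)
                omega
    have h2 := Hc_le D hb hr hK
    omega

include D in
/-- one scale: `M = 2 ^ (b + 4)` -/
theorem reach_next (hb : h < b) (hc : 2 ≤ c) {K S y B r a : ℕ}
    (hr : (r + 2) * b ≤ c ^ r) (hK : 2 ^ (b + 4) * c ^ (r + 1) ≤ K) (h : Reach K S y B)
    (hS : S ≤ K) (hΔ : K - S < 2 ^ (b + 4) * c ^ (r + 1 + a)) :
    ∃ S' y', Reach K S' y' (B + 2 * 2 ^ K) ∧ S' ≤ K ∧ K - S' < 2 ^ (b + 4) * c ^ (r + 1) ∧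
      y' ≤ y + ((r + 1) * b + 2 ^ (b + 4) * c ^ a) := by
  have hp : 0 < c ^ (r + 1) := Nat.pow_pos (by omega)
  have hP := P_le D hc (r + 1)
  have hM : 2 ^ (b + 4) = 2 * 2 ^ (b + 3) := by ring
  have hMpos : 1 ≤ 2 ^ (b + 3) := Nat.one_le_two_pow
  -- everything used at the top fits in `M c ^ (r + 1)`
  have hfit : P D (r + 1) + (r + 1) * b + 1 ≤ 2 ^ (b + 4) * c ^ (r + 1) := by
    have h1 : (r + 1) * b + 1 ≤ c ^ (r + 1) := by
      have h2 : (r + 1) * b + b ≤ c ^ r := by
        calc (r + 1) * b + b = (r + 2) * b := by ring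
          _ ≤ c ^ r := hr
      have h3 : c ^ r ≤ c ^ (r + 1) := Nat.pow_le_pow_right (by omega) (by omega)
      have hb1 : 1 ≤ b := by omega
      omega
    have h2 : 1 * c ^ (r + 1) ≤ 2 ^ (b + 3) * c ^ (r + 1) := Nat.mul_le_mul_right _ hMpos
    rw [hM, mul_assoc]
    omega
  have hr1 : (r + 1) * b ≤ c ^ r := by
    have : (r + 2) * b = (r + 1) * b + b := by ring
    omega
  set q := (K - S) / c ^ (r + 1) with hq
  have h1 : q * c ^ (r + 1) ≤ K - S := Nat.div_mul_le_self _ _
  have h2 : K - S < (q + 1) * c ^ (r + 1) := by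
    have := Nat.lt_mul_div_succ (K - S) hp
    rw [← hq] at this
    linarith
  have h3 : q < 2 ^ (b + 4) * c ^ a := by
    rw [hq, Nat.div_lt_iff_lt_mul hp]
    calc K - S < 2 ^ (b + 4) * c ^ (r + 1 + a) := hΔ
      _ = 2 ^ (b + 4) * c ^ a * c ^ (r + 1) := by rw [pow_add c (r + 1) a]; ring
  clear_value q
  set M := 2 ^ (b + 4) with hMdef
  have hMpos2 : 1 ≤ M := Nat.one_le_two_pow
  set t := q + 1 - M with ht
  have h4 : t = 0 ∨ S + (t - 1) * c ^ (r + 1) + P D (r + 1) + (r + 1) * b + 1 ≤ K := by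
    by_cases ht0 : t = 0
    · left; exact ht0
    · right
      have e : (t - 1) + M = q := by omega
      have e2 : (t - 1) * c ^ (r + 1) + M * c ^ (r + 1) = q * c ^ (r + 1) := by
        rw [← add_mul, e]
      omega
  have hstep := reach_step D hb (by omega) hr1 (by omega) h h4
  refine ⟨S + t * c ^ (r + 1), y + ((r + 1) * b + t), hstep, ?_, ?_, ?_⟩
  · by_cases ht0 : t = 0
    · rw [ht0]; simpa using hS
    · rcases h4 with h | h
      · exact absurd h ht0
      · have e : t * c ^ (r + 1) = (t - 1) * c ^ (r + 1) + c ^ (r + 1) := by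
          have e5 : t = (t - 1) + 1 := by omega
          calc t * c ^ (r + 1) = ((t - 1) + 1) * c ^ (r + 1) := by rw [← e5]
            _ = _ := by ring
        have e3 : c ^ (r + 1) ≤ P D (r + 1) := by
          unfold P
          exact Nat.le_add_left _ _
        omega
  · by_cases ht0 : t = 0
    · rw [ht0]
      have : q + 1 ≤ M := by omega
      have h6 : (q + 1) * c ^ (r + 1) ≤ M * c ^ (r + 1) := Nat.mul_le_mul_right _ this
      simp only [zero_mul, add_zero]
      omega
    · have e : (q + 1) * c ^ (r + 1) = t * c ^ (r + 1) + M * c ^ (r + 1) := by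
        rw [← add_mul]
        congr 1
        omega
      omega
  · omega

include D in
theorem reach_iter (hb : h < b) (hc : 2 ≤ c) {K r₀ a Q : ℕ}
    (hr : ∀ r, r₀ ≤ r → (r + 2) * b ≤ c ^ r)
    (h1 : 2 ^ (b + 4) * c ^ (r₀ + 1 + a * Q) ≤ K)
    (h2 : K < 2 ^ (b + 4) * c ^ (r₀ + 1 + a * (Q + 1))) : ∀ i, i ≤ Q →
    ∃ S y, Reach K S y ((i + 1) * (2 * 2 ^ K)) ∧ S ≤ K ∧
      K - S < 2 ^ (b + 4) * c ^ (r₀ + 1 + a * (Q - i)) ∧
      y ≤ ∑ q ∈ Icc (Q - i) Q, ((r₀ + 1 + a * q) * b + 2 ^ (b + 4) * c ^ a) := by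
  intro i
  induction i with
  | zero =>
    intro _
    obtain ⟨S', y', p1, p2, p3, p4⟩ := reach_next D (r := r₀ + a * Q) (a := a) hb hc
      (hr _ (by omega)) (by
        have : r₀ + a * Q + 1 = r₀ + 1 + a * Q := by ring
        rw [this]; exact h1) (reach_zero K) (Nat.zero_le _) (by
        have : r₀ + a * Q + 1 + a = r₀ + 1 + a * (Q + 1) := by ring
        rw [this]
        omega)
    refine ⟨S', y', p1.mono ?_, p2, ?_, ?_⟩
    · omega
    · have : r₀ + a * Q + 1 = r₀ + 1 + a * Q := by ring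
      rw [this] at p3
      simpa using p3
    · have : r₀ + a * Q + 1 = r₀ + 1 + a * Q := by ring
      rw [this] at p4
      simpa using p4
  | succ i ih =>
    intro hi
    obtain ⟨S, y, q1, q2, q3, q4⟩ := ih (by omega)
    have hle : a * (Q - (i + 1)) ≤ a * Q := Nat.mul_le_mul_left _ (by omega)
    have e0 : r₀ + a * (Q - (i + 1)) + 1 = r₀ + 1 + a * (Q - (i + 1)) := by ring
    obtain ⟨S', y', p1, p2, p3, p4⟩ := reach_next D (r := r₀ + a * (Q - (i + 1))) (a := a)
      hb hc (hr _ (by omega)) (by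
        rw [e0]
        refine le_trans ?_ h1
        apply Nat.mul_le_mul_left
        exact Nat.pow_le_pow_right (by omega) (by omega)) q1 q2 (by
        have e : r₀ + a * (Q - (i + 1)) + 1 + a = r₀ + 1 + a * (Q - i) := by
          have : Q - i = (Q - (i + 1)) + 1 := by omega
          rw [this]; ring
        rw [e]
        exact q3)
    rw [e0] at p3 p4
    refine ⟨S', y', p1.mono ?_, p2, p3, ?_⟩
    · have : (i + 1 + 1) * (2 * 2 ^ K) = (i + 1) * (2 * 2 ^ K) + 2 * 2 ^ K := by ring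
      omega
    · have hsplit : Icc (Q - (i + 1)) Q = insert (Q - (i + 1)) (Icc (Q - i) Q) := by
        ext z
        simp only [mem_Icc, mem_insert]
        omega
      rw [hsplit, Finset.sum_insert (by simp; omega)]
      omega

end Pool.Agent.CliqueSharp
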